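import Pool.Agent.Helper98.RD.Core

/-!
RD-10. If every even generator is nilpotent in `H(ΛW^{≥ deg w_i}, d̄)`, then every even generator is nilpotent
modulo the ideal `JJ` generated by the odd generators and the boundaries.

Proof. Strong induction on `deg i`. `gen i ^ M = S.d u + r`, `r ∈ idealSpan (gen '' {j | deg j < deg i})`, `S.d u ∈ JJ` (`d_mem_JJ`).
`r` is a finite sum of `p * gen j * q`; for odd `deg j` this is in `JJ`; for even `deg j`, `gen j` is central (`even_comm`), so it
is `gen j * (p q)`, and `gen j ^ M_j ∈ JJ` by induction. Let `C` be the set of the `x` with `∃ K, ` for all `y` .. : simplest: let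
`N(x) := ∃ K, ∀ p, (p * x) ^ K ∈ JJ`? -- or work in the quotient ring `Lam deg / JJ` (`RingQuot`/`Ideal`-free version): the even part of
`Lam deg` is commutative (`even_comm`), replace `p q` by its even part (`(p q + sgn (p q))/2`; the odd part is in `JJ`, `odd_mem_JJ`),
so `r ≡ ∑ gen j * e_j` mod `JJ` with `e_j` even, all factors commute, and a sum of commuting elements nilpotent modulo the ideal `JJ`
is nilpotent modulo `JJ` (`(x + y)^(K+L)` by the binomial theorem `Commute.add_pow`; `JJ_left`, `JJ_right`).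
-/

set_option autoImplicit false

namespace Anick2

/-- `x` is congruent modulo `JJ` to an even element which is nilpotent modulo `JJ`. -/
private def NJ {ι : Type} {deg : ι → ℕ} (d : Lam deg →ₗ[ℚ] Lam deg) (x : Lam deg) : Prop :=
  ∃ e : Lam deg, sgn deg e = e ∧ x - e ∈ JJ deg d ∧ ∃ K, e ^ K ∈ JJ deg d

private theorem nj_of_mem {ι : Type} {deg : ι → ℕ} {d : Lam deg →ₗ[ℚ] Lam deg} {x : Lam deg}
    (hx : x ∈ JJ deg d) : NJ d x :=
  ⟨0, map_zero _, by rwa [sub_zero], 1, by rw [pow_one]; exact Submodule.zero_mem _⟩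

private theorem nj_add {ι : Type} {deg : ι → ℕ} {d : Lam deg →ₗ[ℚ] Lam deg} {x y : Lam deg}
    (hx : NJ d x) (hy : NJ d y) : NJ d (x + y) := by
  obtain ⟨e, he, hxe, K, hK⟩ := hx
  obtain ⟨f, hf, hyf, L, hL⟩ := hy
  refine ⟨e + f, by rw [map_add, he, hf], ?_, K + L, ?_⟩
  · have h : x + y - (e + f) = (x - e) + (y - f) := by abel
    rw [h]
    exact Submodule.add_mem _ hxe hyf
  · have hc : Commute e f := even_comm he f
    rw [hc.add_pow]
    refine Submodule.sum_mem _ fun m _ => ?_
    refine JJ_right ?_ _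
    rcases le_total K m with h | h
    · obtain ⟨k, rfl⟩ := Nat.exists_eq_add_of_le h
      rw [pow_add]
      exact JJ_right (JJ_right hK _) _
    · have hm : K + L - m = L + (K - m) := by omega
      rw [hm, pow_add]
      exact JJ_left (JJ_right hL _) _

private theorem nj_smul {ι : Type} {deg : ι → ℕ} {d : Lam deg →ₗ[ℚ] Lam deg} {x : Lam deg}
    (c : ℚ) (hx : NJ d x) : NJ d (c • x) := by
  obtain ⟨e, he, hxe, K, hK⟩ := hx
  refine ⟨c • e, by rw [map_smul, he], ?_, K, ?_⟩
  · rw [← smul_sub]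
    exact Submodule.smul_mem _ _ hxe
  · rw [smul_pow]
    exact Submodule.smul_mem _ _ hK

private theorem pow_sub_mem {ι : Type} {deg : ι → ℕ} {d : Lam deg →ₗ[ℚ] Lam deg} {x e : Lam deg}
    (h : x - e ∈ JJ deg d) (K : ℕ) : x ^ K - e ^ K ∈ JJ deg d := by
  induction K with
  | zero => rw [pow_zero, pow_zero, sub_self]; exact Submodule.zero_mem _
  | succ K ih =>
    have h2 : x ^ (K + 1) - e ^ (K + 1) = x * (x ^ K - e ^ K) + (x - e) * e ^ K := by
      rw [pow_succ', pow_succ']
      noncomm_ring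
    rw [h2]
    exact Submodule.add_mem _ (JJ_left ih _) (JJ_right h _)

private theorem half_mem {ι : Type} {deg : ι → ℕ} (w : Lam deg) :
    sgn deg ((1 / 2 : ℚ) • (w + sgn deg w)) = (1 / 2 : ℚ) • (w + sgn deg w) ∧
    sgn deg (w - (1 / 2 : ℚ) • (w + sgn deg w)) = -(w - (1 / 2 : ℚ) • (w + sgn deg w)) := by
  have h1 : sgn deg ((1 / 2 : ℚ) • (w + sgn deg w)) = (1 / 2 : ℚ) • (w + sgn deg w) := by
    rw [map_smul, map_add, sgn_sgn, add_comm]
  refine ⟨h1, ?_⟩
  rw [map_sub, h1]
  have h2 : (1 / 2 : ℚ) • (w + sgn deg w) + (1 / 2 : ℚ) • (w + sgn deg w) = w + sgn deg w := by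
    rw [← add_smul]
    norm_num
  rw [eq_neg_iff_add_eq_zero]
  have h3 : sgn deg w - (1 / 2 : ℚ) • (w + sgn deg w) + (w - (1 / 2 : ℚ) • (w + sgn deg w)) =
      (w + sgn deg w) - ((1 / 2 : ℚ) • (w + sgn deg w) + (1 / 2 : ℚ) • (w + sgn deg w)) := by abel
  rw [h3, h2, sub_self]

theorem nil_JJ {ι : Type} {deg : ι → ℕ} (S : MinimalSullivan deg)
    (h : ∀ i, Even (deg i) → S.IsNilpotentClass i) :
    ∀ i, Even (deg i) → ∃ M, gen deg i ^ M ∈ JJ deg S.d := by
  suffices H : ∀ n : ℕ, ∀ i, deg i = n → Even (deg i) → ∃ M, gen deg i ^ M ∈ JJ deg S.d from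
    fun i hi => H (deg i) i rfl hi
  intro n
  induction n using Nat.strong_induction_on with
  | _ n ih =>
    intro i hin hi
    obtain ⟨M, u, hu⟩ := h i hi
    have key : ∀ r ∈ idealSpan (gen deg '' {j | deg j < deg i}), NJ S.d r := by
      intro r hr
      unfold idealSpan at hr
      induction hr using Submodule.span_induction with
      | mem r hr =>
        obtain ⟨p, v, q, ⟨j, hj, rfl⟩, rfl⟩ := hr
        have hj' : deg j < deg i := hj
        rcases Nat.even_or_odd (deg j) with he | ho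
        · obtain ⟨K, hK⟩ := ih (deg j) (by omega) j rfl he
          have hg : sgn deg (gen deg j) = gen deg j := sgn_gen_even he
          have h1 : p * gen deg j * q = gen deg j * (p * q) := by
            rw [← even_comm hg p, mul_assoc]
          rw [h1]
          obtain ⟨h2, h3⟩ := half_mem (p * q)
          refine ⟨gen deg j * ((1 / 2 : ℚ) • (p * q + sgn deg (p * q))), ?_, ?_, K, ?_⟩
          · rw [map_mul, hg, h2]
          · rw [← mul_sub]
            exact JJ_left (odd_mem_JJ h3) _
          · rw [Commute.mul_pow (even_comm hg _)]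
            exact JJ_right hK _
        · refine nj_of_mem (JJ_right (JJ_left ?_ _) _)
          exact mem_idealSpan_self (Or.inl ⟨j, ho, rfl⟩)
      | zero => exact nj_of_mem (Submodule.zero_mem _)
      | add x y _ _ hx hy => exact nj_add hx hy
      | smul c x _ hx => exact nj_smul c hx
    obtain ⟨e, he, hre, K, hK⟩ := key _ hu
    refine ⟨M * K, ?_⟩
    have h3 : gen deg i ^ M - e ∈ JJ deg S.d := by
      have h4 : gen deg i ^ M - e = (gen deg i ^ M - S.d u - e) + S.d u := by abel
      rw [h4]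
      exact Submodule.add_mem _ hre (d_mem_JJ _)
    have h5 := pow_sub_mem h3 K
    rw [pow_mul]
    have h6 : (gen deg i ^ M) ^ K = ((gen deg i ^ M) ^ K - e ^ K) + e ^ K := by abel
    rw [h6]
    exact Submodule.add_mem _ h5 hK

end Anick2
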