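import Pool.Agent.Helper98.RD.Core

/-!
RD-11. Push out of a relative Sullivan algebra.

Proof. `F : Lam (Sum.elim degT deg') →ₐ Lam (Sum.elim deg deg')` by `Lam.lift`: `inl k ↦ iL (J (gen k))`, `inr j ↦ gen (inr j)` (relations:
the images are homogeneous of the right degrees, `hom_comm`). `F` preserves degrees. `D = der` on `Lam (Sum.elim deg deg')` with the
values `inl i ↦ iL (S.d (gen i))`, `inr j ↦ F (T'.d (gen (inr j)))`, of degree `+1`. `D (iL a) = iL (S.d a)` (both sides are derivations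
along `iL`, equal on generators). `D ∘ F = F ∘ T'.d`: both are `F`-derivations (`D (F (a b)) = D (F a) F b + sgn (F a) D (F b)`), on
`inl k`: `D (iL (J (gen k))) = iL (S.d (J (gen k))) = iL (J (T.d (gen k))) = F (iL (T.d (gen k))) = F (T'.d (gen (inl k)))` by `hT`; on `inr j` by
definition. `D (D (gen (inr j))) = D (F (T'.d ..)) = F (T'.d (T'.d ..)) = 0`, `D (D (gen (inl i))) = iL (S.d (S.d ..)) = 0`: `der_sq`.
Sullivan condition for `inr j`: `T'.d (gen (inr j))` is in the subalgebra generated by the generators of degree `< deg' j`, `F` maps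
such a generator into the subalgebra generated by the generators of degree `< deg' j` (`J (gen k)` is homogeneous of degree `degT k`, so a
combination of monomials all of whose letters have degree `≤ degT k`). For `inl i`: from `S.sullivan`. Minimality for `inr j`: `T'.d (gen (inr j))` is a
combination of products of at least two generators, and `F` of a generator is homogeneous of positive degree, so a combination of
monomials of length `≥ 1` (`two_le` for `T'` gives positive degrees; a monomial of positive degree has length `≥ 1`), so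
the product is a combination of monomials of length `≥ 2`. `two_le`: from `S.two_le`, `T'.two_le`. `IsExt`: `J = iL`, see
`Extends` in `AN/Stmt2.lean`, `mapL_gen`.
-/

set_option autoImplicit false

namespace Anick2

attribute [local irreducible] instRingLam

section
variable {ι₁ ι₂ : Type} {deg₁ : ι₁ → ℕ} {deg₂ : ι₂ → ℕ}

private theorem pu_gr {F : Lam deg₁ →ₐ[ℚ] Lam deg₂}
    (hF : ∀ i, F (gen deg₁ i) ∈ hom deg₂ (deg₁ i)) (n : ℕ) (a : Lam deg₁) (ha : a ∈ hom deg₁ n) :
    F a ∈ hom deg₂ n := by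
  have key : ∀ l : List ι₁, F (mon deg₁ l) ∈ hom deg₂ (degSum deg₁ l) := by
    intro l
    induction l with
    | nil =>
      rw [mon_nil, map_one]
      exact mon_mem_hom deg₂ []
    | cons i l ih =>
      rw [mon_cons, map_mul, degSum_cons]
      exact mul_mem_hom _ (hF i) ih
  refine hom_induction _ (C := fun a => F a ∈ hom deg₂ n) (fun l hl => ?_) ?_
    (fun a b ha hb => by rw [map_add]; exact add_mem ha hb)
    (fun r a ha => by rw [map_smul]; exact Submodule.smul_mem _ _ ha) ha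
  · rw [← hl]; exact key l
  · rw [map_zero]; exact zero_mem _

private theorem pu_sgn {F : Lam deg₁ →ₐ[ℚ] Lam deg₂}
    (hF : ∀ i, F (gen deg₁ i) ∈ hom deg₂ (deg₁ i)) (a : Lam deg₁) :
    F (sgn deg₁ a) = sgn deg₂ (F a) := by
  have : F.comp (sgn deg₁) = (sgn deg₂).comp F := by
    refine Lam.algHom_ext _ fun i => ?_
    rw [AlgHom.comp_apply, AlgHom.comp_apply, sgn_gen, map_smul, sgn_hom deg₂ (hF i)]
  exact congrArg (fun g : Lam deg₁ →ₐ[ℚ] Lam deg₂ => g a) this

private theorem pu_FW_ind {k : ℕ} {C : Lam deg₁ → Prop}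
    (hm : ∀ l : List ι₁, k ≤ l.length → C (mon deg₁ l)) (h0 : C 0)
    (hadd : ∀ a b, C a → C b → C (a + b)) (hsmul : ∀ (r : ℚ) a, C a → C (r • a))
    {a : Lam deg₁} (ha : a ∈ FW deg₁ (fun _ => 1) k) : C a := by
  unfold FW at ha
  induction ha using Submodule.span_induction with
  | mem x hx =>
    obtain ⟨l, hl, rfl⟩ := hx
    exact hm l (by simpa [degSum] using hl)
  | zero => exact h0
  | add y z _ _ hy hz => exact hadd _ _ hy hz
  | smul r y _ hy => exact hsmul _ _ hy

private theorem pu_hom_FW {m : ℕ} (hm : 1 ≤ m) {a : Lam deg₁} (ha : a ∈ hom deg₁ m) :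
    a ∈ FW deg₁ (fun _ => 1) 1 := by
  refine hom_induction deg₁ (C := fun a => a ∈ FW deg₁ (fun _ => 1) 1) (fun l hl => ?_)
    (zero_mem _) (fun a b ha hb => add_mem ha hb)
    (fun r a ha => Submodule.smul_mem _ _ ha) ha
  refine Submodule.subset_span ⟨l, ?_, rfl⟩
  cases l with
  | nil => simp at hl; omega
  | cons i l => simp

private theorem pu_FW {F : Lam deg₁ →ₐ[ℚ] Lam deg₂} (h1 : ∀ i, 1 ≤ deg₁ i)
    (hF : ∀ i, F (gen deg₁ i) ∈ hom deg₂ (deg₁ i)) {k : ℕ} {a : Lam deg₁}
    (ha : a ∈ FW deg₁ (fun _ => 1) k) : F a ∈ FW deg₂ (fun _ => 1) k := by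
  have key : ∀ l : List ι₁, F (mon deg₁ l) ∈ FW deg₂ (fun _ => 1) l.length := by
    intro l
    induction l with
    | nil => rw [List.length_nil, FW_zero]; trivial
    | cons i l ih =>
      rw [mon_cons, map_mul, List.length_cons, add_comm]
      exact FW_mul (pu_hom_FW (h1 i) (hF i)) ih
  refine pu_FW_ind (C := fun a => F a ∈ FW deg₂ (fun _ => 1) k) (fun l hl => ?_) ?_
    (fun a b ha hb => by rw [map_add]; exact add_mem ha hb)
    (fun r a ha => by rw [map_smul]; exact Submodule.smul_mem _ _ ha) ha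
  · exact FW_anti hl (key l)
  · rw [map_zero]; exact zero_mem _

private theorem pu_comm {F : Lam deg₁ →ₐ[ℚ] Lam deg₂}
    (hF : ∀ i, F (gen deg₁ i) ∈ hom deg₂ (deg₁ i))
    {d₁ : Lam deg₁ →ₗ[ℚ] Lam deg₁} {d₂ : Lam deg₂ →ₗ[ℚ] Lam deg₂}
    (h1 : d₁ 1 = 0) (h2 : d₂ 1 = 0)
    (m1 : ∀ a b, d₁ (a * b) = d₁ a * b + sgn deg₁ a * d₁ b)
    (m2 : ∀ a b, d₂ (a * b) = d₂ a * b + sgn deg₂ a * d₂ b)
    (hg : ∀ i, d₂ (F (gen deg₁ i)) = F (d₁ (gen deg₁ i))) (a : Lam deg₁) :
    d₂ (F a) = F (d₁ a) := by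
  have : d₂.comp F.toLinearMap = F.toLinearMap.comp d₁ := by
    refine Lam.linearMap_ext _ fun l => ?_
    rw [LinearMap.comp_apply, LinearMap.comp_apply, AlgHom.toLinearMap_apply,
      AlgHom.toLinearMap_apply]
    induction l with
    | nil => rw [mon_nil, map_one, h1, h2, map_zero]
    | cons i l ih =>
      rw [mon_cons, map_mul, m1, m2, ih, hg, map_add, map_mul, map_mul, pu_sgn hF]
  exact congrArg (fun g : Lam deg₁ →ₗ[ℚ] Lam deg₂ => g a) this

end

private theorem pu_iL_gen {ι κ : Type} {deg : ι → ℕ} {deg' : κ → ℕ} (i : ι) :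
    iL deg deg' (gen deg i) = gen (Sum.elim deg deg') (Sum.inl i) := by
  unfold iL
  exact mapL_gen (deg := Sum.elim deg deg') (fun _ => rfl) i

private theorem pu_iL_hom {ι κ : Type} {deg : ι → ℕ} {deg' : κ → ℕ} {n : ℕ} {a : Lam deg}
    (ha : a ∈ hom deg n) : iL deg deg' a ∈ hom (Sum.elim deg deg') n := by
  unfold iL
  exact mapL_hom (deg := Sum.elim deg deg') (fun _ => rfl) ha

private theorem pu_ext {ι κ : Type} {deg : ι → ℕ} {deg' : κ → ℕ} {S : MinimalSullivan deg}
    {S' : MinimalSullivan (Sum.elim deg deg')} (h : S.IsExt S') (a : Lam deg) :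
    S'.d (iL deg deg' a) = iL deg deg' (S.d a) := by
  obtain ⟨J, hJ, hd⟩ := h
  have : J = iL deg deg' := by
    refine Lam.algHom_ext _ fun i => ?_
    rw [hJ, pu_iL_gen]
  rw [← this]
  exact hd a

theorem exists_push {ι κ τ : Type} {deg : ι → ℕ} {degT : κ → ℕ} {deg' : τ → ℕ}
    (S : MinimalSullivan deg) (T : MinimalSullivan degT) {J : Lam degT →ₐ[ℚ] Lam deg}
    (hJ1 : ∀ n, ∀ a ∈ hom degT n, J a ∈ hom deg n) (hJ2 : ∀ a, S.d (J a) = J (T.d a))
    (T' : MinimalSullivan (Sum.elim degT deg')) (hT : T.IsExt T') :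
    ∃ (S' : MinimalSullivan (Sum.elim deg deg'))
      (F : Lam (Sum.elim degT deg') →ₐ[ℚ] Lam (Sum.elim deg deg')),
      S.IsExt S' ∧ (∀ a, F (iL degT deg' a) = iL deg deg' (J a)) ∧
      (∀ j, F (gen _ (Sum.inr j)) = gen _ (Sum.inr j)) ∧
      (∀ n, ∀ a ∈ hom (Sum.elim degT deg') n, F a ∈ hom (Sum.elim deg deg') n) ∧
      ∀ a, S'.d (F a) = F (T'.d a) := by
  -- the homomorphism `F`
  let f : κ ⊕ τ → Lam (Sum.elim deg deg') := Sum.elim (fun k => iL deg deg' (J (gen degT k)))
    (fun j => gen (Sum.elim deg deg') (Sum.inr j))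
  have hf : ∀ i, f i ∈ hom (Sum.elim deg deg') (Sum.elim degT deg' i) := by
    rintro (k | j)
    · exact pu_iL_hom (hJ1 _ _ (gen_mem_hom degT k))
    · exact gen_mem_hom (Sum.elim deg deg') (Sum.inr j)
  let F : Lam (Sum.elim degT deg') →ₐ[ℚ] Lam (Sum.elim deg deg') :=
    Lam.lift (Sum.elim degT deg') f (fun i j => hom_comm _ (hf i) (hf j))
  have hFg : ∀ i, F (gen _ i) = f i := fun i => Lam.lift_gen _ _ _ i
  have hF : ∀ i, F (gen _ i) ∈ hom (Sum.elim deg deg') (Sum.elim degT deg' i) := fun i => by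
    rw [hFg]; exact hf i
  have hFJ : ∀ a, F (iL degT deg' a) = iL deg deg' (J a) := by
    have : F.comp (iL degT deg') = (iL deg deg').comp J := by
      refine Lam.algHom_ext _ fun i => ?_
      rw [AlgHom.comp_apply, AlgHom.comp_apply, pu_iL_gen, hFg]
      rfl
    exact fun a => congrArg (fun g : Lam degT →ₐ[ℚ] Lam (Sum.elim deg deg') => g a) this
  -- the differential
  let v : ι ⊕ τ → Lam (Sum.elim deg deg') := Sum.elim (fun i => iL deg deg' (S.d (gen deg i)))
    (fun j => F (T'.d (gen _ (Sum.inr j))))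
  have hv : ∀ i, v i ∈ hom (Sum.elim deg deg') (Sum.elim deg deg' i + 1) := by
    rintro (i | j)
    · exact pu_iL_hom (S.isDifferential.map_hom _ _ (gen_mem_hom deg i))
    · exact pu_gr hF _ _ (T'.isDifferential.map_hom _ _ (gen_mem_hom _ (Sum.inr j)))
  let D : Lam (Sum.elim deg deg') →ₗ[ℚ] Lam (Sum.elim deg deg') := der _ v hv
  have hDg : ∀ i, D (gen _ i) = v i := fun i => der_gen _ v hv i
  have hD1 : D 1 = 0 := der_one _ v hv
  have hDm : ∀ a b, D (a * b) = D a * b + sgn _ a * D b := fun a b => der_mul _ v hv a b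
  have hiLg : ∀ i, iL deg deg' (gen deg i) ∈ hom (Sum.elim deg deg') (deg i) := fun i =>
    pu_iL_hom (gen_mem_hom deg i)
  have hDi : ∀ a, D (iL deg deg' a) = iL deg deg' (S.d a) := fun a =>
    pu_comm hiLg (d_one S.isDifferential) hD1 (d_mul S.isDifferential) hDm
      (fun i => by rw [pu_iL_gen, hDg]; rfl) a
  have hDF : ∀ a, D (F a) = F (T'.d a) := fun a =>
    pu_comm hF (d_one T'.isDifferential) hD1 (d_mul T'.isDifferential) hDm (by
      rintro (k | j)
      · rw [hFg]
        change D (iL deg deg' (J (gen degT k))) = _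
        rw [hDi, hJ2, ← hFJ, ← pu_ext hT, pu_iL_gen]
      · rw [hFg]
        change D (gen _ (Sum.inr j)) = _
        rw [hDg]
        rfl) a
  have hDD : ∀ i, D (v i) = 0 := by
    rintro (i | j)
    · change D (iL deg deg' (S.d (gen deg i))) = 0
      rw [hDi, S.isDifferential.d_d, map_zero]
    · change D (F (T'.d (gen _ (Sum.inr j)))) = 0
      rw [hDF, T'.isDifferential.d_d, map_zero]
  have hdiff : IsDifferential (hom (Sum.elim deg deg')) D :=
    ⟨fun n a ha => der_mem _ v hv ha, fun n a ha b => der_leibniz _ v hv ha b,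
      fun a => der_sq _ v hv hDD a⟩
  have h2 : ∀ i, 2 ≤ Sum.elim deg deg' i := by
    rintro (i | j)
    · exact S.two_le i
    · exact T'.two_le (Sum.inr j)
  have hraise : ∀ i, D (gen _ i) ∈ FW (Sum.elim deg deg') (fun _ => 1) 2 := by
    intro i
    rw [hDg]
    rcases i with i | j
    · exact pu_FW (F := iL deg deg') (fun i => one_le_two.trans (S.two_le i)) hiLg
        ((dat_of_minimal S).raise i)
    · exact pu_FW (fun i => one_le_two.trans (T'.two_le i)) hF
        ((dat_of_minimal T').raise (Sum.inr j))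
  obtain ⟨S', hS'⟩ := exists_minimal (dat_of_raise h2 hdiff hraise)
  refine ⟨S', F, ⟨iL deg deg', fun i => pu_iL_gen i, fun a => ?_⟩, hFJ, fun j => hFg (Sum.inr j),
    fun n a ha => pu_gr hF n a ha, fun a => ?_⟩
  · rw [hS', hDi]
  · rw [hS', hDF]

end Anick2
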