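import Pool.Agent.Helper98.RD.NilCl
import Pool.Agent.Helper98.RD.NilJJ
import Pool.Agent.Helper98.RD.Push

/-!
RD-12. Permanence: if `J : (ΛX, d) → (ΛW, d)` has surjective even linear part and `(ΛX, d)` has an elliptic
extension by generators of degree `≥ n`, then so has `(ΛW, d)`.

Proof. `T'` elliptic extension of `T`, `S'`, `F` from `exists_push`. `CohFin S'.d` by `coh_finite` (`AN/KFin.lean`;
`CohomologyFinite` and `CohFin` are the same, see `Final2.lean`): every even generator is nilpotent modulo `JJ' = JJ _ S'.d`.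
First, every even generator of `T'` is nilpotent modulo `JJ _ T'.d` (`nil_JJ`, `nil_class`; the index type `κ ⊕ Fin m` is
finite). `F (JJ _ T'.d) ⊆ JJ'`: `F` of an odd generator is odd (`odd_mem_JJ`), `F (T'.d a) = S'.d (F a)` (`d_mem_JJ`), and `JJ'` is an ideal
(`JJ_left`, `JJ_right`). So `F (gen k)` is nilpotent modulo `JJ'` for every generator `k` (odd ones are in `JJ'`).
`inr j`: `F (gen (inr j)) = gen (inr j)`. `inl i`, `deg i` even: strong induction on `deg i`. `J a = gen i + c`, `a ∈ hom degT (deg i)`,
`c ∈ decomp`; we may take `c ∈ hom deg (deg i)`, so `c` is (by projection `pr`) a combination of monomials of length `≥ 2` and degree `deg i`: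
their letters have degrees `< deg i` (all degrees are `≥ 2`). `iL (J a) = F (iL a)`, `a` homogeneous of positive degree: a polynomial in the
generators of `T` without constant term, so `F (iL a)` is nilpotent modulo `JJ'`; `iL c` likewise by induction; all even
elements commute, odd ones are in `JJ'`; so `gen (inl i) = F (iL a) - iL c` is nilpotent modulo `JJ'` (sum of commuting
nilpotents; see RD-10). A useful lemma: the even elements of `Lam` nilpotent modulo `JJ'` are closed under sums and under
products with even elements; a monomial with a nilpotent (mod `JJ'`) letter or an odd letter is nilpotent (mod `JJ'`).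
-/

set_option autoImplicit false

namespace Anick2

attribute [local irreducible] instRingLam

/-- `x` is, modulo `JJ`, an even element which is nilpotent modulo `JJ`. -/
private def NQ {ι : Type} (deg : ι → ℕ) (d : Lam deg →ₗ[ℚ] Lam deg) (x : Lam deg) : Prop :=
  ∃ e, sgn deg e = e ∧ (∃ K, e ^ K ∈ JJ deg d) ∧ x - e ∈ JJ deg d

section NQ
variable {ι : Type} {deg : ι → ℕ} {d : Lam deg →ₗ[ℚ] Lam deg}

private theorem NQ.of_mem {x : Lam deg} (h : x ∈ JJ deg d) : NQ deg d x :=
  ⟨0, map_zero _, ⟨1, by rw [pow_one]; exact zero_mem _⟩, by rw [sub_zero]; exact h⟩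

private theorem NQ.of_even {x : Lam deg} (hx : sgn deg x = x) {K : ℕ} (h : x ^ K ∈ JJ deg d) :
    NQ deg d x :=
  ⟨x, hx, ⟨K, h⟩, by rw [sub_self]; exact zero_mem _⟩

private theorem NQ.pow {x : Lam deg} (h : NQ deg d x) : ∃ K, x ^ K ∈ JJ deg d := by
  obtain ⟨e, he, ⟨K, hK⟩, hxe⟩ := h
  refine ⟨K, ?_⟩
  have key : ∀ k : ℕ, x ^ k - e ^ k ∈ JJ deg d := by
    intro k
    induction k with
    | zero => rw [pow_zero, pow_zero, sub_self]; exact zero_mem _
    | succ k ih =>
      have h1 : x ^ (k + 1) - e ^ (k + 1) = x ^ k * (x - e) + (x ^ k - e ^ k) * e := by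
        rw [pow_succ, pow_succ, mul_sub, sub_mul]
        abel
      rw [h1]
      exact add_mem (JJ_left hxe _) (JJ_right ih _)
  have h2 := add_mem (key K) hK
  rwa [sub_add_cancel] at h2

private theorem NQ.add {x y : Lam deg} (hx : NQ deg d x) (hy : NQ deg d y) : NQ deg d (x + y) := by
  obtain ⟨e, he, ⟨K, hK⟩, hxe⟩ := hx
  obtain ⟨f, hf, ⟨L, hL⟩, hyf⟩ := hy
  refine ⟨e + f, by rw [map_add, he, hf], ⟨K + L, ?_⟩, ?_⟩
  · have hc : Commute e f := even_comm he f
    rw [hc.add_pow]
    refine Submodule.sum_mem _ fun m _ => ?_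
    refine JJ_right ?_ _
    by_cases h : K ≤ m
    · obtain ⟨r, rfl⟩ := Nat.exists_eq_add_of_le h
      rw [pow_add]
      exact JJ_right (JJ_right hK _) _
    · obtain ⟨r, hr⟩ := Nat.exists_eq_add_of_le (show L ≤ K + L - m by omega)
      rw [hr, pow_add]
      exact JJ_left (JJ_right hL _) _
  · rw [add_sub_add_comm]
    exact add_mem hxe hyf

private theorem NQ.smul {x : Lam deg} (hx : NQ deg d x) (r : ℚ) : NQ deg d (r • x) := by
  obtain ⟨e, he, ⟨K, hK⟩, hxe⟩ := hx
  refine ⟨r • e, by rw [map_smul, he], ⟨K, ?_⟩, ?_⟩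
  · rw [smul_pow]
    exact Submodule.smul_mem _ _ hK
  · rw [← smul_sub]
    exact Submodule.smul_mem _ _ hxe

private theorem sgn_half (b : Lam deg) : ∃ b0 b1 : Lam deg, b = b0 + b1 ∧ sgn deg b0 = b0 ∧
    sgn deg b1 = -b1 := by
  refine ⟨(2 : ℚ)⁻¹ • (b + sgn deg b), (2 : ℚ)⁻¹ • (b - sgn deg b), ?_, ?_, ?_⟩
  · rw [← smul_add, add_add_sub_cancel, ← two_smul ℚ b, smul_smul,
      inv_mul_cancel₀ (by norm_num), one_smul]
  · rw [map_smul, map_add, sgn_sgn, add_comm]
  · rw [map_smul, map_sub, sgn_sgn, ← smul_neg, neg_sub]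

private theorem NQ.mul_right {x : Lam deg} (hx : NQ deg d x) (b : Lam deg) : NQ deg d (x * b) := by
  obtain ⟨e, he, ⟨K, hK⟩, hxe⟩ := hx
  obtain ⟨b0, b1, rfl, h0, h1⟩ := sgn_half b
  refine ⟨e * b0, by rw [map_mul, he, h0], ⟨K, ?_⟩, ?_⟩
  · have hc : Commute e b0 := even_comm he b0
    rw [hc.mul_pow]
    exact JJ_right hK _
  · have h2 : x * (b0 + b1) - e * b0 = (x - e) * b0 + x * b1 := by
      rw [mul_add, sub_mul]
      abel
    rw [h2]
    exact add_mem (JJ_right hxe _) (JJ_left (odd_mem_JJ h1) _)

private theorem NQ.neg {x : Lam deg} (hx : NQ deg d x) : NQ deg d (-x) := by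
  have h := hx.smul (-1)
  rwa [neg_one_smul] at h

end NQ

theorem perm {ι κ : Type} [Finite ι] [Finite κ] {deg : ι → ℕ} {degT : κ → ℕ}
    (S : MinimalSullivan deg) (T : MinimalSullivan degT) {J : Lam degT →ₐ[ℚ] Lam deg}
    (hJ : EvenOnto S T J) (n : ℕ) (h : T.GoodAt n) : S.GoodAt n := by
  obtain ⟨m, deg', T', hdeg', hext, hcoh⟩ := h
  obtain ⟨S', F, hS', hFL, hFR, hFh, hFd⟩ := exists_push S T hJ.map_hom hJ.map_d T' hext
  refine ⟨m, deg', S', hdeg', hS', ?_⟩
  -- `F` maps `JJ` into `JJ'`
  have hFsgn : ∀ k : ℕ, ∀ a ∈ hom (Sum.elim degT deg') k, sgn (Sum.elim deg deg') (F a) = (-1 : ℚ) ^ k • F a := fun k a ha =>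
    sgn_hom (Sum.elim deg deg') (hFh k a ha)
  have hFJJ : ∀ a ∈ JJ (Sum.elim degT deg') T'.d, F a ∈ JJ (Sum.elim deg deg') S'.d := by
    intro a ha
    unfold JJ idealSpan at ha
    induction ha using Submodule.span_induction with
    | mem x hx =>
      obtain ⟨p, v, q, hv, rfl⟩ := hx
      rw [map_mul, map_mul]
      refine JJ_right (JJ_left ?_ _) _
      rcases hv with ⟨i, hi, rfl⟩ | ⟨a, rfl⟩
      · refine odd_mem_JJ ?_
        rw [hFsgn _ _ (gen_mem_hom (Sum.elim degT deg') i), hi.neg_one_pow, neg_one_smul]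
      · rw [← hFd]
        exact d_mem_JJ _
    | zero => rw [map_zero]; exact zero_mem _
    | add x y _ _ hx hy => rw [map_add]; exact add_mem hx hy
    | smul r x _ hx => rw [map_smul]; exact Submodule.smul_mem _ _ hx
  have hnil := nil_JJ T' (fun i hi => nil_class T' hcoh hi)
  have hFgen : ∀ k, NQ (Sum.elim deg deg') S'.d (F (gen (Sum.elim degT deg') k)) := by
    intro k
    rcases Nat.even_or_odd ((Sum.elim degT deg') k) with hk | hk
    · obtain ⟨M, hM⟩ := hnil k hk
      refine NQ.of_even (K := M) ?_ ?_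
      · rw [hFsgn _ _ (gen_mem_hom (Sum.elim degT deg') k), hk.neg_one_pow, one_smul]
      · rw [← map_pow]
        exact hFJJ _ hM
    · refine NQ.of_mem (odd_mem_JJ ?_)
      rw [hFsgn _ _ (gen_mem_hom (Sum.elim degT deg') k), hk.neg_one_pow, neg_one_smul]
  have hodd : ∀ k, Odd ((Sum.elim deg deg') k) → NQ (Sum.elim deg deg') S'.d (gen (Sum.elim deg deg') k) := fun k hk =>
    NQ.of_mem (odd_mem_JJ (sgn_gen_odd hk))
  have hinl : ∀ N : ℕ, ∀ i, deg i = N → NQ (Sum.elim deg deg') S'.d (gen (Sum.elim deg deg') (Sum.inl i)) := by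
    intro N
    induction N using Nat.strong_induction_on with
    | _ N ih =>
      intro i hi
      rcases Nat.even_or_odd (deg i) with hie | hio
      swap
      · exact hodd (Sum.inl i) hio
      obtain ⟨a, ha, hc⟩ := hJ.onto i hie
      have h2 := S.two_le i
      have hiLg : ∀ j, iL deg deg' (gen deg j) = gen (Sum.elim deg deg') (Sum.inl j) := fun j =>
        mapL_gen (deg := (Sum.elim deg deg')) (deg' := deg) (f := Sum.inl) (fun _ => rfl) j
      have hiTg : ∀ j, iL degT deg' (gen degT j) = gen (Sum.elim degT deg') (Sum.inl j) := fun j =>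
        mapL_gen (deg := (Sum.elim degT deg')) (deg' := degT) (f := Sum.inl) (fun _ => rfl) j
      -- the decomposable part
      have h3 : NQ (Sum.elim deg deg') S'.d (iL deg deg' (J a - gen deg i)) := by
        have h4 : pr deg (deg i) (J a - gen deg i) = J a - gen deg i := by
          rw [pr_hom deg (sub_mem (hJ.map_hom _ a ha) (gen_mem_hom deg i)), if_pos rfl]
        rw [← h4]
        unfold decomp at hc
        clear h4
        generalize J a - gen deg i = c at hc
        induction hc using Submodule.span_induction with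
        | mem x hx =>
          obtain ⟨l, hl, rfl⟩ := hx
          rw [pr_hom deg (mon_mem_hom deg l)]
          split
          · rename_i hs
            match l, hl, hs with
            | [], hl, _ => simp at hl
            | [_], hl, _ => simp at hl
            | x :: y :: l, _, hs =>
              rw [mon_cons, map_mul, hiLg]
              refine NQ.mul_right (ih (deg x) ?_ x rfl) _
              have := S.two_le y
              simp only [degSum_cons] at hs
              omega
          · rw [map_zero]
            exact NQ.of_mem (zero_mem _)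
        | zero => rw [map_zero, map_zero]; exact NQ.of_mem (zero_mem _)
        | add x y _ _ hx hy => rw [map_add, map_add]; exact hx.add hy
        | smul r x _ hx => rw [map_smul, map_smul]; exact hx.smul r
      have h5 : NQ (Sum.elim deg deg') S'.d (F (iL degT deg' a)) := by
        refine hom_induction degT (C := fun a => NQ (Sum.elim deg deg') S'.d (F (iL degT deg' a)))
          (fun l hl => ?_) ?_ (fun x y hx hy => ?_) (fun r x hx => ?_) ha
        · match l, hl with
          | [], hl => simp at hl; omega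
          | x :: l, _ =>
            rw [mon_cons, map_mul, map_mul, hiTg]
            exact NQ.mul_right (hFgen _) _
        · rw [map_zero, map_zero]
          exact NQ.of_mem (zero_mem _)
        · rw [map_add, map_add]
          exact NQ.add hx hy
        · rw [map_smul, map_smul]
          exact NQ.smul hx r
      have h6 : gen (Sum.elim deg deg') (Sum.inl i) = F (iL degT deg' a) + -iL deg deg' (J a - gen deg i) := by
        rw [hFL, map_sub, hiLg]
        abel
      rw [h6]
      exact h5.add h3.neg
  have hgen : ∀ k, NQ (Sum.elim deg deg') S'.d (gen (Sum.elim deg deg') k) := by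
    rintro (i | j)
    · exact hinl _ i rfl
    · rw [← hFR j]
      exact hFgen _
  exact coh_finite S' (fun k _ => (hgen k).pow)

end Anick2
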