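import Pool.Agent.Helper98.RD.Core

/-!
RD-05. Finite homogeneous bases of the truncations of the subalgebra generated by a finite set `T` of
generators of degree `≥ 1`.
-/

set_option autoImplicit false

namespace Anick2

private theorem basis_gen {A : Type} [Ring A] [Algebra ℚ A] (H : ℕ → Submodule ℚ A)
    (pr : ℕ → A →ₗ[ℚ] A) (hpr : ∀ n m : ℕ, ∀ a ∈ H n, pr m a = if n = m then a else 0)
    (hfg : ∀ p, (H p).FG) (m : ℕ) :
    ∃ (B : Type) (_ : Fintype B) (pd : B → ℕ) (ω : B → A),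
      (∀ a, pd a ≤ m) ∧ (∀ a, ω a ∈ H (pd a)) ∧ LinearIndependent ℚ ω ∧
      ∀ p ≤ m, H p ≤ Submodule.span ℚ {x | ∃ a, pd a = p ∧ x = ω a} := by
  classical
  have hfg' : ∀ p, Module.Finite ℚ (H p) := fun p => Module.Finite.iff_fg.mpr (hfg p)
  let bs : ∀ p : ℕ, Module.Basis (Fin (Module.finrank ℚ (H p))) ℚ (H p) :=
    fun p => by haveI := hfg' p; exact Module.finBasis ℚ (H p)
  let B : Type := Σ p : Fin (m + 1), Fin (Module.finrank ℚ (H (p : ℕ)))
  let ω : B → A := fun a => ((bs (a.1 : ℕ) a.2 : H (a.1 : ℕ)) : A)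
  have hmem : ∀ a : B, ω a ∈ H (a.1 : ℕ) := fun a => (bs (a.1 : ℕ) a.2).2
  refine ⟨B, inferInstance, fun a => (a.1 : ℕ), ω, fun a => Nat.lt_succ_iff.mp a.1.2, hmem, ?_, ?_⟩
  · rw [Fintype.linearIndependent_iff]
    rintro g hg ⟨p, i⟩
    have h := congrArg (pr (p : ℕ)) hg
    rw [map_sum, map_zero, Fintype.sum_sigma] at h
    rw [Finset.sum_eq_single p] at h
    · have h2 : ∑ i, g ⟨p, i⟩ • bs (p : ℕ) i = 0 := by
        apply Subtype.ext
        rw [AddSubmonoidClass.coe_finsetSum]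
        refine Eq.trans ?_ h
        refine Finset.sum_congr rfl fun i _ => ?_
        rw [map_smul, hpr _ _ _ (hmem ⟨p, i⟩), if_pos rfl]
        rfl
      exact Fintype.linearIndependent_iff.mp (bs (p : ℕ)).linearIndependent _ h2 i
    · intro q _ hq
      refine Finset.sum_eq_zero fun i _ => ?_
      rw [map_smul, hpr _ _ _ (hmem ⟨q, i⟩), if_neg, smul_zero]
      intro h'
      exact hq (Fin.ext h')
    · intro h'
      exact absurd (Finset.mem_univ p) h'
  · intro p hp x hx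
    have h3 := congrArg Subtype.val ((bs p).sum_repr ⟨x, hx⟩)
    rw [AddSubmonoidClass.coe_finsetSum] at h3
    have h4 : x = ∑ i, (((bs p).repr ⟨x, hx⟩ i • bs p i : H p) : A) := h3.symm
    rw [h4]
    refine Submodule.sum_mem _ fun i _ => ?_
    rw [Submodule.coe_smul]
    refine Submodule.smul_mem _ _ (Submodule.subset_span ?_)
    exact ⟨⟨⟨p, Nat.lt_succ_iff.mpr hp⟩, i⟩, rfl, rfl⟩

theorem exists_basisS {κ : Type} (deg' : κ → ℕ) (h1 : ∀ i, 1 ≤ deg' i) (T : Set κ) (hT : T.Finite)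
    (m : ℕ) :
    ∃ (B : Type) (_ : Fintype B) (pd : B → ℕ) (ω : B → Lam deg'),
      (∀ a, pd a ≤ m) ∧ (∀ a, ω a ∈ homS deg' T (pd a)) ∧ LinearIndependent ℚ ω ∧
      ∀ p ≤ m, homS deg' T p ≤ Submodule.span ℚ {x | ∃ a, pd a = p ∧ x = ω a} :=
  basis_gen (homS deg' T) (pr deg') (fun _ _ _ ha => pr_hom deg' (homS_le deg' T _ ha))
    (fun p => homS_fg deg' hT h1 p) m

end Anick2
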