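import Pool.Agent.Helper98.RD.Core

/-!
RD-04. `Λ(W ⊕ V) = ΛW ⊗ ΛV` as vector spaces, and the consequence: elements `iR ω_b` with `ω` linearly independent
are linearly independent over `ΛW`.

Proof. `Φ : Lam (Sum.elim deg deg') →ₐ Module.End ℚ (Lam deg ⊗ Lam deg')` by `Lam.lift`: `inl i` acts as
`(left multiplication by gen i) ⊗ id` (`TensorProduct.map (LinearMap.mulLeft ..) id`), `inr k` as
`(sgn deg)^(deg' k) ⊗ (left multiplication by gen k)` (for `deg' k` odd `sgn deg`, for `deg' k` even the identity). Relations: clear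
(`sgn (gen i * a) = (-1)^(deg i) • gen i * sgn a`, `gen_comm`, `sgn (sgn a) = a`). By induction on monomials
`Φ (iL a) (x ⊗ y) = (a * x) ⊗ y` and `Φ (iR b) (1 ⊗ y) = 1 ⊗ (b * y)` (`sgn 1 = 1`). Put `ε0 e = Φ e (1 ⊗ 1)`: `ε0 (iL a * iR b) = a ⊗ b`.
The map `μ : a ⊗ b ↦ iL a * iR b` (`TensorProduct.lift`) satisfies `ε0 ∘ μ = id`; `μ` is surjective: the range contains `1` and is
stable under left multiplication by `gen (inl i)` (clear) and by `gen (inr k)` (`gen (inr k) * iL a = iL (sgn^(deg' k) a) * gen (inr k)`,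
by induction on monomials of `a`). So `μ` is bijective, `ε = μ⁻¹`.
`iLR_indep`: apply `ε`: `∑ x_b ⊗ ω_b = 0` with `ω` linearly independent over the field `ℚ` gives `x = 0`
(e.g. choose dual functionals: `LinearIndependent` gives `f_b : Lam deg' →ₗ ℚ` with `f_b (ω_c) = δ`, via
`LinearIndependent.extend`/`Module.Basis`, apply `TensorProduct.lift`/`LinearMap.lTensor _ f_b` and `TensorProduct.rid`).
-/

set_option autoImplicit false

open TensorProduct

namespace Anick2

attribute [local irreducible] instRingLam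

section aux

variable {ι κ : Type} (deg : ι → ℕ) (deg' : κ → ℕ)

private noncomputable def sg (k : ℕ) : Lam deg →ₗ[ℚ] Lam deg := (sgn deg).toLinearMap ^ k

private theorem sg_one (k : ℕ) : sg deg k 1 = 1 := by
  unfold sg
  induction k with
  | zero => rfl
  | succ k ih =>
    rw [pow_succ', Module.End.mul_apply, ih]
    exact map_one (sgn deg)

private theorem sg_gen_mul (k : ℕ) (i : ι) (a : Lam deg) :
    sg deg k (gen deg i * a) = (-1 : ℚ) ^ (deg i * k) • (gen deg i * sg deg k a) := by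
  unfold sg
  induction k with
  | zero =>
    rw [pow_zero, Nat.mul_zero, pow_zero, one_smul]
    rfl
  | succ k ih =>
    rw [pow_succ', Module.End.mul_apply, ih, map_smul, AlgHom.toLinearMap_apply, map_mul, sgn_gen,
      Module.End.mul_apply, AlgHom.toLinearMap_apply, smul_mul_assoc, smul_smul, ← pow_add]
    congr 2

private theorem sg_comm (k l : ℕ) : sg deg k * sg deg l = sg deg l * sg deg k := by
  unfold sg
  rw [← pow_add, ← pow_add, Nat.add_comm]

private noncomputable def opL (i : ι) : Module.End ℚ (Lam deg ⊗[ℚ] Lam deg') :=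
  TensorProduct.map (LinearMap.mulLeft ℚ (gen deg i)) LinearMap.id

private noncomputable def opR (k : κ) : Module.End ℚ (Lam deg ⊗[ℚ] Lam deg') :=
  TensorProduct.map (sg deg (deg' k)) (LinearMap.mulLeft ℚ (gen deg' k))

private theorem opL_tmul (i : ι) (x : Lam deg) (y : Lam deg') :
    opL deg deg' i (x ⊗ₜ[ℚ] y) = (gen deg i * x) ⊗ₜ[ℚ] y := by
  unfold opL
  rw [TensorProduct.map_tmul]
  rfl

private theorem opR_tmul (k : κ) (x : Lam deg) (y : Lam deg') :
    opR deg deg' k (x ⊗ₜ[ℚ] y) = (sg deg (deg' k) x) ⊗ₜ[ℚ] (gen deg' k * y) := by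
  unfold opR
  rw [TensorProduct.map_tmul]
  rfl

private noncomputable def opF : ι ⊕ κ → Module.End ℚ (Lam deg ⊗[ℚ] Lam deg') :=
  Sum.elim (opL deg deg') (opR deg deg')

private theorem opF_rel (p q : ι ⊕ κ) :
    opF deg deg' p * opF deg deg' q =
      (-1 : ℚ) ^ (Sum.elim deg deg' p * Sum.elim deg deg' q) • (opF deg deg' q * opF deg deg' p) := by
  refine TensorProduct.ext' fun x y => ?_
  rw [Module.End.mul_apply, LinearMap.smul_apply, Module.End.mul_apply]
  rcases p with i | k <;> rcases q with j | l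
  · show opL deg deg' i (opL deg deg' j (x ⊗ₜ[ℚ] y)) =
      (-1 : ℚ) ^ (deg i * deg j) • opL deg deg' j (opL deg deg' i (x ⊗ₜ[ℚ] y))
    rw [opL_tmul, opL_tmul, opL_tmul, opL_tmul, ← mul_assoc, ← mul_assoc, gen_comm,
      smul_mul_assoc, TensorProduct.smul_tmul']
  · show opL deg deg' i (opR deg deg' l (x ⊗ₜ[ℚ] y)) =
      (-1 : ℚ) ^ (deg i * deg' l) • opR deg deg' l (opL deg deg' i (x ⊗ₜ[ℚ] y))
    rw [opL_tmul, opR_tmul, opR_tmul, opL_tmul, sg_gen_mul, TensorProduct.smul_tmul', smul_smul,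
      ← pow_add, ← two_mul, pow_mul, neg_one_sq, one_pow, one_smul]
  · show opR deg deg' k (opL deg deg' j (x ⊗ₜ[ℚ] y)) =
      (-1 : ℚ) ^ (deg' k * deg j) • opL deg deg' j (opR deg deg' k (x ⊗ₜ[ℚ] y))
    rw [opL_tmul, opR_tmul, opR_tmul, opL_tmul, sg_gen_mul, TensorProduct.smul_tmul', mul_comm (deg j)]
  · show opR deg deg' k (opR deg deg' l (x ⊗ₜ[ℚ] y)) =
      (-1 : ℚ) ^ (deg' k * deg' l) • opR deg deg' l (opR deg deg' k (x ⊗ₜ[ℚ] y))
    rw [opR_tmul, opR_tmul, opR_tmul, opR_tmul, ← mul_assoc, ← mul_assoc, gen_comm deg' k l,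
      smul_mul_assoc, TensorProduct.tmul_smul]
    have h : sg deg (deg' k) (sg deg (deg' l) x) = sg deg (deg' l) (sg deg (deg' k) x) :=
      congrArg (fun g : Module.End ℚ (Lam deg) => g x) (sg_comm deg (deg' k) (deg' l))
    rw [h]

private noncomputable def Ph :
    Lam (Sum.elim deg deg') →ₐ[ℚ] Module.End ℚ (Lam deg ⊗[ℚ] Lam deg') :=
  Lam.lift _ (opF deg deg') (opF_rel deg deg')

private theorem Ph_inl (i : ι) :
    Ph deg deg' (gen (Sum.elim deg deg') (Sum.inl i)) = opL deg deg' i :=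
  Lam.lift_gen _ _ _ _

private theorem Ph_inr (k : κ) :
    Ph deg deg' (gen (Sum.elim deg deg') (Sum.inr k)) = opR deg deg' k :=
  Lam.lift_gen _ _ _ _

private theorem iL_gen (i : ι) :
    iL deg deg' (gen deg i) = gen (Sum.elim deg deg') (Sum.inl i) := mapL_gen _ _

private theorem iR_gen (k : κ) :
    iR deg deg' (gen deg' k) = gen (Sum.elim deg deg') (Sum.inr k) := mapL_gen _ _

private theorem Ph_iL (a x : Lam deg) (y : Lam deg') :
    Ph deg deg' (iL deg deg' a) (x ⊗ₜ[ℚ] y) = (a * x) ⊗ₜ[ℚ] y := by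
  induction a using Lam.induction with
  | hm l =>
    induction l with
    | nil => rw [mon_nil, map_one, map_one, one_mul]; rfl
    | cons i l ih =>
      rw [mon_cons, map_mul, map_mul, Module.End.mul_apply, ih, iL_gen, Ph_inl, opL_tmul, mul_assoc]
  | h0 => rw [map_zero, map_zero, LinearMap.zero_apply, zero_mul, TensorProduct.zero_tmul]
  | hadd a b ha hb =>
    rw [map_add, map_add, LinearMap.add_apply, ha, hb, add_mul, TensorProduct.add_tmul]
  | hsmul r a ha =>
    rw [map_smul, map_smul, LinearMap.smul_apply, ha, smul_mul_assoc, TensorProduct.smul_tmul']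

private theorem Ph_iR (b y : Lam deg') :
    Ph deg deg' (iR deg deg' b) ((1 : Lam deg) ⊗ₜ[ℚ] y) = (1 : Lam deg) ⊗ₜ[ℚ] (b * y) := by
  induction b using Lam.induction with
  | hm l =>
    induction l with
    | nil => rw [mon_nil, map_one, map_one, one_mul]; rfl
    | cons i l ih =>
      rw [mon_cons, map_mul, map_mul, Module.End.mul_apply, ih, iR_gen, Ph_inr, opR_tmul, mul_assoc,
        sg_one]
  | h0 => rw [map_zero, map_zero, LinearMap.zero_apply, zero_mul, TensorProduct.tmul_zero]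
  | hadd a b ha hb =>
    rw [map_add, map_add, LinearMap.add_apply, ha, hb, add_mul, TensorProduct.tmul_add]
  | hsmul r a ha =>
    rw [map_smul, map_smul, LinearMap.smul_apply, ha, smul_mul_assoc, TensorProduct.tmul_smul]

private noncomputable def mu : Lam deg ⊗[ℚ] Lam deg' →ₗ[ℚ] Lam (Sum.elim deg deg') :=
  TensorProduct.lift
    ((LinearMap.mul ℚ (Lam (Sum.elim deg deg'))).compl₁₂ (iL deg deg').toLinearMap
      (iR deg deg').toLinearMap)

private theorem mu_tmul (a : Lam deg) (b : Lam deg') :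
    mu deg deg' (a ⊗ₜ[ℚ] b) = iL deg deg' a * iR deg deg' b := by
  unfold mu
  rw [TensorProduct.lift.tmul]
  rfl

private theorem ep_mu (t : Lam deg ⊗[ℚ] Lam deg') :
    Ph deg deg' (mu deg deg' t) ((1 : Lam deg) ⊗ₜ[ℚ] (1 : Lam deg')) = t := by
  induction t using TensorProduct.induction_on with
  | zero => rw [map_zero, map_zero, LinearMap.zero_apply]
  | tmul a b =>
    rw [mu_tmul, map_mul, Module.End.mul_apply, Ph_iR, Ph_iL, mul_one, mul_one]
  | add s t hs ht => rw [map_add, map_add, LinearMap.add_apply, hs, ht]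

private theorem inr_iL (k : κ) (a : Lam deg) :
    gen (Sum.elim deg deg') (Sum.inr k) * iL deg deg' a =
      iL deg deg' (sg deg (deg' k) a) * gen (Sum.elim deg deg') (Sum.inr k) := by
  induction a using Lam.induction with
  | hm l =>
    induction l with
    | nil => rw [mon_nil, map_one, sg_one, map_one, mul_one, one_mul]
    | cons i l ih =>
      rw [mon_cons, map_mul, iL_gen, sg_gen_mul, ← mul_assoc, gen_comm, smul_mul_assoc, mul_assoc,
        ih, map_smul, map_mul, iL_gen, smul_mul_assoc, mul_assoc]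
      show (-1 : ℚ) ^ (deg' k * deg i) • _ = (-1 : ℚ) ^ (deg i * deg' k) • _
      rw [mul_comm (deg i)]
  | h0 => rw [map_zero, map_zero, map_zero, zero_mul, mul_zero]
  | hadd a b ha hb =>
    rw [map_add, map_add, map_add, mul_add, add_mul, ha, hb]
  | hsmul r a ha =>
    rw [map_smul, map_smul, map_smul, mul_smul_comm, smul_mul_assoc, ha]

private theorem mu_stable (p : ι ⊕ κ) {e : Lam (Sum.elim deg deg')}
    (he : e ∈ LinearMap.range (mu deg deg')) :
    gen (Sum.elim deg deg') p * e ∈ LinearMap.range (mu deg deg') := by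
  obtain ⟨t, rfl⟩ := he
  induction t using TensorProduct.induction_on with
  | zero => rw [map_zero, mul_zero]; exact zero_mem _
  | add s t hs ht => rw [map_add, mul_add]; exact add_mem hs ht
  | tmul a b =>
    rcases p with i | k
    · refine ⟨(gen deg i * a) ⊗ₜ[ℚ] b, ?_⟩
      rw [mu_tmul, mu_tmul, map_mul, iL_gen, mul_assoc]
    · refine ⟨(sg deg (deg' k) a) ⊗ₜ[ℚ] (gen deg' k * b), ?_⟩
      rw [mu_tmul, mu_tmul, map_mul, iR_gen, ← mul_assoc, ← mul_assoc, inr_iL]

private theorem mu_surj : Function.Surjective (mu deg deg') := by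
  intro e
  have h : e ∈ LinearMap.range (mu deg deg') := by
    induction e using Lam.induction with
    | hm l =>
      induction l with
      | nil =>
        refine ⟨(1 : Lam deg) ⊗ₜ[ℚ] (1 : Lam deg'), ?_⟩
        rw [mu_tmul, map_one, map_one, mul_one, mon_nil]
      | cons i l ih =>
        rw [mon_cons]
        exact mu_stable deg deg' i ih
    | h0 => exact zero_mem _
    | hadd a b ha hb => exact add_mem ha hb
    | hsmul r a ha => exact Submodule.smul_mem _ _ ha
  exact h

private theorem mu_inj : Function.Injective (mu deg deg') := by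
  intro s t h
  rw [← ep_mu deg deg' s, ← ep_mu deg deg' t, h]

end aux

theorem exists_tens {ι κ : Type} (deg : ι → ℕ) (deg' : κ → ℕ) :
    ∃ ε : Lam (Sum.elim deg deg') ≃ₗ[ℚ] (Lam deg ⊗[ℚ] Lam deg'),
      ∀ a b, ε (iL deg deg' a * iR deg deg' b) = a ⊗ₜ[ℚ] b := by
  refine ⟨(LinearEquiv.ofBijective (mu deg deg') ⟨mu_inj deg deg', mu_surj deg deg'⟩).symm, ?_⟩
  intro a b
  rw [LinearEquiv.symm_apply_eq]
  exact (mu_tmul deg deg' a b).symm

theorem iLR_indep {ι κ : Type} (deg : ι → ℕ) (deg' : κ → ℕ) {B : Type} [Fintype B]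
    {ω : B → Lam deg'} (hω : LinearIndependent ℚ ω) (x : B → Lam deg)
    (h : ∑ b, iL deg deg' (x b) * iR deg deg' (ω b) = 0) (b : B) : x b = 0 := by
  classical
  obtain ⟨ε, hε⟩ := exists_tens deg deg'
  have h1 : ∑ c, x c ⊗ₜ[ℚ] ω c = 0 := by
    have h2 := congrArg ε h
    rw [map_sum, map_zero] at h2
    rw [← h2]
    exact Finset.sum_congr rfl fun c _ => (hε _ _).symm
  obtain ⟨f, hf⟩ := LinearMap.exists_extend ((Finsupp.lapply b).comp hω.repr)
  have hfω : ∀ c, f (ω c) = if c = b then (1 : ℚ) else 0 := by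
    intro c
    have h2 := congrArg (fun g : Submodule.span ℚ (Set.range ω) →ₗ[ℚ] ℚ =>
      g ⟨ω c, Submodule.subset_span ⟨c, rfl⟩⟩) hf
    have h3 : f (ω c) = (hω.repr ⟨ω c, Submodule.subset_span ⟨c, rfl⟩⟩) b := h2
    rw [h3, hω.repr_eq_single c _ rfl, Finsupp.single_apply]
  have h4 := congrArg (fun t => TensorProduct.rid ℚ (Lam deg) (LinearMap.lTensor (Lam deg) f t)) h1
  simp only [map_sum, map_zero, LinearMap.lTensor_tmul, TensorProduct.rid_tmul, hfω] at h4
  simpa using h4

end Anick2
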