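import Pool.Agent.Helper98.RD.ACKey

/-!
RD-03. Lemma AC: existence of `D`, `σ`.

Proof. Induction on `n`: there is `σ : ι → Lam (sd deg)` with all `σ i` in the span of `AC.mem` and with
`der_σ (σ i) = iL (S.d (gen i))` for all `i` with `deg i < n`; here `der_σ` is the library's `der (sd deg)` with the values
`w_i ↦ iL (S.d (gen i))`, `sw_i ↦ gen (inl i) - σ i`. The step is `koszul_step` for the `i` with `deg i = n`; the values at the
letters of `cdeg < n` do not change, so the differentials of the old `σ i` do not change (`der_congr`).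
-/

set_option autoImplicit false

namespace Anick2

namespace ACexH

variable {ι : Type} {deg : ι → ℕ}

attribute [local irreducible] instRingLam

theorem SP_ind {κ : Type} {dg : κ → ℕ} {p : List κ → Prop} {C : Lam dg → Prop}
    (hm : ∀ l, p l → C (mon dg l)) (h0 : C 0) (hadd : ∀ a b, C a → C b → C (a + b))
    (hsmul : ∀ (r : ℚ) a, C a → C (r • a)) {a : Lam dg} (ha : a ∈ SP dg p) : C a := by
  unfold SP at ha
  induction ha using Submodule.span_induction with
  | mem x hx => obtain ⟨l, hl, rfl⟩ := hx; exact hm l hl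
  | zero => exact h0
  | add y z _ _ hy hz => exact hadd _ _ hy hz
  | smul r y _ hy => exact hsmul _ _ hy

theorem mon_mem_SP {κ : Type} {dg : κ → ℕ} {p : List κ → Prop} {l : List κ} (hl : p l) :
    mon dg l ∈ SP dg p := Submodule.subset_span ⟨l, hl, rfl⟩

theorem SP_hom {κ : Type} {dg : κ → ℕ} {p : List κ → Prop} {n : ℕ}
    (h : ∀ l, p l → degSum dg l = n) {a : Lam dg} (ha : a ∈ SP dg p) : a ∈ hom dg n :=
  SP_ind (C := fun a => a ∈ hom dg n) (fun l hl => by rw [← h l hl]; exact mon_mem_hom dg l)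
    (zero_mem _) (fun _ _ ha hb => add_mem ha hb) (fun _ _ ha => Submodule.smul_mem _ _ ha) ha

theorem SP_homS {κ : Type} {dg : κ → ℕ} {p : List κ → Prop} {n : ℕ} {T : Set κ}
    (h : ∀ l, p l → degSum dg l = n ∧ ∀ x ∈ l, x ∈ T) {a : Lam dg} (ha : a ∈ SP dg p) :
    a ∈ homS dg T n :=
  SP_ind (C := fun a => a ∈ homS dg T n)
    (fun l hl => by rw [← (h l hl).1]; exact mon_mem_homS dg l (h l hl).2)
    (zero_mem _) (fun _ _ ha hb => add_mem ha hb) (fun _ _ ha => Submodule.smul_mem _ _ ha) ha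

theorem hom_sub {κ : Type} {dg : κ → ℕ} {n : ℕ} {a b : Lam dg} (ha : a ∈ hom dg n)
    (hb : b ∈ hom dg n) : a - b ∈ hom dg n := sub_mem ha hb

theorem der_sgn {κ : Type} {dg : κ → ℕ} (D : κ → Lam dg) (hD : ∀ i, D i ∈ hom dg (dg i + 1))
    (a : Lam dg) : sgn dg (der dg D hD a) = -der dg D hD (sgn dg a) := by
  induction a using Lam.induction with
  | hm l =>
    rw [sgn_hom dg (der_mem dg D hD (mon_mem_hom dg l)), sgn_mon, map_smul, pow_succ, mul_neg,
      mul_one, neg_smul]
  | h0 => rw [map_zero, map_zero, map_zero, neg_zero]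
  | hadd a b ha hb => rw [map_add, map_add, ha, hb, map_add, map_add, neg_add]
  | hsmul r a ha => rw [map_smul, map_smul, ha, map_smul, map_smul, smul_neg]

/-! ### the retraction onto the generators of degree `< n` -/

noncomputable def rho (deg : ι → ℕ) (n : ℕ) : Lam deg →ₐ[ℚ] Lam deg :=
  Lam.lift deg (fun j => if deg j < n then gen deg j else 0) (by
    intro i j
    by_cases hi : deg i < n
    · by_cases hj : deg j < n
      · rw [if_pos hi, if_pos hj]; exact gen_comm deg i j
      · rw [if_neg hj, mul_zero, zero_mul, smul_zero]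
    · rw [if_neg hi, mul_zero, zero_mul, smul_zero])

theorem rho_gen (n : ℕ) (j : ι) : rho deg n (gen deg j) = if deg j < n then gen deg j else 0 :=
  Lam.lift_gen deg _ _ j

theorem rho_mon (n : ℕ) (l : List ι) :
    ((∀ j ∈ l, deg j < n) ∧ rho deg n (mon deg l) = mon deg l) ∨ rho deg n (mon deg l) = 0 := by
  induction l with
  | nil => exact Or.inl ⟨fun j hj => absurd hj (by simp), by rw [mon_nil, map_one]⟩
  | cons i l ih =>
    rw [mon_cons, map_mul, rho_gen]
    by_cases hi : deg i < n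
    · rw [if_pos hi]
      rcases ih with ⟨h1, h2⟩ | h
      · refine Or.inl ⟨?_, by rw [h2]⟩
        intro j hj
        rcases List.mem_cons.1 hj with h | h
        · rw [h]; exact hi
        · exact h1 j h
      · exact Or.inr (by rw [h, mul_zero])
    · exact Or.inr (by rw [if_neg hi, zero_mul])

theorem rho_adjoin (n : ℕ) {a : Lam deg}
    (ha : a ∈ Algebra.adjoin ℚ (gen deg '' {j | deg j < n})) : rho deg n a = a := by
  have h : Algebra.adjoin ℚ (gen deg '' {j | deg j < n}) ≤
      AlgHom.equalizer (rho deg n) (AlgHom.id ℚ (Lam deg)) := by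
    refine Algebra.adjoin_le ?_
    rintro _ ⟨j, hj, rfl⟩
    change rho deg n (gen deg j) = gen deg j
    rw [rho_gen, if_pos (show deg j < n from hj)]
  exact h ha

theorem d_gen_mem (S : MinimalSullivan deg) (i : ι) :
    S.d (gen deg i) ∈ SP deg (fun l => degSum deg l = deg i + 1 ∧ 2 ≤ l.length ∧
      ∀ j ∈ l, deg j < deg i) := by
  have h1 : S.d (gen deg i) ∈ SP deg (fun l => 2 ≤ l.length) := S.minimal i
  have h2 : rho deg (deg i) (S.d (gen deg i)) = S.d (gen deg i) := rho_adjoin _ (S.sullivan i)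
  have h3 : S.d (gen deg i) ∈ hom deg (deg i + 1) :=
    S.isDifferential.map_hom _ _ (gen_mem_hom deg i)
  have h4 : pr deg (deg i + 1) (rho deg (deg i) (S.d (gen deg i))) = S.d (gen deg i) := by
    rw [h2, pr_hom deg h3, if_pos rfl]
  rw [← h4]
  refine SP_ind (C := fun a => pr deg (deg i + 1) (rho deg (deg i) a) ∈
    SP deg (fun l => degSum deg l = deg i + 1 ∧ 2 ≤ l.length ∧ ∀ j ∈ l, deg j < deg i))
    ?_ ?_ ?_ ?_ h1
  · intro l hl
    rcases rho_mon (deg := deg) (deg i) l with ⟨h5, h6⟩ | h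
    · rw [h6, pr_hom deg (mon_mem_hom deg l)]
      by_cases h7 : degSum deg l = deg i + 1
      · rw [if_pos h7]; exact mon_mem_SP ⟨h7, hl, h5⟩
      · rw [if_neg h7]; exact zero_mem _
    · rw [h, map_zero]; exact zero_mem _
  · rw [map_zero, map_zero]; exact zero_mem _
  · intro a b ha hb
    rw [map_add, map_add]; exact add_mem ha hb
  · intro r a ha
    rw [map_smul, map_smul]; exact Submodule.smul_mem _ _ ha

/-! ### the inclusion `ΛW → ΛW ⊗ ΛsW` -/

noncomputable def kL (deg : ι → ℕ) : Lam deg →ₐ[ℚ] Lam (sd deg) := iL deg (fun i => deg i - 1)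

theorem kL_gen (i : ι) : kL deg (gen deg i) = gen (sd deg) (Sum.inl i) :=
  mapL_gen (deg := sd deg) (f := Sum.inl) (fun _ => rfl) i

theorem kL_mon (l : List ι) : kL deg (mon deg l) = mon (sd deg) (l.map Sum.inl) :=
  mapL_mon (deg := sd deg) (f := Sum.inl) (fun _ => rfl) l

theorem kL_hom {n : ℕ} {a : Lam deg} (ha : a ∈ hom deg n) : kL deg a ∈ hom (sd deg) n :=
  mapL_hom (deg := sd deg) (f := Sum.inl) (fun _ => rfl) ha

theorem kL_sgn (a : Lam deg) : kL deg (sgn deg a) = sgn (sd deg) (kL deg a) :=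
  mapL_sgn (deg := sd deg) (f := Sum.inl) (fun _ => rfl) a

theorem cW_inl {κ : Type} (l : List ι) : cW (l.map (Sum.inl : ι → ι ⊕ κ)) = l.length := by
  unfold cW
  induction l with
  | nil => rfl
  | cons i l ih => rw [List.map_cons, List.filter_cons_of_pos (by rfl), List.length_cons, ih,
      List.length_cons]

theorem kLd_mem (S : MinimalSullivan deg) (i : ι) :
    kL deg (S.d (gen deg i)) ∈ SP (sd deg) (fun l => degSum (sd deg) l = deg i + 1 ∧ 2 ≤ cW l ∧
      ∀ x ∈ l, cdeg deg x < deg i) := by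
  refine SP_ind (C := fun a => kL deg a ∈ SP (sd deg) (fun l => degSum (sd deg) l = deg i + 1 ∧
    2 ≤ cW l ∧ ∀ x ∈ l, cdeg deg x < deg i)) ?_ ?_ ?_ ?_ (d_gen_mem S i)
  · rintro l ⟨h1, h2, h3⟩
    rw [kL_mon]
    refine mon_mem_SP ⟨?_, ?_, ?_⟩
    · rw [← h1]
      exact mapL_degSum (deg := sd deg) (f := Sum.inl) (fun _ => rfl) l
    · rw [cW_inl]; exact h2
    · intro x hx
      obtain ⟨j, hj, rfl⟩ := List.mem_map.1 hx
      exact h3 j hj
  · rw [map_zero]; exact zero_mem _
  · intro a b ha hb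
    rw [map_add]; exact add_mem ha hb
  · intro r a ha
    rw [map_smul]; exact Submodule.smul_mem _ _ ha

/-! ### the derivation -/

/-- The span in which the `σ i` live. -/
noncomputable def MS (deg : ι → ℕ) (i : ι) : Submodule ℚ (Lam (sd deg)) :=
  SP (sd deg) (fun l => degSum (sd deg) l = deg i ∧ 1 ≤ cW l ∧ 1 ≤ cS l ∧
    ∀ x ∈ l, cdeg deg x < deg i)

noncomputable def vals (S : MinimalSullivan deg) (σ : ι → Lam (sd deg)) : ι ⊕ ι → Lam (sd deg)
  | Sum.inl i => kL deg (S.d (gen deg i))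
  | Sum.inr i => gen (sd deg) (Sum.inl i) - σ i

theorem hvals (S : MinimalSullivan deg) {σ : ι → Lam (sd deg)} (hσ : ∀ i, σ i ∈ MS deg i) :
    ∀ x, vals S σ x ∈ hom (sd deg) (sd deg x + 1) := by
  rintro (i | i)
  · exact kL_hom (S.isDifferential.map_hom _ _ (gen_mem_hom deg i))
  · have h2 := S.two_le i
    have h3 : sd deg (Sum.inr i) + 1 = deg i := by
      change deg i - 1 + 1 = deg i
      omega
    rw [h3]
    exact hom_sub (gen_mem_hom (sd deg) (Sum.inl i)) (SP_hom (fun l hl => hl.1) (hσ i))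

/-- The derivation given by `σ`. -/
noncomputable def dd (S : MinimalSullivan deg) (σ : ι → Lam (sd deg)) (hσ : ∀ i, σ i ∈ MS deg i) :
    Lam (sd deg) →ₗ[ℚ] Lam (sd deg) := der (sd deg) (vals S σ) (hvals S hσ)

section
variable (S : MinimalSullivan deg) {σ : ι → Lam (sd deg)} (hσ : ∀ i, σ i ∈ MS deg i)

theorem dd_inl (i : ι) : dd S σ hσ (gen (sd deg) (Sum.inl i)) = kL deg (S.d (gen deg i)) :=
  der_gen _ _ _ _

theorem dd_inr (i : ι) : dd S σ hσ (gen (sd deg) (Sum.inr i)) = gen (sd deg) (Sum.inl i) - σ i :=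
  der_gen _ _ _ _

theorem dd_one : dd S σ hσ 1 = 0 := der_one _ _ _

theorem dd_mul (a b : Lam (sd deg)) :
    dd S σ hσ (a * b) = dd S σ hσ a * b + sgn (sd deg) a * dd S σ hσ b := der_mul _ _ _ a b

theorem dd_sgn (a : Lam (sd deg)) : sgn (sd deg) (dd S σ hσ a) = -dd S σ hσ (sgn (sd deg) a) :=
  der_sgn _ _ a

theorem dd_kL (a : Lam deg) : dd S σ hσ (kL deg a) = kL deg (S.d a) := by
  induction a using Lam.induction with
  | hm l =>
    induction l with
    | nil =>
      have h1 : S.d (1 : Lam deg) = 0 := d_one S.isDifferential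
      rw [mon_nil, map_one, dd_one, h1, map_zero]
    | cons i l ih =>
      rw [mon_cons, map_mul, dd_mul, ih, kL_gen, dd_inl, d_mul S.isDifferential, map_add, map_mul,
        map_mul, kL_sgn, kL_gen]
  | h0 => rw [map_zero, map_zero, map_zero, map_zero]
  | hadd a b ha hb => rw [map_add, map_add, ha, hb, map_add, map_add]
  | hsmul r a ha => rw [map_smul, map_smul, ha, map_smul, map_smul]

theorem dd_dd_mul {a b : Lam (sd deg)} (ha : dd S σ hσ (dd S σ hσ a) = 0)
    (hb : dd S σ hσ (dd S σ hσ b) = 0) : dd S σ hσ (dd S σ hσ (a * b)) = 0 := by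
  have h1 : dd S σ hσ (sgn (sd deg) a) = -sgn (sd deg) (dd S σ hσ a) := by
    rw [dd_sgn, neg_neg]
  rw [dd_mul, map_add, dd_mul, dd_mul, ha, hb, h1, zero_mul, mul_zero, zero_add, add_zero, neg_mul,
    add_neg_cancel]

theorem dd_dd_inl (i : ι) : dd S σ hσ (dd S σ hσ (gen (sd deg) (Sum.inl i))) = 0 := by
  rw [dd_inl, dd_kL, S.isDifferential.d_d, map_zero]

theorem dd_dd_inr {i : ι} (h : dd S σ hσ (σ i) = kL deg (S.d (gen deg i))) :
    dd S σ hσ (dd S σ hσ (gen (sd deg) (Sum.inr i))) = 0 := by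
  rw [dd_inr, map_sub, dd_inl, h, sub_self]

theorem dd_sq_mon {n : ℕ} (h : ∀ i, deg i < n → dd S σ hσ (σ i) = kL deg (S.d (gen deg i)))
    (l : List (ι ⊕ ι)) (hl : ∀ x ∈ l, cdeg deg x < n) :
    dd S σ hσ (dd S σ hσ (mon (sd deg) l)) = 0 := by
  induction l with
  | nil => rw [mon_nil, dd_one, map_zero]
  | cons x l ih =>
    rw [mon_cons]
    refine dd_dd_mul S hσ ?_ (ih fun y hy => hl y (List.mem_cons_of_mem _ hy))
    rcases x with i | i
    · exact dd_dd_inl S hσ i
    · exact dd_dd_inr S hσ (h i (hl (Sum.inr i) (List.mem_cons.2 (Or.inl rfl))))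

end

theorem exists_sigma [Finite ι] (S : MinimalSullivan deg) (n : ℕ) :
    ∃ (σ : ι → Lam (sd deg)) (hσ : ∀ i, σ i ∈ MS deg i),
      ∀ i, deg i < n → dd S σ hσ (σ i) = kL deg (S.d (gen deg i)) := by
  classical
  induction n with
  | zero => exact ⟨fun _ => 0, fun i => zero_mem _, fun i hi => absurd hi (Nat.not_lt_zero _)⟩
  | succ n ih =>
    obtain ⟨σ, hσ, h⟩ := ih
    have hk : ∀ i, deg i = n → ∃ σ' ∈ MS deg i, dd S σ hσ σ' = kL deg (S.d (gen deg i)) := by
      intro i hi
      have hp := kLd_mem S i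
      have := koszul_step S n σ hσ (dd S σ hσ) (dd_inl S hσ) (dd_inr S hσ) (dd_one S hσ)
        (dd_mul S hσ) (dd_sgn S hσ) (dd_sq_mon S hσ h) (p := kL deg (S.d (gen deg i)))
        (by rw [hi] at hp; exact hp)
        (by rw [dd_kL, S.isDifferential.d_d, map_zero])
      obtain ⟨σ', h1, h2⟩ := this
      refine ⟨σ', ?_, h2⟩
      unfold MS
      rw [hi]
      exact h1
    choose! τ hτ1 hτ2 using hk
    have hσ' : ∀ i, (if deg i = n then τ i else σ i) ∈ MS deg i := by
      intro i
      by_cases hi : deg i = n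
      · rw [if_pos hi]; exact hτ1 i hi
      · rw [if_neg hi]; exact hσ i
    refine ⟨fun i => if deg i = n then τ i else σ i, hσ', ?_⟩
    intro i hi
    have hcong : ∀ a ∈ MS deg i, dd S (fun i => if deg i = n then τ i else σ i) hσ' a =
        dd S σ hσ a := by
      intro a ha
      refine der_congr (sd deg) (S := {x | cdeg deg x < n}) _ _ _ _ ?_ (n := deg i) ?_
      · rintro (j | j) hj
        · rfl
        · have hj' : deg j < n := hj
          change gen (sd deg) (Sum.inl j) - (if deg j = n then τ j else σ j) =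
            gen (sd deg) (Sum.inl j) - σ j
          rw [if_neg (by omega)]
      · refine SP_homS (fun l hl => ⟨hl.1, fun x hx => ?_⟩) ha
        have := hl.2.2.2 x hx
        change cdeg deg x < n
        omega
    rw [hcong _ (hσ' i)]
    by_cases hi' : deg i = n
    · simp only [if_pos hi']
      exact hτ2 i hi'
    · simp only [if_neg hi']
      exact h i (by omega)

end ACexH

open ACexH in
theorem exists_AC {ι : Type} [Finite ι] {deg : ι → ℕ} (S : MinimalSullivan deg) :
    ∃ (D : Lam (sd deg) →ₗ[ℚ] Lam (sd deg)) (σ : ι → Lam (sd deg)), AC S D σ := by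
  obtain ⟨N, hN⟩ := (Set.finite_range deg).bddAbove
  obtain ⟨σ, hσ, h⟩ := exists_sigma S (N + 1)
  have h' : ∀ i, dd S σ hσ (σ i) = kL deg (S.d (gen deg i)) := fun i =>
    h i (Nat.lt_succ_of_le (hN ⟨i, rfl⟩))
  refine ⟨dd S σ hσ, σ, ⟨⟨?_, ?_, ?_⟩, ?_, ?_, ?_⟩⟩
  · intro n a ha
    exact der_mem _ _ _ ha
  · intro n a ha b
    exact der_leibniz _ _ _ ha b
  · intro a
    refine der_sq (sd deg) _ _ ?_ a
    rintro (i | i)
    · have := dd_dd_inl S hσ i
      rw [dd_inl] at this
      exact this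
    · have := dd_dd_inr S hσ (h' i)
      rw [dd_inr] at this
      exact this
  · intro a
    exact dd_kL S hσ a
  · intro i
    exact dd_inr S hσ i
  · intro i
    exact hσ i

end Anick2
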