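import Pool.Agent.Helper98.RD.Core

/-!
RD-13. The universal coformal algebras exist.

Proof. `der (udeg N)` with the values `⟨(a, b), _⟩ ↦ ∑_c (-1)^(|a| + |c| + 1) • (ux a c * ux c b)`; `ux a c ∈ hom (|a| - |c| + 1)` (also if it
is `0`), so for `|b| < |c| < |a|` the product has degree `|a| - |b| + 2`, and for the other `c` it is `0`. The formula of `IsUniv` for
`¬ b.1 < a.1`: both sides are `0` (for each `c` one of the factors vanishes). `der_sq`: with `e(a,c) = (-1)^(|a| + |c| + 1)`: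
`d (ux a c * ux c b) = d (ux a c) * ux c b + e(a,c) • ux a c * d (ux c b)` (the degree of `ux a c` is `|a| - |c| + 1 ≡ |a| + |c| + 1` mod `2`, and both sides
vanish if `ux a c = 0`), `∑_c e(a,c) ∑_e e(a,e) x_ae x_ec x_cb + ∑_c e(a,c)^2 ∑_e e(c,e) x_ac x_ce x_eb`: rename `c ↔ e` in the second sum:
`∑_{c,e} (e(a,c) e(a,e) + e(e,c)) x_ae x_ec x_cb = 0` since `e(a,c) e(a,e) = (-1)^(2|a| + |c| + |e| + 2) = (-1)^(|c|+|e|) = -e(e,c)`.
Sullivan: if `ux a c * ux c b ≠ 0` then `|b| < |c| < |a|`, so both factors are generators of smaller degree. Minimality: products of two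
generators. `two_le`: `|a| - |b| + 1 ≥ 2`.
-/

set_option autoImplicit false

namespace Anick2

theorem ux_pos {N : ℕ} {a b : UB N} (h : b.1 < a.1) :
    ux N a b = gen (udeg N) ⟨(a, b), h⟩ := by
  unfold ux
  rw [dif_pos h]

theorem ux_neg {N : ℕ} {a b : UB N} (h : ¬ b.1 < a.1) : ux N a b = 0 := by
  unfold ux
  rw [dif_neg h]

theorem ux_mem {N : ℕ} (a b : UB N) :
    ux N a b ∈ hom (udeg N) ((a.1 : ℕ) - (b.1 : ℕ) + 1) := by
  by_cases h : b.1 < a.1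
  · rw [ux_pos h]
    exact gen_mem_hom (udeg N) ⟨(a, b), h⟩
  · rw [ux_neg h]
    exact zero_mem _

theorem uterm_mem {N : ℕ} (a c b : UB N) :
    ux N a c * ux N c b ∈ hom (udeg N) ((a.1 : ℕ) - (b.1 : ℕ) + 1 + 1) := by
  by_cases h1 : c.1 < a.1
  · by_cases h2 : b.1 < c.1
    · have h := mul_mem_hom (udeg N) (ux_mem a c) (ux_mem c b)
      have h1' : (c.1 : ℕ) < a.1 := h1
      have h2' : (b.1 : ℕ) < c.1 := h2
      have e : (a.1 : ℕ) - (c.1 : ℕ) + 1 + ((c.1 : ℕ) - (b.1 : ℕ) + 1) =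
          (a.1 : ℕ) - (b.1 : ℕ) + 1 + 1 := by omega
      rw [e] at h
      exact h
    · rw [ux_neg h2, mul_zero]
      exact zero_mem _
  · rw [ux_neg h1, zero_mul]
    exact zero_mem _

theorem usum_mul {N : ℕ} (f : UB N → Lam (udeg N)) (y : Lam (udeg N)) :
    (∑ c : UB N, f c) * y = ∑ c : UB N, f c * y := Finset.sum_mul _ _ _

theorem umul_sum {N : ℕ} (f : UB N → Lam (udeg N)) (y : Lam (udeg N)) :
    y * (∑ c : UB N, f c) = ∑ c : UB N, y * f c := Finset.mul_sum _ _ _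

/-- The values of the differential. -/
noncomputable def uD (N : ℕ) (a b : UB N) : Lam (udeg N) :=
  ∑ c : UB N, (-1 : ℚ) ^ ((a.1 : ℕ) + (c.1 : ℕ) + 1) • (ux N a c * ux N c b)

theorem uD_mem {N : ℕ} (a b : UB N) :
    uD N a b ∈ hom (udeg N) ((a.1 : ℕ) - (b.1 : ℕ) + 1 + 1) :=
  Submodule.sum_mem _ fun c _ => Submodule.smul_mem _ _ (uterm_mem a c b)

theorem uD_mem' (N : ℕ) (p : UI N) : uD N p.1.1 p.1.2 ∈ hom (udeg N) (udeg N p + 1) :=
  uD_mem p.1.1 p.1.2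

theorem uD_neg {N : ℕ} {a b : UB N} (h : ¬ b.1 < a.1) : uD N a b = 0 := by
  unfold uD
  refine Finset.sum_eq_zero fun c _ => ?_
  by_cases h1 : c.1 < a.1
  · have h2 : ¬ b.1 < c.1 := fun h2 => h (lt_trans h2 h1)
    rw [ux_neg h2, mul_zero, smul_zero]
  · rw [ux_neg h1, zero_mul, smul_zero]

/-- The differential. -/
noncomputable def ud (N : ℕ) : Lam (udeg N) →ₗ[ℚ] Lam (udeg N) :=
  der (udeg N) (fun p => uD N p.1.1 p.1.2) (uD_mem' N)

theorem ud_ux {N : ℕ} (a b : UB N) : ud N (ux N a b) = uD N a b := by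
  by_cases h : b.1 < a.1
  · rw [ux_pos h]
    exact der_gen (udeg N) _ (uD_mem' N) ⟨(a, b), h⟩
  · rw [ux_neg h, map_zero, uD_neg h]

theorem ud_mul {N : ℕ} (a c : UB N) (y : Lam (udeg N)) :
    ud N (ux N a c * y) =
      uD N a c * y + (-1 : ℚ) ^ ((a.1 : ℕ) + (c.1 : ℕ) + 1) • (ux N a c * ud N y) := by
  have h := der_leibniz (udeg N) (fun p => uD N p.1.1 p.1.2) (uD_mem' N) (ux_mem a c) y
  have h0 : der (udeg N) (fun p => uD N p.1.1 p.1.2) (uD_mem' N) (ux N a c) = uD N a c :=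
    ud_ux a c
  rw [h0] at h
  refine h.trans ?_
  by_cases h1 : c.1 < a.1
  · have h1' : (c.1 : ℕ) < a.1 := h1
    have e : (a.1 : ℕ) + (c.1 : ℕ) + 1 = ((a.1 : ℕ) - (c.1 : ℕ) + 1) + 2 * (c.1 : ℕ) := by omega
    have e2 : (-1 : ℚ) ^ ((a.1 : ℕ) + (c.1 : ℕ) + 1) = (-1 : ℚ) ^ ((a.1 : ℕ) - (c.1 : ℕ) + 1) := by
      rw [e, pow_add, pow_mul]
      simp
    rw [e2]
    rfl
  · rw [ux_neg h1, zero_mul, zero_mul, smul_zero, smul_zero]

theorem ud_uD {N : ℕ} (a b : UB N) : ud N (uD N a b) = 0 := by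
  have key : ud N (uD N a b) =
      (∑ c : UB N, ∑ e : UB N,
        ((-1 : ℚ) ^ ((a.1 : ℕ) + (c.1 : ℕ) + 1) * (-1 : ℚ) ^ ((a.1 : ℕ) + (e.1 : ℕ) + 1)) •
          (ux N a e * ux N e c * ux N c b)) +
      ∑ c : UB N, ∑ e : UB N,
        ((-1 : ℚ) ^ ((a.1 : ℕ) + (c.1 : ℕ) + 1) * ((-1 : ℚ) ^ ((a.1 : ℕ) + (c.1 : ℕ) + 1) *
          (-1 : ℚ) ^ ((c.1 : ℕ) + (e.1 : ℕ) + 1))) •
          (ux N a c * ux N c e * ux N e b) := by
    have h1 : ud N (uD N a b) = ∑ c : UB N, (-1 : ℚ) ^ ((a.1 : ℕ) + (c.1 : ℕ) + 1) •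
        (uD N a c * ux N c b + (-1 : ℚ) ^ ((a.1 : ℕ) + (c.1 : ℕ) + 1) •
          (ux N a c * uD N c b)) := by
      conv_lhs => rw [uD]
      rw [map_sum]
      refine Finset.sum_congr rfl fun c _ => ?_
      rw [map_smul, ud_mul, ud_ux]
    rw [h1, ← Finset.sum_add_distrib]
    refine Finset.sum_congr rfl fun c _ => ?_
    rw [smul_add]
    congr 1
    · unfold uD
      rw [usum_mul, Finset.smul_sum]
      refine Finset.sum_congr rfl fun e _ => ?_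
      rw [smul_mul_assoc, smul_smul]
    · unfold uD
      rw [umul_sum, Finset.smul_sum, Finset.smul_sum]
      refine Finset.sum_congr rfl fun e _ => ?_
      rw [mul_smul_comm, smul_smul, smul_smul, mul_assoc (ux N a c), mul_assoc ((-1 : ℚ) ^ _)]
  rw [key]
  conv_lhs =>
    rw [Finset.sum_comm (s := (Finset.univ : Finset (UB N))) (t := (Finset.univ : Finset (UB N)))
      (f := fun c e => ((-1 : ℚ) ^ ((a.1 : ℕ) + (c.1 : ℕ) + 1) *
        ((-1 : ℚ) ^ ((a.1 : ℕ) + (c.1 : ℕ) + 1) *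
          (-1 : ℚ) ^ ((c.1 : ℕ) + (e.1 : ℕ) + 1))) •
          (ux N a c * ux N c e * ux N e b))]
  rw [← Finset.sum_add_distrib]
  refine Finset.sum_eq_zero fun c _ => ?_
  rw [← Finset.sum_add_distrib]
  refine Finset.sum_eq_zero fun e _ => ?_
  rw [← add_smul]
  have hz : (-1 : ℚ) ^ ((a.1 : ℕ) + (c.1 : ℕ) + 1) * (-1 : ℚ) ^ ((a.1 : ℕ) + (e.1 : ℕ) + 1) +
      (-1 : ℚ) ^ ((a.1 : ℕ) + (e.1 : ℕ) + 1) * ((-1 : ℚ) ^ ((a.1 : ℕ) + (e.1 : ℕ) + 1) *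
          (-1 : ℚ) ^ ((e.1 : ℕ) + (c.1 : ℕ) + 1)) = 0 := by
    have h2 : ∀ n : ℕ, (-1 : ℚ) ^ n * (-1 : ℚ) ^ n = 1 := fun n => by
      rw [← pow_add, ← two_mul, pow_mul]; simp
    have h3 := h2 (a.1 : ℕ)
    have h4 := h2 (e.1 : ℕ)
    simp only [pow_add, pow_one]
    linear_combination ((-1 : ℚ) ^ (c.1 : ℕ) * (-1 : ℚ) ^ (e.1 : ℕ)) * h3 -
      ((-1 : ℚ) ^ (e.1 : ℕ) * (-1 : ℚ) ^ (c.1 : ℕ) * (-1 : ℚ) ^ (a.1 : ℕ) * (-1 : ℚ) ^ (a.1 : ℕ)) * h4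
        - ((-1 : ℚ) ^ (e.1 : ℕ) * (-1 : ℚ) ^ (c.1 : ℕ)) * h3
  rw [hz, zero_smul]

theorem exists_univ (N : ℕ) : ∃ U : MinimalSullivan (udeg N), IsUniv N U := by
  refine ⟨{
    two_le := fun p => ?_
    d := ud N
    isDifferential := ?_
    sullivan := fun p => ?_
    minimal := fun p => ?_ }, fun a b => ud_ux a b⟩
  · have h : (p.1.2.1 : ℕ) < p.1.1.1 := p.2
    unfold udeg
    omega
  · refine ⟨fun n a ha => der_mem (udeg N) _ (uD_mem' N) ha,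
      fun n a ha b => der_leibniz (udeg N) _ (uD_mem' N) ha b, fun a => ?_⟩
    exact der_sq (udeg N) _ (uD_mem' N) (fun i => ud_uD i.1.1 i.1.2) a
  · have h0 : ud N (gen (udeg N) p) = uD N p.1.1 p.1.2 := der_gen (udeg N) _ (uD_mem' N) p
    rw [h0]
    unfold uD
    refine sum_mem fun c _ => ?_
    refine Subalgebra.smul_mem _ ?_ _
    by_cases h1 : c.1 < p.1.1.1
    · by_cases h2 : p.1.2.1 < c.1
      · have h1' : (c.1 : ℕ) < p.1.1.1 := h1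
        have h2' : (p.1.2.1 : ℕ) < c.1 := h2
        rw [ux_pos h1, ux_pos h2]
        refine mul_mem (Algebra.subset_adjoin ⟨⟨(p.1.1, c), h1⟩, ?_, rfl⟩)
          (Algebra.subset_adjoin ⟨⟨(c, p.1.2), h2⟩, ?_, rfl⟩)
        · change (p.1.1.1 : ℕ) - (c.1 : ℕ) + 1 < (p.1.1.1 : ℕ) - (p.1.2.1 : ℕ) + 1
          omega
        · change (c.1 : ℕ) - (p.1.2.1 : ℕ) + 1 < (p.1.1.1 : ℕ) - (p.1.2.1 : ℕ) + 1
          omega
      · rw [ux_neg h2, mul_zero]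
        exact zero_mem _
    · rw [ux_neg h1, zero_mul]
      exact zero_mem _
  · have h0 : ud N (gen (udeg N) p) = uD N p.1.1 p.1.2 := der_gen (udeg N) _ (uD_mem' N) p
    rw [h0]
    unfold uD
    refine Submodule.sum_mem _ fun c _ => ?_
    refine Submodule.smul_mem _ _ ?_
    by_cases h1 : c.1 < p.1.1.1
    · by_cases h2 : p.1.2.1 < c.1
      · rw [ux_pos h1, ux_pos h2]
        exact Submodule.subset_span ⟨[⟨(p.1.1, c), h1⟩, ⟨(c, p.1.2), h2⟩], by simp, by simp⟩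
      · rw [ux_neg h2, mul_zero]
        exact zero_mem _
    · rw [ux_neg h1, zero_mul]
      exact zero_mem _

end Anick2
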