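import Pool.Agent.Helper98.RD.Core

/-!
RD-06. `D` maps `1 ⊗ b`, `b` of degree `p` in the letters `sw_i` with `deg i < n`, to a sum of elements
`a ⊗ b'` with `a` of degree `k ≥ 2`, `b'` in the same letters, of degree `q`, `k + q = p + 1`.

Proof. Let `M p` be the span on the right hand side (`SDspan`). (a) `iR b₁ * (iL a * iR b') ∈ M` and `(iL a * iR b') * iR b₁ ∈ M` for
monomials (move `iR b₁` past `iL a`: `hom_comm`), with degrees added. (b) `gen (inl i) ∈ M (deg i - 1)` (`a = gen i`, `k = deg i ≥ 2`,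
`b' = 1`, `q = 0`). (c) `σ i ∈ M (deg i - 1)` for `deg i < n`: a monomial with at least one letter `inl`, letters of `cdeg < deg i`,
degree `deg i`, can be sorted: it is `± iL (mon l₁) * iR (mon l₂)` with `l₁ ≠ []` (so of degree `≥ 2`), `l₂` with letters in
`{i | deg i < n}` (induction on the list, `gen_comm`/`hom_comm`). (d) Induction on the monomial `b`, Leibniz rule (`AC.diff.leibniz`).
-/

set_option autoImplicit false

namespace Anick2

/-- The span of the `a ⊗ b'`, `a` of degree `k ≥ 2`, `b'` of degree `q` in the letters `sw_i` with `deg i < n`,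
`k + q = p + 1`. -/
noncomputable def SDspan {ι : Type} (deg : ι → ℕ) (n p : ℕ) : Submodule ℚ (Lam (sd deg)) :=
  Submodule.span ℚ {e | ∃ (k q : ℕ) (a : Lam deg) (b : Lam (fun i => deg i - 1)), 2 ≤ k ∧
    k + q = p + 1 ∧ a ∈ hom deg k ∧ b ∈ homS (fun i => deg i - 1) {i | deg i < n} q ∧
    e = iL deg (fun i => deg i - 1) a * iR deg (fun i => deg i - 1) b}

private noncomputable def dirL {ι : Type} (deg : ι → ℕ) : Lam deg →ₐ[ℚ] Lam (sd deg) :=
  iL deg (fun i => deg i - 1)

private noncomputable def dirR {ι : Type} (deg : ι → ℕ) :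
    Lam (fun i => deg i - 1) →ₐ[ℚ] Lam (sd deg) :=
  iR deg (fun i => deg i - 1)

private theorem dir_L_hom {ι : Type} (deg : ι → ℕ) {n : ℕ} {a : Lam deg}
    (ha : a ∈ hom deg n) : dirL deg a ∈ hom (sd deg) n :=
  mapL_hom (fun _ => rfl) ha

private theorem dir_R_hom {ι : Type} (deg : ι → ℕ) {n : ℕ} {b : Lam (fun i => deg i - 1)}
    (hb : b ∈ hom (fun i => deg i - 1) n) : dirR deg b ∈ hom (sd deg) n :=
  mapL_hom (fun _ => rfl) hb

private theorem dir_L_gen {ι : Type} (deg : ι → ℕ) (i : ι) :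
    dirL deg (gen deg i) = gen (sd deg) (Sum.inl i) :=
  mapL_gen (deg := sd deg) (f := Sum.inl) (fun _ => rfl) i

private theorem dir_R_gen {ι : Type} (deg : ι → ℕ) (k : ι) :
    dirR deg (gen (fun i => deg i - 1) k) = gen (sd deg) (Sum.inr k) :=
  mapL_gen (deg := sd deg) (f := Sum.inr) (fun _ => rfl) k

private theorem dir_homS_mul {κ : Type} (deg' : κ → ℕ) (T : Set κ) {p q : ℕ} {a b : Lam deg'}
    (ha : a ∈ homS deg' T p) (hb : b ∈ homS deg' T q) : a * b ∈ homS deg' T (p + q) := by
  refine homS_induction deg' (C := fun a => a * b ∈ homS deg' T (p + q)) (fun l hl hn => ?_)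
    (by rw [zero_mul]; exact zero_mem _)
    (fun a a' ha ha' => by rw [add_mul]; exact add_mem ha ha')
    (fun r a ha => by rw [smul_mul_assoc]; exact Submodule.smul_mem _ _ ha) ha
  refine homS_induction deg' (C := fun b => mon deg' l * b ∈ homS deg' T (p + q))
    (fun l' hl' hn' => ?_)
    (by rw [mul_zero]; exact zero_mem _) (fun a a' ha ha' => by rw [mul_add]; exact add_mem ha ha')
    (fun r a ha => by rw [mul_smul_comm]; exact Submodule.smul_mem _ _ ha) hb
  rw [← mon_append, ← hn, ← hn', ← degSum_append]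
  refine mon_mem_homS deg' _ fun i hi => ?_
  rcases List.mem_append.1 hi with h | h
  · exact hl i h
  · exact hl' i h

private theorem dir_one_mem {κ : Type} (deg' : κ → ℕ) (T : Set κ) :
    (1 : Lam deg') ∈ homS deg' T 0 := by
  have := mon_mem_homS deg' (S := T) [] (by simp)
  simpa using this

/-- Sorting a monomial. -/
private theorem dir_sort {ι : Type} (deg : ι → ℕ) (l : List (ι ⊕ ι)) :
    ∃ (c : ℚ) (l₁ : List ι) (l₂ : List ι),
      mon (sd deg) l = c • (dirL deg (mon deg l₁) * dirR deg (mon (fun i => deg i - 1) l₂)) ∧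
      l₁.length = cW l ∧ l₂.length = cS l ∧
      degSum (sd deg) l = degSum deg l₁ + degSum (fun i => deg i - 1) l₂ ∧
      (∀ i ∈ l₁, Sum.inl i ∈ l) ∧ (∀ k ∈ l₂, Sum.inr k ∈ l) := by
  induction l with
  | nil =>
    refine ⟨1, [], [], ?_, rfl, rfl, rfl, by simp, by simp⟩
    rw [mon_nil, mon_nil, mon_nil, map_one, map_one, one_smul, mul_one]
  | cons x l ih =>
    obtain ⟨c, l₁, l₂, h1, h2, h3, h4, h5, h6⟩ := ih
    rcases x with i | k
    · refine ⟨c, i :: l₁, l₂, ?_, ?_, ?_, ?_, ?_, ?_⟩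
      · rw [mon_cons, mon_cons, h1, map_mul, dir_L_gen, mul_smul_comm, mul_assoc]
      · rw [List.length_cons, h2]
        simp [cW]
      · rw [h3]
        simp [cS]
      · rw [degSum_cons, degSum_cons, h4, ← add_assoc]
        rfl
      · intro j hj
        rcases List.mem_cons.1 hj with rfl | hj
        · exact List.mem_cons_self
        · exact List.mem_cons_of_mem _ (h5 j hj)
      · intro k hk
        exact List.mem_cons_of_mem _ (h6 k hk)
    · refine ⟨c * (-1 : ℚ) ^ (sd deg (Sum.inr k) * degSum deg l₁), l₁, k :: l₂, ?_, ?_, ?_, ?_, ?_,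
        ?_⟩
      · have hc := hom_comm (sd deg) (gen_mem_hom (sd deg) (Sum.inr k))
          (dir_L_hom deg (mon_mem_hom deg l₁))
        rw [mon_cons, mon_cons, h1, map_mul, dir_R_gen, mul_smul_comm, ← mul_assoc, hc,
          smul_mul_assoc, smul_smul, mul_assoc]
      · rw [h2]
        simp [cW]
      · rw [List.length_cons, h3]
        simp [cS]
      · rw [degSum_cons, degSum_cons, h4]
        have : sd deg (Sum.inr k) = deg k - 1 := rfl
        omega
      · intro j hj
        exact List.mem_cons_of_mem _ (h5 j hj)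
      · intro j hj
        rcases List.mem_cons.1 hj with rfl | hj
        · exact List.mem_cons_self
        · exact List.mem_cons_of_mem _ (h6 j hj)

private theorem dir_SD {ι : Type} (deg : ι → ℕ) (n p : ℕ) : SDspan deg n p =
    Submodule.span ℚ {e : Lam (sd deg) | ∃ (k q : ℕ) (a : Lam deg) (b : Lam (fun i => deg i - 1)),
      2 ≤ k ∧ k + q = p + 1 ∧ a ∈ hom deg k ∧
      b ∈ homS (fun i => deg i - 1) {i | deg i < n} q ∧ e = dirL deg a * dirR deg b} := rfl

private theorem dir_mul_right {ι : Type} (deg : ι → ℕ) (n p q₁ : ℕ) {x : Lam (sd deg)}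
    {b₁ : Lam (fun i => deg i - 1)} (hx : x ∈ SDspan deg n p)
    (hb : b₁ ∈ homS (fun i => deg i - 1) {i | deg i < n} q₁) :
    x * dirR deg b₁ ∈ SDspan deg n (p + q₁) := by
  rw [dir_SD] at hx
  induction hx using Submodule.span_induction with
  | mem x hx =>
    obtain ⟨k, q, a, b, hk, hkq, ha, hb', rfl⟩ := hx
    rw [dir_SD]
    refine Submodule.subset_span ⟨k, q + q₁, a, b * b₁, hk, by omega, ha,
      dir_homS_mul _ _ hb' hb, ?_⟩
    rw [map_mul, mul_assoc]
  | zero => rw [zero_mul]; exact zero_mem _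
  | add y z _ _ hy hz => rw [add_mul]; exact add_mem hy hz
  | smul r y _ hy => rw [smul_mul_assoc]; exact Submodule.smul_mem _ _ hy

private theorem dir_mul_left {ι : Type} (deg : ι → ℕ) (n p q₁ : ℕ) {x : Lam (sd deg)}
    {b₁ : Lam (fun i => deg i - 1)} (hx : x ∈ SDspan deg n p)
    (hb : b₁ ∈ homS (fun i => deg i - 1) {i | deg i < n} q₁) :
    dirR deg b₁ * x ∈ SDspan deg n (q₁ + p) := by
  rw [dir_SD] at hx
  induction hx using Submodule.span_induction with
  | mem x hx =>
    obtain ⟨k, q, a, b, hk, hkq, ha, hb', rfl⟩ := hx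
    have hc := hom_comm (sd deg) (dir_R_hom deg (homS_le _ _ _ hb)) (dir_L_hom deg ha)
    have e : dirR deg b₁ * (dirL deg a * dirR deg b) =
        (-1 : ℚ) ^ (q₁ * k) • (dirL deg a * dirR deg (b₁ * b)) := by
      rw [← mul_assoc, hc, smul_mul_assoc, map_mul, mul_assoc]
    rw [e, dir_SD]
    exact Submodule.smul_mem _ _ (Submodule.subset_span ⟨k, q₁ + q, a, b₁ * b, hk, by omega,
      ha, dir_homS_mul _ _ hb hb', rfl⟩)
  | zero => rw [mul_zero]; exact zero_mem _
  | add y z _ _ hy hz => rw [mul_add]; exact add_mem hy hz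
  | smul r y _ hy => rw [mul_smul_comm]; exact Submodule.smul_mem _ _ hy

private theorem dir_sigma {ι : Type} {deg : ι → ℕ} {S : MinimalSullivan deg}
    {D : Lam (sd deg) →ₗ[ℚ] Lam (sd deg)} {σ : ι → Lam (sd deg)} (h : AC S D σ) (i : ι) :
    σ i ∈ Submodule.span ℚ {e : Lam (sd deg) | ∃ (k q : ℕ) (a : Lam deg)
      (b : Lam (fun i => deg i - 1)), 2 ≤ k ∧ 1 ≤ q ∧ k + q = deg i ∧ a ∈ hom deg k ∧
      b ∈ homS (fun i => deg i - 1) {j | deg j < deg i} q ∧ e = dirL deg a * dirR deg b} := by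
  refine (Submodule.span_le.2 ?_ : SP (sd deg) _ ≤ _) (h.mem i)
  rintro _ ⟨l, ⟨hdeg, hW, hS, hlt⟩, rfl⟩
  obtain ⟨c, l₁, l₂, h1, h2, h3, h4, h5, h6⟩ := dir_sort deg l
  have hdeg' : degSum deg l₁ + degSum (fun i => deg i - 1) l₂ = deg i := h4.symm.trans hdeg
  rw [SetLike.mem_coe, h1]
  refine Submodule.smul_mem _ _ (Submodule.subset_span ⟨degSum deg l₁,
    degSum (fun i => deg i - 1) l₂, mon deg l₁, mon _ l₂, ?_, ?_, hdeg', mon_mem_hom _ _,
    mon_mem_homS _ _ ?_, rfl⟩)
  · cases l₁ with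
    | nil => rw [List.length_nil] at h2; omega
    | cons j t =>
      rw [degSum_cons]
      have := S.two_le j
      omega
  · cases l₂ with
    | nil => rw [List.length_nil] at h3; omega
    | cons j t =>
      rw [degSum_cons]
      have := S.two_le j
      omega
  · intro k hk
    exact hlt _ (h6 k hk)

private theorem dir_sub {A : Type} [Ring A] [Algebra ℚ A] (M : Submodule ℚ A) {x y : A}
    (hx : x ∈ M) (hy : y ∈ M) : x - y ∈ M := sub_mem hx hy

private theorem dir_d {ι : Type} {deg : ι → ℕ} {S : MinimalSullivan deg}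
    {D : Lam (sd deg) →ₗ[ℚ] Lam (sd deg)} {σ : ι → Lam (sd deg)} (h : AC S D σ) (n p : ℕ)
    {b : Lam (fun i => deg i - 1)} (hb : b ∈ homS (fun i => deg i - 1) {i | deg i < n} p) :
    D (dirR deg b) ∈ SDspan deg n p := by
  have hD1 : D 1 = 0 := by
    have h1 : (1 : Lam (sd deg)) ∈ hom (sd deg) 0 := mon_mem_hom (sd deg) []
    have h2 := h.diff.leibniz 0 1 h1 1
    rw [mul_one, mul_one, pow_zero, one_smul, one_mul] at h2
    exact left_eq_add.1 h2
  have hgen : ∀ i, deg i < n → D (dirR deg (gen (fun i => deg i - 1) i)) ∈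
      SDspan deg n (deg i - 1) := by
    intro i hi
    have h2 := S.two_le i
    rw [dir_R_gen, h.ds i]
    refine dir_sub _ ?_ ?_
    · rw [dir_SD]
      refine Submodule.subset_span ⟨deg i, 0, gen deg i, 1, h2, by omega, gen_mem_hom deg i,
        dir_one_mem _ _, ?_⟩
      rw [map_one, mul_one, dir_L_gen]
    · refine (Submodule.span_le.2 ?_) (dir_sigma h i)
      rintro _ ⟨k, q, a, b, hk, hq, hkq, ha, hb, rfl⟩
      rw [dir_SD]
      refine Submodule.subset_span ⟨k, q, a, b, hk, by omega, ha, ?_, rfl⟩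
      exact homS_mono _ (fun j hj => lt_trans hj hi) q hb
  refine homS_induction (fun i => deg i - 1)
    (C := fun b => D (dirR deg b) ∈ SDspan deg n p) ?_
    (by rw [map_zero, map_zero]; exact zero_mem _)
    (fun a b ha hb => by rw [map_add, map_add]; exact add_mem ha hb)
    (fun r a ha => by rw [map_smul, map_smul]; exact Submodule.smul_mem _ _ ha) hb
  clear hb b
  intro l hl hp
  induction l generalizing p with
  | nil =>
    rw [mon_nil, map_one, hD1]
    exact zero_mem _
  | cons i l ih =>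
    have hi : deg i < n := hl i List.mem_cons_self
    have hl' : ∀ j ∈ l, j ∈ {i | deg i < n} := fun j hj => hl j (List.mem_cons_of_mem _ hj)
    have ihl := ih _ hl' rfl
    have hg : dirR deg (gen (fun i => deg i - 1) i) ∈ hom (sd deg) (deg i - 1) :=
      dir_R_hom deg (gen_mem_hom (fun i => deg i - 1) i)
    have hgS : gen (fun i => deg i - 1) i ∈ homS (fun i => deg i - 1) {i | deg i < n}
        (deg i - 1) := by
      have := mon_mem_homS (fun i => deg i - 1) (S := {i | deg i < n}) [i]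
        (by intro j hj; rw [List.mem_singleton.1 hj]; exact hi)
      simpa using this
    have hp' : p = (deg i - 1) + degSum (fun i => deg i - 1) l := by
      rw [← hp, degSum_cons]
    rw [mon_cons, map_mul, h.diff.leibniz _ _ hg, hp']
    refine add_mem ?_ (Submodule.smul_mem _ _ ?_)
    · exact dir_mul_right deg n _ _ (hgen i hi) (mon_mem_homS _ _ hl')
    · exact dir_mul_left deg n _ _ ihl hgS

theorem d_iR {ι : Type} {deg : ι → ℕ} {S : MinimalSullivan deg}
    {D : Lam (sd deg) →ₗ[ℚ] Lam (sd deg)} {σ : ι → Lam (sd deg)} (h : AC S D σ) (n p : ℕ)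
    {b : Lam (fun i => deg i - 1)} (hb : b ∈ homS (fun i => deg i - 1) {i | deg i < n} p) :
    D (iR deg (fun i => deg i - 1) b) ∈ SDspan deg n p :=
  dir_d h n p hb

/-- `σ i` is a sum of elements `a ⊗ b` with `a` of degree `≥ 2` and `b` of degree `≥ 1`. -/
theorem sigma_mem {ι : Type} {deg : ι → ℕ} {S : MinimalSullivan deg}
    {D : Lam (sd deg) →ₗ[ℚ] Lam (sd deg)} {σ : ι → Lam (sd deg)} (h : AC S D σ) (i : ι) :
    σ i ∈ Submodule.span ℚ {e | ∃ (k q : ℕ) (a : Lam deg) (b : Lam (fun i => deg i - 1)), 2 ≤ k ∧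
      1 ≤ q ∧ k + q = deg i ∧ a ∈ hom deg k ∧
      b ∈ homS (fun i => deg i - 1) {j | deg j < deg i} q ∧
      e = iL deg (fun i => deg i - 1) a * iR deg (fun i => deg i - 1) b} :=
  dir_sigma h i

end Anick2
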