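import Pool.Agent.Helper98.RD.ODer

/-!
RD-02. The Koszul contraction (key step of Lemma AC).

`σ` is given for the generators of degree `< n`; `D` is the derivation with `D w_i = d w_i`, `D sw_i = w_i - σ_i`
(here any linear map with these properties, Leibniz rule `hmul`, and `D (D ·) = 0` on the letters of
`cdeg < n` is given in the form `hsq`). CLAIM: every `p` in the span of the monomials of degree `n + 1`, with at
least two letters `w`, all letters of `cdeg < n`, with `D p = 0`, is `D σ'` with `σ'` in the span of the monomials of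
degree `n`, with at least one letter `w` and at least one letter `sw`, all letters of `cdeg < n`.

Proof. `h` = the odd derivation `w_i ↦ sw_i`, `sw_i ↦ 0` (`exists_oder` for `sd deg`; parity: `deg i - 1` and `deg i + 1`
have the same parity as `2 ≤ deg i`). `K = D h + h D` is an even derivation (`K (a b) = K a b + a K b`, cross terms
cancel by `sgn (D a) = -D (sgn a)`, `sgn (h a) = -h (sgn a)`), `K w_i = w_i - σ_i + h (d w_i)`, `K sw_i = sw_i - h σ_i` for
`deg i < n`. `X(k, m)` = span of the monomials with letters of `cdeg < n`, degree `m`, length `≥ k`; `X2(k, m)` = the same with at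
least two letters `w`. For a monomial `x` of length `k` (letters of `cdeg < n`): `K x - k x` is in the span of longer
monomials of the same kind, and if `x` has `≥ 2` letters `w`, of monomials with `≥ 2` letters `w` (`σ_i` and `h (d w_i)` have
length `≥ 2` and at least one letter `w`; `h σ_i` has length `≥ 2`). Monomials of degree `m` have length `≤ m` (all letters have
degree `≥ 1`), so by descending induction on `k`: `K` maps `X(1, m)` onto `X(1, m)` and `X2(1, m)` onto `X2(1, m)`
(for a monomial `x` of length `k ≥ 1`, `x = K (x/k) - (longer)`). `X(1, m)` is finite-dimensional (`homS_fg`; the letters of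
`cdeg < n` are finitely many as `ι` is finite), so `K` is injective on `X(1, m)`. Now `p ∈ X2(1, n+1)`: choose `q ∈ X2(1, n+1)`
with `K q = p`. `K` commutes with `D` on `X`, so `K (D q) = D (K q) = 0` and `D q ∈ X(1, n+2)`, so `D q = 0`.
`σ' = h q`: `D (h q) = K q - h (D q) = p`, and `h` of a monomial with `≥ 2` letters `w` is a combination of monomials with
`≥ 1` letters `w` and `≥ 1` letters `sw`. (`K D = D K` on `X`: `D (D x) = 0` for `x` with letters of `cdeg < n`: `hsq`.)
-/

set_option autoImplicit false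

namespace Anick2

attribute [local irreducible] instRingLam

section aux
variable {ι : Type} {deg : ι → ℕ}

private theorem SP_ind {p : List ι → Prop} {C : Lam deg → Prop}
    (hm : ∀ l, p l → C (mon deg l)) (h0 : C 0)
    (hadd : ∀ a b, C a → C b → C (a + b)) (hsmul : ∀ (r : ℚ) a, C a → C (r • a))
    {a : Lam deg} (ha : a ∈ SP deg p) : C a := by
  unfold SP at ha
  induction ha using Submodule.span_induction with
  | mem x hx => obtain ⟨l, hl, rfl⟩ := hx; exact hm l hl
  | zero => exact h0
  | add y z _ _ hy hz => exact hadd _ _ hy hz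
  | smul r y _ hy => exact hsmul _ _ hy

private theorem mon_mem_SP {p : List ι → Prop} {l : List ι} (h : p l) : mon deg l ∈ SP deg p :=
  Submodule.subset_span ⟨l, h, rfl⟩

private theorem SP_mono {p q : List ι → Prop} (h : ∀ l, p l → q l) : SP deg p ≤ SP deg q := by
  unfold SP
  apply Submodule.span_mono
  rintro _ ⟨m, hm, rfl⟩
  exact ⟨m, h m hm, rfl⟩

private theorem SP_map {p : List ι → Prop} (f : Lam deg →ₗ[ℚ] Lam deg) {Q : Submodule ℚ (Lam deg)}
    (h : ∀ l, p l → f (mon deg l) ∈ Q) {a : Lam deg} (ha : a ∈ SP deg p) : f a ∈ Q :=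
  SP_ind (C := fun a => f a ∈ Q) h (by rw [map_zero]; exact zero_mem _)
    (fun a b ha hb => by rw [map_add]; exact add_mem ha hb)
    (fun r a ha => by rw [map_smul]; exact Submodule.smul_mem _ _ ha) ha

private theorem SP_mul {p q r : List ι → Prop} (h : ∀ l l', p l → q l' → r (l ++ l'))
    {a b : Lam deg} (ha : a ∈ SP deg p) (hb : b ∈ SP deg q) : a * b ∈ SP deg r := by
  refine SP_ind (C := fun a => a * b ∈ SP deg r) (fun l hl => ?_)
    (by rw [zero_mul]; exact zero_mem _)
    (fun a a' ha ha' => by rw [add_mul]; exact add_mem ha ha')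
    (fun r a ha => by rw [smul_mul_assoc]; exact Submodule.smul_mem _ _ ha) ha
  refine SP_ind (C := fun b => mon deg l * b ∈ SP deg r) (fun l' hl' => ?_)
    (by rw [mul_zero]; exact zero_mem _)
    (fun a a' ha ha' => by rw [mul_add]; exact add_mem ha ha')
    (fun r a ha => by rw [mul_smul_comm]; exact Submodule.smul_mem _ _ ha) hb
  rw [← mon_append]
  exact mon_mem_SP (h _ _ hl hl')

private theorem dgen (S : MinimalSullivan deg) (i : ι) :
    S.d (gen deg i) ∈ SP deg (fun l => degSum deg l = deg i + 1 ∧ 2 ≤ l.length) := by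
  have h1 := S.minimal i
  have h2 : pr deg (deg i + 1) (S.d (gen deg i)) = S.d (gen deg i) := by
    rw [pr_hom deg (S.isDifferential.map_hom _ _ (gen_mem_hom deg i)), if_pos rfl]
  rw [← h2]
  refine SP_map (p := fun l => 2 ≤ l.length) (pr deg (deg i + 1)) (fun l hl => ?_) h1
  rw [pr_hom deg (mon_mem_hom deg l)]
  split
  · rename_i hs
    exact mon_mem_SP ⟨hs, hl⟩
  · exact zero_mem _

private theorem iL_mon {κ : Type} (deg' : κ → ℕ) (l : List ι) :
    iL deg deg' (mon deg l) = mon (Sum.elim deg deg') (l.map Sum.inl) := by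
  induction l with
  | nil => simp
  | cons i l ih =>
    rw [mon_cons, map_mul, ih, List.map_cons, mon_cons]
    congr 1
    simp [iL, mapL]

end aux

section main
variable {ι : Type} {deg : ι → ℕ}

private theorem cW_append (l l' : List (ι ⊕ ι)) : cW (l ++ l') = cW l + cW l' := by
  simp [cW]

private theorem cS_append (l l' : List (ι ⊕ ι)) : cS (l ++ l') = cS l + cS l' := by
  simp [cS]

private theorem cW_inl (i : ι) (l : List (ι ⊕ ι)) : cW (Sum.inl i :: l) = cW l + 1 := by
  unfold cW
  rw [List.filter_cons_of_pos (by rfl), List.length_cons]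

private theorem cW_inr (i : ι) (l : List (ι ⊕ ι)) : cW (Sum.inr i :: l) = cW l := by
  simp [cW]

private theorem cS_inl (i : ι) (l : List (ι ⊕ ι)) : cS (Sum.inl i :: l) = cS l := by
  simp [cS]

private theorem cS_inr (i : ι) (l : List (ι ⊕ ι)) : cS (Sum.inr i :: l) = cS l + 1 := by
  unfold cS
  rw [List.filter_cons_of_pos (by rfl), List.length_cons]

private theorem cW_cS (l : List (ι ⊕ ι)) : cW l + cS l = l.length := by
  induction l with
  | nil => simp [cW, cS]
  | cons x l ih =>
    rcases x with i | i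
    · rw [cW_inl, cS_inl, List.length_cons]; omega
    · rw [cW_inr, cS_inr, List.length_cons]; omega

private theorem cW_map (l : List ι) : cW (l.map (Sum.inl : ι → ι ⊕ ι)) = l.length := by
  induction l with
  | nil => simp [cW]
  | cons x l ih => rw [List.map_cons, cW_inl, ih, List.length_cons]

private theorem degSum_map_inl (deg' : ι → ℕ) (l : List ι) :
    degSum (Sum.elim deg deg') (l.map Sum.inl) = degSum deg l := by
  induction l with
  | nil => simp
  | cons x l ih => rw [List.map_cons, degSum_cons, ih, degSum_cons]; rfl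

/-- The condition: degree `m`, length at least `k`, at least `r` letters `w`, letters of `cdeg < n`. -/
private def PP (deg : ι → ℕ) (n k m r : ℕ) (l : List (ι ⊕ ι)) : Prop :=
  degSum (sd deg) l = m ∧ k ≤ l.length ∧ r ≤ cW l ∧ ∀ x ∈ l, cdeg deg x < n

private theorem PP_append {n k m r k' m' r' : ℕ} (l l' : List (ι ⊕ ι)) (h : PP deg n k m r l)
    (h' : PP deg n k' m' r' l') : PP deg n (k + k') (m + m') (r + r') (l ++ l') := by
  obtain ⟨h1, h2, h3, h4⟩ := h
  obtain ⟨h1', h2', h3', h4'⟩ := h'
  refine ⟨by rw [degSum_append, h1, h1'], by rw [List.length_append]; omega,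
    by rw [cW_append]; omega, fun x hx => ?_⟩
  rcases List.mem_append.1 hx with hx | hx
  · exact h4 x hx
  · exact h4' x hx

private theorem PP_mul {n k m r k' m' r' : ℕ} {a b : Lam (sd deg)}
    (ha : a ∈ SP (sd deg) (PP deg n k m r)) (hb : b ∈ SP (sd deg) (PP deg n k' m' r')) :
    a * b ∈ SP (sd deg) (PP deg n (k + k') (m + m') (r + r')) :=
  SP_mul PP_append ha hb

private theorem PP_mono {n k m r k' r' : ℕ} (hk : k' ≤ k) (hr : r' ≤ r) :
    SP (sd deg) (PP deg n k m r) ≤ SP (sd deg) (PP deg n k' m r') :=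
  SP_mono (fun _ h => ⟨h.1, hk.trans h.2.1, hr.trans h.2.2.1, h.2.2.2⟩)

private theorem sgn_mem {κ : Type} {dg : κ → ℕ} {p : List κ → Prop} {a : Lam dg}
    (ha : a ∈ SP dg p) : sgn dg a ∈ SP dg p :=
  SP_map (sgn dg).toLinearMap (fun l hl => by
    change sgn dg (mon dg l) ∈ _
    rw [sgn_mon]
    exact Submodule.smul_mem _ _ (mon_mem_SP hl)) ha

private theorem SP_fg [Finite ι] (h2 : ∀ i, 2 ≤ deg i) (n k m r : ℕ) :
    (SP (sd deg) (PP deg n k m r)).FG := by
  have h1 : ∀ x, 1 ≤ sd deg x := by
    rintro (i | i)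
    · have := h2 i
      change 1 ≤ deg i
      omega
    · have := h2 i
      change 1 ≤ deg i - 1
      omega
  refine (homS_fg (sd deg) (Set.finite_univ) h1 m).of_le ?_
  unfold SP
  rw [Submodule.span_le]
  rintro _ ⟨l, hl, rfl⟩
  exact Submodule.subset_span ⟨l, fun _ _ => Set.mem_univ _, hl.1, rfl⟩

end main

theorem koszul_step {ι : Type} [Finite ι] {deg : ι → ℕ} (S : MinimalSullivan deg) (n : ℕ)
    (σ : ι → Lam (sd deg))
    (hσ : ∀ i, σ i ∈ SP (sd deg) (fun l => degSum (sd deg) l = deg i ∧ 1 ≤ cW l ∧ 1 ≤ cS l ∧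
      ∀ x ∈ l, cdeg deg x < deg i))
    (D : Lam (sd deg) →ₗ[ℚ] Lam (sd deg))
    (hw : ∀ i, D (gen (sd deg) (Sum.inl i)) = iL deg (fun i => deg i - 1) (S.d (gen deg i)))
    (hs : ∀ i, D (gen (sd deg) (Sum.inr i)) = gen (sd deg) (Sum.inl i) - σ i)
    (h1 : D 1 = 0) (hmul : ∀ a b, D (a * b) = D a * b + sgn (sd deg) a * D b)
    (hsg : ∀ a, sgn (sd deg) (D a) = -D (sgn (sd deg) a))
    (hsq : ∀ l : List (ι ⊕ ι), (∀ x ∈ l, cdeg deg x < n) → D (D (mon (sd deg) l)) = 0)
    {p : Lam (sd deg)}
    (hp : p ∈ SP (sd deg) (fun l => degSum (sd deg) l = n + 1 ∧ 2 ≤ cW l ∧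
      ∀ x ∈ l, cdeg deg x < n))
    (hDp : D p = 0) :
    ∃ σ' ∈ SP (sd deg) (fun l => degSum (sd deg) l = n ∧ 1 ≤ cW l ∧ 1 ≤ cS l ∧
      ∀ x ∈ l, cdeg deg x < n), D σ' = p := by
  classical
  have two := S.two_le
  -- the derivation h
  obtain ⟨h, hg, hh1, hhm, hhs⟩ := exists_oder (sd deg)
    (Sum.elim (fun i => gen (sd deg) (Sum.inr i)) (fun _ => 0)) (by
      rintro (i | i)
      · have := two i
        change sgn (sd deg) (gen (sd deg) (Sum.inr i)) =
          (-1 : ℚ) ^ (deg i + 1) • gen (sd deg) (Sum.inr i)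
        rw [sgn_gen]
        congr 1
        change (-1 : ℚ) ^ (deg i - 1) = _
        obtain ⟨j, hj⟩ := Nat.exists_eq_add_of_le' (show 1 ≤ deg i by omega)
        rw [hj, Nat.add_sub_cancel, pow_add, pow_add]
        norm_num
      · simp)
  have hgl : ∀ i, h (gen (sd deg) (Sum.inl i)) = gen (sd deg) (Sum.inr i) := fun i => hg _
  have hgr : ∀ i, h (gen (sd deg) (Sum.inr i)) = 0 := fun i => hg _
  -- effect of h on monomials
  have hmon : ∀ l : List (ι ⊕ ι), h (mon (sd deg) l) ∈ SP (sd deg) (fun l' =>
      degSum (sd deg) l' + 1 = degSum (sd deg) l ∧ cW l' + 1 = cW l ∧ cS l' = cS l + 1 ∧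
        ∀ m, (∀ x ∈ l, cdeg deg x < m) → ∀ x ∈ l', cdeg deg x < m) := by
    intro l
    induction l with
    | nil => rw [mon_nil, hh1]; exact zero_mem _
    | cons x l ih =>
      rw [mon_cons, hhm]
      refine add_mem ?_ ?_
      · rcases x with i | i
        · rw [hgl, ← mon_cons]
          refine mon_mem_SP ⟨?_, ?_, ?_, ?_⟩
          · rw [degSum_cons, degSum_cons]
            have := two i
            change deg i - 1 + _ + 1 = deg i + _
            omega
          · rw [cW_inr, cW_inl]
          · rw [cS_inr, cS_inl]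
          · intro m hm x hx
            rcases List.mem_cons.1 hx with rfl | hx
            · exact hm (Sum.inl i) List.mem_cons_self
            · exact hm x (List.mem_cons_of_mem _ hx)
        · rw [hgr, zero_mul]; exact zero_mem _
      · have hx : sgn (sd deg) (gen (sd deg) x) ∈ SP (sd deg) (fun l => l = [x]) := by
          refine sgn_mem ?_
          have := mon_mem_SP (deg := sd deg) (p := fun l => l = [x]) (l := [x]) rfl
          simpa using this
        refine SP_mul ?_ hx ih
        rintro _ l' rfl ⟨h1, h2, h3, h4⟩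
        rw [List.singleton_append]
        refine ⟨by rw [degSum_cons, degSum_cons]; omega, ?_, ?_, ?_⟩
        · rcases x with i | i
          · rw [cW_inl, cW_inl]; omega
          · rw [cW_inr, cW_inr]; omega
        · rcases x with i | i
          · rw [cS_inl, cS_inl]; omega
          · rw [cS_inr, cS_inr]; omega
        · intro m hm y hy
          rcases List.mem_cons.1 hy with rfl | hy
          · exact hm _ List.mem_cons_self
          · exact h4 m (fun z hz => hm z (List.mem_cons_of_mem _ hz)) y hy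
  -- d w_i
  have hdw : ∀ i, deg i < n → iL deg (fun i => deg i - 1) (S.d (gen deg i)) ∈
      SP (sd deg) (PP deg n 2 (deg i + 1) 2) := by
    intro i hi
    refine SP_ind (C := fun a => iL deg (fun i => deg i - 1) a ∈
      SP (sd deg) (PP deg n 2 (deg i + 1) 2)) (fun l hl => ?_)
      (by rw [map_zero]; exact zero_mem _)
      (fun a b ha hb => by rw [map_add]; exact add_mem ha hb)
      (fun r a ha => by rw [map_smul]; exact Submodule.smul_mem _ _ ha) (dgen S i)
    rw [iL_mon]
    refine mon_mem_SP ⟨?_, ?_, ?_, ?_⟩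
    · exact (degSum_map_inl _ l).trans hl.1
    · rw [List.length_map]; exact hl.2
    · rw [cW_map]; exact hl.2
    · intro x hx
      obtain ⟨j, hj, rfl⟩ := List.mem_map.1 hx
      change deg j < n
      obtain ⟨s, t, rfl⟩ := List.append_of_mem hj
      obtain ⟨h1, h2⟩ := hl
      rw [degSum_append, degSum_cons] at h1
      rw [List.length_append, List.length_cons] at h2
      have h3 : 2 * s.length ≤ degSum deg s := by
        clear h1 h2 hj hx
        induction s with
        | nil => simp
        | cons y s ih => have := two y; rw [List.length_cons, degSum_cons]; omega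
      have h4 : 2 * t.length ≤ degSum deg t := by
        clear h1 h2 hj hx
        induction t with
        | nil => simp
        | cons y s ih => have := two y; rw [List.length_cons, degSum_cons]; omega
      omega
  -- σ_i
  have hσ' : ∀ i, deg i < n → σ i ∈ SP (sd deg) (fun l => PP deg n 2 (deg i) 1 l ∧ 1 ≤ cS l) := by
    intro i hi
    refine SP_mono (fun l hl => ?_) (hσ i)
    obtain ⟨h1, h2, h3, h4⟩ := hl
    refine ⟨⟨h1, ?_, h2, fun x hx => (h4 x hx).trans hi⟩, h3⟩
    have := cW_cS l
    omega
  -- h σ_i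
  have hhσ : ∀ i, deg i < n → h (σ i) ∈ SP (sd deg) (PP deg n 2 (deg i - 1) 0) := by
    intro i hi
    refine SP_map h (fun l hl => ?_) (hσ' i hi)
    refine SP_mono (fun l' hl' => ?_) (hmon l)
    obtain ⟨⟨h1, h2, h3, h4⟩, h5⟩ := hl
    obtain ⟨h1', h2', h3', h4'⟩ := hl'
    refine ⟨by omega, ?_, Nat.zero_le _, h4' n h4⟩
    have e1 := cW_cS l
    have e2 := cW_cS l'
    omega
  have hhd : ∀ i, deg i < n → h (iL deg (fun i => deg i - 1) (S.d (gen deg i))) ∈
      SP (sd deg) (PP deg n 2 (deg i) 1) := by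
    intro i hi
    refine SP_map h (fun l hl => ?_) (hdw i hi)
    refine SP_mono (fun l' hl' => ?_) (hmon l)
    obtain ⟨h1, h2, h3, h4⟩ := hl
    obtain ⟨h1', h2', h3', h4'⟩ := hl'
    refine ⟨by omega, ?_, by omega, h4' n h4⟩
    have e1 := cW_cS l
    have e2 := cW_cS l'
    omega
  -- the derivation K
  set K : Lam (sd deg) →ₗ[ℚ] Lam (sd deg) := D ∘ₗ h + h ∘ₗ D with hK
  have hKa : ∀ a, K a = D (h a) + h (D a) := fun a => rfl
  have hKm : ∀ a b, K (a * b) = K a * b + a * K b := by
    intro a b
    rw [hKa, hKa, hKa, hhm, hmul, map_add, map_add, hmul, hmul, hhm, hhm, hhs, hsg, sgn_sgn]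
    noncomm_ring
  have hK1 : K 1 = 0 := by rw [hKa, hh1, h1, map_zero, map_zero, add_zero]
  -- letters
  have letter : ∀ x, cdeg deg x < n → K (gen (sd deg) x) - gen (sd deg) x ∈
      SP (sd deg) (PP deg n 2 (sd deg x) (cW [x])) := by
    rintro (i | i) hx
    · rw [hKa, hgl, hs, hw, cW_inl]
      have e : gen (sd deg) (Sum.inl i) - σ i + h (iL deg (fun i => deg i - 1) (S.d (gen deg i))) -
          gen (sd deg) (Sum.inl i) = -σ i + h (iL deg (fun i => deg i - 1) (S.d (gen deg i))) := by
        abel
      rw [e]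
      refine add_mem (neg_mem ?_) (hhd i hx)
      exact SP_mono (fun l hl => hl.1) (hσ' i hx)
    · rw [hKa, hgr, hs, map_zero, map_sub, hgl, cW_inr]
      have e : 0 + (gen (sd deg) (Sum.inr i) - h (σ i)) - gen (sd deg) (Sum.inr i) = -h (σ i) := by
        abel
      rw [e]
      exact neg_mem (hhσ i hx)
  have genmem : ∀ x, cdeg deg x < n → gen (sd deg) x ∈
      SP (sd deg) (PP deg n 1 (sd deg x) (cW [x])) := by
    intro x hx
    have := mon_mem_SP (deg := sd deg) (p := PP deg n 1 (sd deg x) (cW [x])) (l := [x])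
      ⟨by simp, by simp, le_rfl, by simpa using hx⟩
    simpa using this
  have monK : ∀ l : List (ι ⊕ ι), (∀ x ∈ l, cdeg deg x < n) →
      K (mon (sd deg) l) - (l.length : ℚ) • mon (sd deg) l ∈
        SP (sd deg) (PP deg n (l.length + 1) (degSum (sd deg) l) (cW l)) := by
    intro l hl
    induction l with
    | nil => rw [mon_nil, hK1]; simp
    | cons x l ih =>
      have ih' := ih (fun y hy => hl y (List.mem_cons_of_mem _ hy))
      have hx := hl x List.mem_cons_self
      have e : K (mon (sd deg) (x :: l)) - ((x :: l).length : ℚ) • mon (sd deg) (x :: l) =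
          (K (gen (sd deg) x) - gen (sd deg) x) * mon (sd deg) l +
            gen (sd deg) x * (K (mon (sd deg) l) - (l.length : ℚ) • mon (sd deg) l) := by
        rw [mon_cons, hKm, List.length_cons, Nat.cast_add, Nat.cast_one, add_smul, one_smul,
          sub_mul, mul_sub, mul_smul_comm]
        abel
      rw [e]
      have ecW : cW (x :: l) = cW [x] + cW l := by
        rw [← List.singleton_append, cW_append]
      have hml : mon (sd deg) l ∈ SP (sd deg) (PP deg n l.length (degSum (sd deg) l) (cW l)) :=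
        mon_mem_SP ⟨rfl, le_rfl, le_rfl, fun y hy => hl y (List.mem_cons_of_mem _ hy)⟩
      rw [ecW, degSum_cons, List.length_cons]
      refine add_mem ?_ ?_
      · have := PP_mul (letter x hx) hml
        exact PP_mono (by omega) le_rfl this
      · have := PP_mul (genmem x hx) ih'
        exact PP_mono (by omega) le_rfl this
  -- surjectivity
  have lenle : ∀ l : List (ι ⊕ ι), l.length ≤ degSum (sd deg) l := by
    refine degSum_ge (sd deg) ?_
    rintro (i | i)
    · have := two i
      change 1 ≤ deg i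
      omega
    · have := two i
      change 1 ≤ deg i - 1
      omega
  have mapsK : ∀ m r, ∀ a ∈ SP (sd deg) (PP deg n 1 m r), K a ∈ SP (sd deg) (PP deg n 1 m r) := by
    intro m r a ha
    refine SP_map K (fun l hl => ?_) ha
    have h2 := monK l hl.2.2.2
    have e : K (mon (sd deg) l) = (K (mon (sd deg) l) - (l.length : ℚ) • mon (sd deg) l) +
        (l.length : ℚ) • mon (sd deg) l := by abel
    rw [e]
    refine add_mem ?_ (Submodule.smul_mem _ _ (mon_mem_SP hl))
    rw [hl.1] at h2
    exact PP_mono (by omega) hl.2.2.1 h2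
  have surj : ∀ m r, ∀ j k, m + 1 ≤ k + j → 1 ≤ k → ∀ a ∈ SP (sd deg) (PP deg n k m r),
      ∃ b ∈ SP (sd deg) (PP deg n 1 m r), K b = a := by
    intro m r j
    induction j with
    | zero =>
      intro k hk hk1 a ha
      refine SP_ind (C := fun a => ∃ b ∈ SP (sd deg) (PP deg n 1 m r), K b = a)
        (fun l hl => ?_) ⟨0, zero_mem _, map_zero _⟩ ?_ ?_ ha
      · exfalso
        have e1 := lenle l
        have e2 := hl.1
        have e3 := hl.2.1
        omega
      · rintro a b ⟨a', ha', rfl⟩ ⟨b', hb', rfl⟩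
        exact ⟨a' + b', add_mem ha' hb', map_add _ _ _⟩
      · rintro c a ⟨a', ha', rfl⟩
        exact ⟨c • a', Submodule.smul_mem _ _ ha', map_smul _ _ _⟩
    | succ j ih =>
      intro k hk hk1 a ha
      refine SP_ind (C := fun a => ∃ b ∈ SP (sd deg) (PP deg n 1 m r), K b = a)
        (fun l hl => ?_) ⟨0, zero_mem _, map_zero _⟩ ?_ ?_ ha
      · have h2 := monK l hl.2.2.2
        have hlen : 1 ≤ l.length := hk1.trans hl.2.1
        rw [hl.1] at h2
        have h3 := PP_mono (k' := k + 1) (r' := r) (by have := hl.2.1; omega) hl.2.2.1 h2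
        obtain ⟨b, hb, hb'⟩ := ih (k + 1) (by omega) (by omega) _ h3
        refine ⟨((l.length : ℚ)⁻¹) • (mon (sd deg) l - b), ?_, ?_⟩
        · refine Submodule.smul_mem _ _ (sub_mem ?_ hb)
          exact mon_mem_SP ⟨hl.1, hlen, hl.2.2.1, hl.2.2.2⟩
        · rw [map_smul, map_sub, hb', sub_sub_cancel, smul_smul, inv_mul_cancel₀, one_smul]
          have : (0 : ℚ) < l.length := by exact_mod_cast hlen
          exact this.ne'
      · rintro a b ⟨a', ha', rfl⟩ ⟨b', hb', rfl⟩
        exact ⟨a' + b', add_mem ha' hb', map_add _ _ _⟩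
      · rintro c a ⟨a', ha', rfl⟩
        exact ⟨c • a', Submodule.smul_mem _ _ ha', map_smul _ _ _⟩
  -- injectivity
  have inj : ∀ m, ∀ a ∈ SP (sd deg) (PP deg n 1 m 0), K a = 0 → a = 0 := by
    intro m a ha hKa0
    have hfg := SP_fg (ι := ι) two n 1 m 0
    have : Module.Finite ℚ (SP (sd deg) (PP deg n 1 m 0)) := Module.Finite.iff_fg.2 hfg
    let K' : SP (sd deg) (PP deg n 1 m 0) →ₗ[ℚ] SP (sd deg) (PP deg n 1 m 0) :=
      K.restrict (mapsK m 0)
    have hs' : Function.Surjective K' := by
      rintro ⟨a, ha⟩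
      obtain ⟨b, hb, hb'⟩ := surj m 0 m 1 (by omega) le_rfl a ha
      exact ⟨⟨b, hb⟩, Subtype.ext hb'⟩
    have hi' : Function.Injective K' := LinearMap.injective_iff_surjective.2 hs'
    have h0 : K' ⟨a, ha⟩ = K' 0 := by
      rw [map_zero]
      exact Subtype.ext hKa0
    exact congrArg Subtype.val (hi' h0)
  -- D preserves the span
  have Dmon : ∀ l : List (ι ⊕ ι), (∀ x ∈ l, cdeg deg x < n) → D (mon (sd deg) l) ∈
      SP (sd deg) (PP deg n l.length (degSum (sd deg) l + 1) 0) := by
    intro l hl
    induction l with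
    | nil => rw [mon_nil, h1]; exact zero_mem _
    | cons x l ih =>
      have ih' := ih (fun y hy => hl y (List.mem_cons_of_mem _ hy))
      have hx := hl x List.mem_cons_self
      have hDx : D (gen (sd deg) x) ∈ SP (sd deg) (PP deg n 1 (sd deg x + 1) 0) := by
        rcases x with i | i
        · rw [hw]
          exact PP_mono (by omega) (by omega) (hdw i hx)
        · rw [hs]
          have e : sd deg (Sum.inr i) + 1 = deg i := by
            have := two i
            change deg i - 1 + 1 = deg i
            omega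
          rw [e]
          refine sub_mem ?_ ?_
          · exact PP_mono le_rfl (Nat.zero_le _) (genmem (Sum.inl i) hx)
          · exact SP_mono (fun l hl => ⟨hl.1.1, by have := hl.1.2.1; omega, Nat.zero_le _,
              hl.1.2.2.2⟩) (hσ' i hx)
      have hml : mon (sd deg) l ∈ SP (sd deg) (PP deg n l.length (degSum (sd deg) l) 0) :=
        mon_mem_SP ⟨rfl, le_rfl, Nat.zero_le _, fun y hy => hl y (List.mem_cons_of_mem _ hy)⟩
      rw [mon_cons, hmul, degSum_cons, List.length_cons]
      refine add_mem ?_ ?_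
      · have := PP_mul hDx hml
        have e : sd deg x + 1 + degSum (sd deg) l = sd deg x + degSum (sd deg) l + 1 := by omega
        rw [e] at this
        exact PP_mono (by omega) (Nat.zero_le _) this
      · have := PP_mul (PP_mono le_rfl (Nat.zero_le _) (sgn_mem (genmem x hx))) ih'
        have e : sd deg x + (degSum (sd deg) l + 1) = sd deg x + degSum (sd deg) l + 1 := by omega
        rw [e] at this
        exact PP_mono (by omega) (Nat.zero_le _) this
  -- the element q
  have hp' : p ∈ SP (sd deg) (PP deg n 1 (n + 1) 2) := by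
    refine SP_mono (fun l hl => ⟨hl.1, ?_, hl.2.1, hl.2.2⟩) hp
    have := cW_cS l
    have := hl.2.1
    omega
  obtain ⟨q, hq, hKq⟩ := surj (n + 1) 2 (n + 1) 1 (by omega) le_rfl p hp'
  -- K commutes with D on q
  have DDx : ∀ m k r, ∀ a ∈ SP (sd deg) (PP deg n k m r), D (D a) = 0 := by
    intro m k r a ha
    have := SP_map (D ∘ₗ D) (Q := (⊥ : Submodule ℚ (Lam (sd deg)))) (fun l hl => by
      rw [Submodule.mem_bot]
      exact hsq l hl.2.2.2) ha
    rw [Submodule.mem_bot] at this
    exact this
  have hhq : h q ∈ SP (sd deg) (fun l => degSum (sd deg) l = n ∧ 1 ≤ cW l ∧ 1 ≤ cS l ∧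
      ∀ x ∈ l, cdeg deg x < n) := by
    refine SP_map h (fun l hl => ?_) hq
    refine SP_mono (fun l' hl' => ?_) (hmon l)
    obtain ⟨e1, e2, e3, e4⟩ := hl
    obtain ⟨h1', h2', h3', h4'⟩ := hl'
    exact ⟨by omega, by omega, by omega, h4' n e4⟩
  have hhq' : h q ∈ SP (sd deg) (PP deg n 0 n 0) :=
    SP_mono (fun l hl => ⟨hl.1, Nat.zero_le _, Nat.zero_le _, hl.2.2.2⟩) hhq
  have hDq : D q ∈ SP (sd deg) (PP deg n 1 (n + 2) 0) := by
    refine SP_map D (fun l hl => ?_) hq
    have := Dmon l hl.2.2.2
    rw [hl.1] at this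
    exact PP_mono hl.2.1 le_rfl this
  have hcomm : K (D q) = D (K q) := by
    rw [hKa, hKa, DDx _ _ _ q hq, map_zero, add_zero, map_add, DDx _ _ _ _ hhq', zero_add]
  have hDq0 : D q = 0 := inj (n + 2) _ hDq (by rw [hcomm, hKq, hDp])
  refine ⟨h q, hhq, ?_⟩
  have e := hKa q
  rw [hDq0, map_zero, add_zero, hKq] at e
  exact e.symm

end Anick2
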