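import Pool.Agent.Helper98.RD.DiR
import Pool.Agent.Helper98.RD.Tens
import Pool.Agent.Helper98.RD.BasisS

/-!
RD-07. Acyclicity. `H^{>N}(ΛW, d) = 0`. A cocycle `z` of `ΛW ⊗ ΛsW` which is a sum of elements `a ⊗ b`, `a` of degree
`> N`, `b` in the letters `sw_i` with `deg i < n`, is `D u`, `u` a sum of elements `a ⊗ b`, `b` in these letters.

Proof (helper24): a general lemma `AcyH.core` on `ΛW`, `ΛsW` and their product, induction on the degree `p` of the `b`.
The top coefficients of `z` (in a basis of the truncation) are closed, so boundaries; subtract.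
-/

set_option autoImplicit false

namespace Anick2

namespace AcyH

/-- Sums of elements of degree at least `N`. -/
def AG {L : Type} [Ring L] [Algebra ℚ L] (H : ℕ → Submodule ℚ L) (N : ℕ) : Submodule ℚ L :=
  Submodule.span ℚ {a | ∃ k, N ≤ k ∧ a ∈ H k}

theorem AG_mono {L : Type} [Ring L] [Algebra ℚ L] (H : ℕ → Submodule ℚ L) {M N : ℕ} (h : M ≤ N) :
    AG H N ≤ AG H M := by
  unfold AG
  refine Submodule.span_mono ?_
  rintro a ⟨k, hk, ha⟩
  exact ⟨k, le_trans h hk, ha⟩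

section core

variable {L R E : Type} [Ring L] [Algebra ℚ L] [Ring R] [Algebra ℚ R] [Ring E] [Algebra ℚ E]
  (jL : L →ₐ[ℚ] E) (jR : R →ₗ[ℚ] E)

/-- Sums of `a ⊗ b`, `a` of degree at least `M`, `b` of degree `< p`. -/
def ZZ (H : ℕ → Submodule ℚ L) (HS : ℕ → Submodule ℚ R) (M p : ℕ) : Submodule ℚ E :=
  Submodule.span ℚ {e | ∃ (k q : ℕ) (a : L) (b : R), M ≤ k ∧ q < p ∧ a ∈ H k ∧ b ∈ HS q ∧
    e = jL a * jR b}

/-- Sums of `a ⊗ b`. -/
def UU (HS : ℕ → Submodule ℚ R) : Submodule ℚ E :=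
  Submodule.span ℚ {e | ∃ (q : ℕ) (a : L) (b : R), b ∈ HS q ∧ e = jL a * jR b}

variable {jL jR}

theorem mem_ZZ {H : ℕ → Submodule ℚ L} {HS : ℕ → Submodule ℚ R} {M p q : ℕ} {a : L} {b : R}
    (ha : a ∈ AG H M) (hq : q < p) (hb : b ∈ HS q) : jL a * jR b ∈ ZZ jL jR H HS M p := by
  unfold AG at ha
  induction ha using Submodule.span_induction with
  | mem x hx =>
    obtain ⟨k, hk, hx⟩ := hx
    exact Submodule.subset_span ⟨k, q, x, b, hk, hq, hx, hb, rfl⟩
  | zero => rw [map_zero, zero_mul]; exact zero_mem _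
  | add x y _ _ hx hy => rw [map_add, add_mul]; exact add_mem hx hy
  | smul r x _ hx => rw [map_smul, smul_mul_assoc]; exact Submodule.smul_mem _ _ hx

theorem mem_UU {HS : ℕ → Submodule ℚ R} {q : ℕ} {a : L} {b : R}
    (hb : b ∈ HS q) : jL a * jR b ∈ UU jL jR HS :=
  Submodule.subset_span ⟨q, a, b, hb, rfl⟩

/-- The map `(y_b) ↦ ∑ y_b ⊗ ω_b`. -/
def Psi {B : Type} [Fintype B] (jL : L →ₐ[ℚ] E) (jR : R →ₗ[ℚ] E) (ω : B → R) :
    (B → L) →ₗ[ℚ] E where
  toFun y := ∑ b, jL (y b) * jR (ω b)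
  map_add' x y := by
    rw [← Finset.sum_add_distrib]
    exact Finset.sum_congr rfl fun b _ => by rw [Pi.add_apply, map_add, add_mul]
  map_smul' r x := by
    rw [RingHom.id_apply, Finset.smul_sum]
    exact Finset.sum_congr rfl fun b _ => by rw [Pi.smul_apply, map_smul, smul_mul_assoc]

theorem Psi_apply {B : Type} [Fintype B] (ω : B → R) (y : B → L) :
    Psi jL jR ω y = ∑ b, jL (y b) * jR (ω b) := rfl

/-- The coefficient vectors with values in `K`, supported on `P`. -/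
def CV {B : Type} (K : Submodule ℚ L) (P : B → Prop) : Submodule ℚ (B → L) where
  carrier := {y | ∀ b, y b ∈ K ∧ (¬ P b → y b = 0)}
  add_mem' := fun {x y} hx hy b =>
    ⟨add_mem (hx b).1 (hy b).1, fun h => by rw [Pi.add_apply, (hx b).2 h, (hy b).2 h, add_zero]⟩
  zero_mem' := fun b => ⟨zero_mem _, fun _ => rfl⟩
  smul_mem' := fun r x hx b =>
    ⟨Submodule.smul_mem _ _ (hx b).1, fun h => by rw [Pi.smul_apply, (hx b).2 h, smul_zero]⟩

theorem mem_CV {B : Type} {K : Submodule ℚ L} {P : B → Prop} {y : B → L} :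
    y ∈ CV K P ↔ ∀ b, y b ∈ K ∧ (¬ P b → y b = 0) := Iff.rfl

/-- `a ⊗ b'`, `b'` of degree `q`, in the image of the vectors supported on the `b` of degree `q`. -/
theorem mem_Psi {B : Type} [Fintype B] {pd : B → ℕ} {ω : B → R}
    {K : Submodule ℚ L} {q : ℕ} {P : B → Prop} (hP : ∀ b, pd b = q → P b)
    {a : L} (ha : a ∈ K) {b' : R}
    (hb : b' ∈ Submodule.span ℚ {x | ∃ a, pd a = q ∧ x = ω a}) :
    jL a * jR b' ∈ (CV K P).map (Psi jL jR ω) := by
  classical
  induction hb using Submodule.span_induction with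
  | mem x hx =>
    obtain ⟨c, hc, rfl⟩ := hx
    refine ⟨Pi.single c a, ?_, ?_⟩
    · intro b
      by_cases h : b = c
      · subst h
        rw [Pi.single_eq_same]
        exact ⟨ha, fun h => absurd (hP _ hc) h⟩
      · rw [Pi.single_eq_of_ne h]
        exact ⟨zero_mem _, fun _ => rfl⟩
    · rw [Psi_apply, Finset.sum_eq_single c]
      · rw [Pi.single_eq_same]
      · intro b _ hbc
        rw [Pi.single_eq_of_ne hbc, map_zero, zero_mul]
      · intro h
        exact absurd (Finset.mem_univ c) h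
  | zero => rw [map_zero, mul_zero]; exact zero_mem _
  | add x y _ _ hx hy => rw [map_add, mul_add]; exact add_mem hx hy
  | smul r x _ hx => rw [map_smul, mul_smul_comm]; exact Submodule.smul_mem _ _ hx

theorem ZZ_mono {H : ℕ → Submodule ℚ L} {HS : ℕ → Submodule ℚ R} {M M' p p' : ℕ} (hM : M' ≤ M)
    (hp : p ≤ p') : ZZ jL jR H HS M p ≤ ZZ jL jR H HS M' p' := by
  unfold ZZ
  refine Submodule.span_mono ?_
  rintro e ⟨k, q, a, b, hk, hq, ha, hb, rfl⟩
  exact ⟨k, q, a, b, le_trans hM hk, lt_of_lt_of_le hq hp, ha, hb, rfl⟩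

theorem ZZ_le {B : Type} [Fintype B] {pd : B → ℕ} {ω : B → R} {H : ℕ → Submodule ℚ L}
    {HS : ℕ → Submodule ℚ R} {M m p : ℕ} (hp : p ≤ m + 1)
    (hs : ∀ q ≤ m, HS q ≤ Submodule.span ℚ {x | ∃ a, pd a = q ∧ x = ω a}) :
    ZZ jL jR H HS M p ≤ (CV (AG H M) (fun b => pd b < p)).map (Psi jL jR ω) := by
  unfold ZZ
  rw [Submodule.span_le]
  rintro e ⟨k, q, a, b, hk, hq, ha, hb, rfl⟩
  refine mem_Psi (q := q) (fun c hc => by omega) ?_ (hs q (by omega) hb)
  exact Submodule.subset_span ⟨k, hk, ha⟩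

theorem mul_D {H : ℕ → Submodule ℚ L} {HS : ℕ → Submodule ℚ R} {M p : ℕ}
    (h7 : ∀ k l a b, a ∈ H k → b ∈ H l → a * b ∈ H (k + l)) {e : E}
    (he : e ∈ Submodule.span ℚ {e | ∃ (k q : ℕ) (a : L) (b' : R), 2 ≤ k ∧
      k + q = p + 1 ∧ a ∈ H k ∧ b' ∈ HS q ∧ e = jL a * jR b'}) {l : L} (hl : l ∈ AG H M) :
    jL l * e ∈ ZZ jL jR H HS (M + 2) p := by
  induction he using Submodule.span_induction with
  | mem x hx =>
    obtain ⟨k, q, a, b', hk, hq, ha, hb, rfl⟩ := hx
    rw [← mul_assoc, ← map_mul]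
    refine mem_ZZ ?_ (by omega) hb
    unfold AG at hl
    induction hl using Submodule.span_induction with
    | mem y hy =>
      obtain ⟨k', hk', hy⟩ := hy
      exact Submodule.subset_span ⟨k' + k, by omega, h7 _ _ _ _ hy ha⟩
    | zero => rw [zero_mul]; exact zero_mem _
    | add y y' _ _ hy hy' => rw [add_mul]; exact add_mem hy hy'
    | smul r y _ hy => rw [smul_mul_assoc]; exact Submodule.smul_mem _ _ hy
  | zero => rw [mul_zero]; exact zero_mem _
  | add x y _ _ hx hy => rw [mul_add]; exact add_mem hx hy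
  | smul r x _ hx => rw [mul_smul_comm]; exact Submodule.smul_mem _ _ hx

theorem core {D : E →ₗ[ℚ] E} {d s : L →ₗ[ℚ] L} {H : ℕ → Submodule ℚ L} {HS : ℕ → Submodule ℚ R}
    {N : ℕ}
    (h1 : ∀ x e, D (jL x * e) = jL (d x) * e + jL (s x) * D e)
    (h2 : ∀ p, ∀ b ∈ HS p, D (jR b) ∈ Submodule.span ℚ {e | ∃ (k q : ℕ) (a : L) (b' : R), 2 ≤ k ∧
      k + q = p + 1 ∧ a ∈ H k ∧ b' ∈ HS q ∧ e = jL a * jR b'})
    (h3 : ∀ m, ∃ (B : Type) (_ : Fintype B) (pd : B → ℕ) (ω : B → R), (∀ a, pd a ≤ m) ∧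
      (∀ a, ω a ∈ HS (pd a)) ∧ LinearIndependent ℚ ω ∧
      ∀ p ≤ m, HS p ≤ Submodule.span ℚ {x | ∃ a, pd a = p ∧ x = ω a})
    (h4 : ∀ (B : Type) (_ : Fintype B) (ω : B → R), LinearIndependent ℚ ω → ∀ x : B → L,
      ∑ b, jL (x b) * jR (ω b) = 0 → ∀ b, x b = 0)
    (h5 : ∀ e, D (D e) = 0)
    (h6 : ∀ M, ∀ a ∈ AG H M, s a ∈ AG H M)
    (h7 : ∀ k l a b, a ∈ H k → b ∈ H l → a * b ∈ H (k + l))
    (h8 : ∀ x ∈ AG H (N + 1), d x = 0 → ∃ y ∈ AG H N, d y = x) :
    ∀ p, ∀ z ∈ ZZ jL jR H HS (N + 1) p, D z = 0 → ∃ u ∈ UU jL jR HS, D u = z := by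
  intro p
  induction p with
  | zero =>
    have hz0 : ∀ z ∈ ZZ jL jR H HS (N + 1) 0, z = 0 := by
      intro z hz
      unfold ZZ at hz
      induction hz using Submodule.span_induction with
      | mem x hx =>
        obtain ⟨k, q, a, b, _, hq, _⟩ := hx
        exact absurd hq (by omega)
      | zero => rfl
      | add x y _ _ hx hy => rw [hx, hy, add_zero]
      | smul r x _ hx => rw [hx, smul_zero]
    intro z hz _
    exact ⟨0, zero_mem _, by rw [map_zero, hz0 z hz]⟩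
  | succ p ih =>
    intro z hz hDz
    obtain ⟨B, _, pd, ω, hpd, hω, hli, hsp⟩ := h3 p
    obtain ⟨x, hx, rfl⟩ := ZZ_le (ω := ω) (pd := pd) le_rfl hsp hz
    -- the formula for `D (Ψ x)`
    have hDP : ∀ x : B → L, D (Psi jL jR ω x) =
        Psi jL jR ω (fun b => d (x b)) + ∑ b, jL (s (x b)) * D (jR (ω b)) := by
      intro x
      rw [Psi_apply, Psi_apply, map_sum, ← Finset.sum_add_distrib]
      exact Finset.sum_congr rfl fun b _ => h1 _ _
    have hmul : ∀ (M : ℕ) (l : L), l ∈ AG H M → ∀ b,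
        jL l * D (jR (ω b)) ∈ ZZ jL jR H HS (M + 2) (pd b) := fun M l hl b =>
      mul_D h7 (h2 _ _ (hω b)) hl
    -- the top coefficients are closed
    have htop : ∀ b, pd b = p → d (x b) = 0 := by
      have hw : ∑ b, jL (s (x b)) * D (jR (ω b)) ∈
          (CV (AG H 0) (fun b => pd b < p)).map (Psi jL jR ω) := by
        refine ZZ_le (m := p) (by omega) hsp ?_
        refine Submodule.sum_mem _ fun b _ => ?_
        exact ZZ_mono (Nat.zero_le _) (hpd b) (hmul (N + 1) _ (h6 _ _ (hx b).1) b)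
      obtain ⟨w, hw, hw2⟩ := hw
      have h := hDP x
      rw [hDz, ← hw2, ← map_add] at h
      intro b hb
      have h' := h4 B _ ω hli _ h.symm b
      rw [Pi.add_apply, (hw b).2 (by omega), add_zero] at h'
      exact h'
    have hy : ∀ b, ∃ y ∈ AG H N, (pd b = p → d y = x b) ∧ (pd b ≠ p → y = 0) := by
      intro b
      by_cases hb : pd b = p
      · obtain ⟨y, hy, hyd⟩ := h8 _ (hx b).1 (htop b hb)
        exact ⟨y, hy, fun _ => hyd, fun h => absurd hb h⟩
      · exact ⟨0, zero_mem _, fun h => absurd h hb, fun _ => rfl⟩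
    choose y hyA hyd hy0 using hy
    have hv : Psi jL jR ω y ∈ UU jL jR HS := by
      rw [Psi_apply]
      exact Submodule.sum_mem _ fun b _ => mem_UU (hω b)
    have hz' : Psi jL jR ω x - D (Psi jL jR ω y) ∈ ZZ jL jR H HS (N + 1) p := by
      rw [hDP y, ← sub_sub, ← map_sub]
      refine sub_mem ?_ ?_
      · rw [Psi_apply]
        refine Submodule.sum_mem _ fun b _ => ?_
        by_cases hb : pd b = p
        · rw [Pi.sub_apply, hyd b hb, sub_self, map_zero, zero_mul]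
          exact zero_mem _
        · rw [Pi.sub_apply, hy0 b hb, map_zero, sub_zero]
          exact mem_ZZ (hx b).1 (lt_of_le_of_ne (hpd b) hb) (hω b)
      · refine Submodule.sum_mem _ fun b _ => ?_
        exact ZZ_mono (by omega) (hpd b) (hmul N _ (h6 _ _ (hyA b)) b)
    obtain ⟨u, hu, hDu⟩ := ih _ hz' (by rw [map_sub, hDz, h5, sub_zero])
    refine ⟨u + Psi jL jR ω y, add_mem hu hv, ?_⟩
    rw [map_add, hDu, sub_add_cancel]

end core

end AcyH

variable {ι : Type} {deg : ι → ℕ}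

theorem d_pr {d : Lam deg →ₗ[ℚ] Lam deg} (hd : IsDifferential (hom deg) d) (n : ℕ) (a : Lam deg) :
    d (pr deg n a) = pr deg (n + 1) (d a) := by
  induction a using Lam.induction with
  | hm l =>
    rw [pr_hom deg (mon_mem_hom deg l), pr_hom deg (hd.map_hom _ _ (mon_mem_hom deg l))]
    by_cases h : degSum deg l = n
    · rw [if_pos h, if_pos (by rw [h])]
    · rw [if_neg h, if_neg (by omega), map_zero]
  | h0 => rw [map_zero, map_zero, map_zero]
  | hadd a b ha hb => rw [map_add, map_add, ha, hb, map_add, map_add]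
  | hsmul r a ha => rw [map_smul, map_smul, ha, map_smul, map_smul]

theorem pr_AG {M n : ℕ} (hn : n < M) {a : Lam deg} (ha : a ∈ AcyH.AG (hom deg) M) :
    pr deg n a = 0 := by
  unfold AcyH.AG at ha
  induction ha using Submodule.span_induction with
  | mem x hx =>
    obtain ⟨k, hk, hx⟩ := hx
    rw [pr_hom deg hx, if_neg (by omega)]
  | zero => rw [map_zero]
  | add x y _ _ hx hy => rw [map_add, hx, hy, add_zero]
  | smul r x _ hx => rw [map_smul, hx, smul_zero]

theorem exists_dAG {d : Lam deg →ₗ[ℚ] Lam deg} (hd : IsDifferential (hom deg) d) {N : ℕ}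
    (hN : VanAbove (hom deg) d N) {x : Lam deg} (hx : x ∈ AcyH.AG (hom deg) (N + 1))
    (hdx : d x = 0) : ∃ y ∈ AcyH.AG (hom deg) N, d y = x := by
  obtain ⟨M, hM⟩ := sum_pr deg x
  have h : ∀ n, ∃ y ∈ AcyH.AG (hom deg) N, d y = pr deg n x := by
    intro n
    by_cases hn : N < n
    · obtain ⟨y, hy, hdy⟩ := hN n hn (pr deg n x) (pr_mem deg n x)
        (by rw [d_pr hd, hdx, map_zero])
      exact ⟨y, Submodule.subset_span ⟨n - 1, by omega, hy⟩, hdy⟩
    · exact ⟨0, zero_mem _, by rw [map_zero, pr_AG (by omega) hx]⟩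
  choose y hy hdy using h
  refine ⟨∑ n ∈ Finset.range M, y n, Submodule.sum_mem _ fun n _ => hy n, ?_⟩
  rw [map_sum]
  refine Eq.trans (Finset.sum_congr rfl fun n _ => hdy n) (hM M le_rfl).symm

theorem acy {ι : Type} [Finite ι] {deg : ι → ℕ} {S : MinimalSullivan deg}
    {D : Lam (sd deg) →ₗ[ℚ] Lam (sd deg)} {σ : ι → Lam (sd deg)} (h : AC S D σ) {N : ℕ}
    (hN : VanAbove (hom deg) S.d N) (n : ℕ) {z : Lam (sd deg)}
    (hz : z ∈ Submodule.span ℚ {e | ∃ (k q : ℕ) (a : Lam deg) (b : Lam (fun i => deg i - 1)),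
      N < k ∧ a ∈ hom deg k ∧ b ∈ homS (fun i => deg i - 1) {i | deg i < n} q ∧
      e = iL deg (fun i => deg i - 1) a * iR deg (fun i => deg i - 1) b})
    (hDz : D z = 0) :
    ∃ u ∈ Submodule.span ℚ {e | ∃ (q : ℕ) (a : Lam deg) (b : Lam (fun i => deg i - 1)),
      b ∈ homS (fun i => deg i - 1) {i | deg i < n} q ∧
      e = iL deg (fun i => deg i - 1) a * iR deg (fun i => deg i - 1) b}, D u = z := by
  have hz' : ∃ p, z ∈ AcyH.ZZ (iL deg (fun i => deg i - 1)) (iR deg (fun i => deg i - 1)).toLinearMap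
      (hom deg) (homS (fun i => deg i - 1) {i | deg i < n}) (N + 1) p := by
    clear hDz
    induction hz using Submodule.span_induction with
    | mem x hx =>
      obtain ⟨k, q, a, b, hk, ha, hb, rfl⟩ := hx
      exact ⟨q + 1, Submodule.subset_span ⟨k, q, a, b, hk, by omega, ha, hb, rfl⟩⟩
    | zero => exact ⟨0, zero_mem _⟩
    | add x y _ _ hx hy =>
      obtain ⟨p, hp⟩ := hx
      obtain ⟨q, hq⟩ := hy
      exact ⟨max p q, add_mem
        (AcyH.ZZ_mono (E := Lam (Sum.elim deg (fun i => deg i - 1))) le_rfl (le_max_left _ _) hp)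
        (AcyH.ZZ_mono (E := Lam (Sum.elim deg (fun i => deg i - 1))) le_rfl (le_max_right _ _) hq)⟩
    | smul r x _ hx =>
      obtain ⟨p, hp⟩ := hx
      exact ⟨p, Submodule.smul_mem _ _ hp⟩
  obtain ⟨p, hz'⟩ := hz'
  let D' : Lam (Sum.elim deg (fun i => deg i - 1)) →ₗ[ℚ] Lam (Sum.elim deg (fun i => deg i - 1)) := D
  have key := AcyH.core (E := Lam (Sum.elim deg (fun i => deg i - 1)))
    (jL := iL deg (fun i => deg i - 1))
    (jR := (iR deg (fun i => deg i - 1)).toLinearMap) (D := D') (d := S.d)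
    (s := (sgn deg).toLinearMap) (H := hom deg)
    (HS := homS (fun i => deg i - 1) {i | deg i < n}) (N := N)
    ?_ ?_ ?_ ?_ ?_ ?_ ?_ ?_
  · obtain ⟨u, hu, hDu⟩ := key p z hz' hDz
    refine ⟨u, ?_, hDu⟩
    refine Submodule.span_mono ?_ hu
    rintro e ⟨q, a, b, hb, rfl⟩
    exact ⟨q, a, b, hb, rfl⟩
  · intro x e
    have h1 := d_mul h.diff (iL deg (fun i => deg i - 1) x) e
    have h2 : iL deg (fun i => deg i - 1) (sgn deg x) =
      sgn (sd deg) (iL deg (fun i => deg i - 1) x) :=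
        mapL_sgn (deg := Sum.elim deg (fun i => deg i - 1)) (f := Sum.inl) (fun _ => rfl) x
    have h3 := h.ext x
    have h4 : (sgn deg).toLinearMap x = sgn deg x := rfl
    rw [h4, h2, ← h3]
    exact h1
  · intro p b hb
    exact d_iR h n p hb
  · intro m
    refine exists_basisS _ (fun i => ?_) _ (Set.toFinite _) m
    have := S.two_le i
    omega
  · intro B _ ω hω x hx b
    exact iLR_indep deg _ hω x hx b
  · exact h.diff.d_d
  · intro M a ha
    unfold AcyH.AG at ha ⊢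
    induction ha using Submodule.span_induction with
    | mem x hx =>
      obtain ⟨k, hk, hx⟩ := hx
      have h4 : (sgn deg).toLinearMap x = sgn deg x := rfl
      rw [h4, sgn_hom deg hx]
      exact Submodule.smul_mem _ _ (Submodule.subset_span ⟨k, hk, hx⟩)
    | zero => rw [map_zero]; exact zero_mem _
    | add x y _ _ hx hy => rw [map_add]; exact add_mem hx hy
    | smul r x _ hx => rw [map_smul]; exact Submodule.smul_mem _ _ hx
  · intro k l a b ha hb
    exact mul_mem_hom deg ha hb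
  · intro x hx hdx
    exact exists_dAG S.isDifferential hN hx hdx

end Anick2
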