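import Pool.Agent.Helper98.RD.Stat
import Pool.Agent.Helper2.AN.Final

/-!
# The reduction theorem for Anick's conjecture: definitions for the proof

`E = Lam (sd deg) = ΛW ⊗ ΛsW`, `Sum.inl i` the generator `w_i`, `Sum.inr i` the generator `sw_i` of
degree `deg i - 1`.
-/

set_option autoImplicit false

namespace Anick2

/-- The degrees of the generators `w_i` (`Sum.inl i`) and `sw_i` (`Sum.inr i`). -/
def sd {ι : Type} (deg : ι → ℕ) : ι ⊕ ι → ℕ := Sum.elim deg (fun i => deg i - 1)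

/-- The inclusion `ΛW → ΛW ⊗ ΛV`. -/
noncomputable def iL {ι κ : Type} (deg : ι → ℕ) (deg' : κ → ℕ) :
    Lam deg →ₐ[ℚ] Lam (Sum.elim deg deg') :=
  mapL Sum.inl (fun _ => rfl)

/-- The inclusion `ΛV → ΛW ⊗ ΛV`. -/
noncomputable def iR {ι κ : Type} (deg : ι → ℕ) (deg' : κ → ℕ) :
    Lam deg' →ₐ[ℚ] Lam (Sum.elim deg deg') :=
  mapL Sum.inr (fun _ => rfl)

/-- The span of the monomials `mon l` with `p l`. -/
noncomputable def SP {ι : Type} (deg : ι → ℕ) (p : List ι → Prop) : Submodule ℚ (Lam deg) :=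
  Submodule.span ℚ {a | ∃ l : List ι, p l ∧ a = mon deg l}

/-- The number of letters `w_j` of a monomial. -/
def cW {ι κ : Type} (l : List (ι ⊕ κ)) : ℕ := (l.filter (fun x => x.isLeft)).length

/-- The number of letters `sw_j` of a monomial. -/
def cS {ι κ : Type} (l : List (ι ⊕ κ)) : ℕ := (l.filter (fun x => x.isRight)).length

/-- `cdeg deg (w_j) = cdeg deg (sw_j) = deg j`. -/
def cdeg {ι : Type} (deg : ι → ℕ) : ι ⊕ ι → ℕ := Sum.elim deg deg

/-- The conclusion of Lemma AC: `D` is a differential of `ΛW ⊗ ΛsW` which extends `d`, with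
`D (sw_i) = w_i - σ_i`, `σ_i` a combination of monomials of degree `deg i` in the letters `w_j`,
`sw_j` with `deg j < deg i` which contain at least one letter `w_j` and at least one letter `sw_j`. -/
structure AC {ι : Type} {deg : ι → ℕ} (S : MinimalSullivan deg)
    (D : Lam (sd deg) →ₗ[ℚ] Lam (sd deg)) (σ : ι → Lam (sd deg)) : Prop where
  diff : IsDifferential (hom (sd deg)) D
  ext : ∀ a, D (iL deg (fun i => deg i - 1) a) = iL deg (fun i => deg i - 1) (S.d a)
  ds : ∀ i, D (gen (sd deg) (Sum.inr i)) = gen (sd deg) (Sum.inl i) - σ i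
  mem : ∀ i, σ i ∈ SP (sd deg) (fun l => degSum (sd deg) l = deg i ∧ 1 ≤ cW l ∧ 1 ≤ cS l ∧
    ∀ x ∈ l, cdeg deg x < deg i)

/-- The cohomology of `(A, d)` vanishes in the degrees `> N`. -/
def VanAbove {A : Type} [Ring A] [Algebra ℚ A] (H : ℕ → Submodule ℚ A) (d : A →ₗ[ℚ] A) (N : ℕ) :
    Prop :=
  ∀ k, N < k → ∀ x ∈ H k, d x = 0 → ∃ y ∈ H (k - 1), d y = x

end Anick2
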