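import Pool.Agent.Helper98.RD.Perm
import Pool.Agent.Helper98.RD.Univ
import Pool.Agent.Helper98.RD.MatEx

/-!
RD-16. The reduction theorem.

Proof. (1) is `perm`. (2) `U` from `exists_univ` (choice). `→`: `UI N` is finite. `←`: `exists_mat`, `exists_mapU` give `N`, `J : ΛU_N → ΛW`;
`EvenOnto S (U N) J`: `gen i` is in the span of the `X a b` with `pd a - pd b + 1 = deg i`, each of them is `J u`, `u ∈ hom (udeg N) (deg i)`, so
`gen i = J a` with `a ∈ hom (udeg N) (deg i)` (submodule `(hom ..).map J`), and `J a - gen i = 0 ∈ decomp`. Apply `perm`.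
-/

set_option autoImplicit false

namespace Anick2

theorem reduction :
    (∀ {ι κ : Type} [Finite ι] [Finite κ] {deg : ι → ℕ} {deg' : κ → ℕ} (S : MinimalSullivan deg)
      (T : MinimalSullivan deg') (J : Lam deg' →ₐ[ℚ] Lam deg), EvenOnto S T J →
        ∀ n, T.GoodAt n → S.GoodAt n) ∧
    ∃ U : ∀ N, MinimalSullivan (udeg N), (∀ N, IsUniv N (U N)) ∧
      ∀ n, (∀ (ι : Type) [Finite ι] (deg : ι → ℕ) (S : MinimalSullivan deg), S.GoodAt n) ↔
        ∀ N, (U N).GoodAt n := by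
  refine ⟨fun S T J hJ n h => perm S T hJ n h, ?_⟩
  choose U hU using exists_univ
  refine ⟨U, hU, fun n => ⟨fun H N => H (UI N) (udeg N) (U N), fun H ι _ deg S => ?_⟩⟩
  obtain ⟨B, hB, pd, X, hX, hgen⟩ := exists_mat S
  obtain ⟨N, hN⟩ := exists_mapU S hX
  obtain ⟨J, hJh, hJd, hJX⟩ := hN (U N) (hU N)
  refine perm S (U N) (J := J) ⟨hJh, hJd, fun i _ => ?_⟩ n (H N)
  have h1 : Submodule.span ℚ {x | ∃ a b, pd b < pd a ∧ pd a - pd b + 1 = deg i ∧ x = X a b} ≤
      (hom (udeg N) (deg i)).map J.toLinearMap := by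
    rw [Submodule.span_le]
    rintro x ⟨a, b, hab, hd, rfl⟩
    obtain ⟨u, hu, hJu⟩ := hJX a b hab
    rw [hd] at hu
    exact ⟨u, hu, hJu⟩
  obtain ⟨a, ha, hJa⟩ := h1 (hgen i)
  refine ⟨a, ha, ?_⟩
  have h2 : J a = gen deg i := hJa
  rw [h2, sub_self]
  exact zero_mem _

end Anick2
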