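import Pool.Agent.Helper98.RD.Perm
import Pool.Agent.Helper98.RD.Univ
import Pool.Agent.Helper98.RD.MatEx

/-!
RD-17. The reduction theorem, in the strongest form: every finite Postnikov piece is, up to an
injection on homotopy, in one of the universal coformal ones, and inherits its elliptic
approximations.
-/

set_option autoImplicit false

namespace Anick2

theorem reduction2 :
    ∃ U : ∀ N, MinimalSullivan (udeg N), (∀ N, IsUniv N (U N)) ∧
      ∀ (ι : Type) [Finite ι] (deg : ι → ℕ) (S : MinimalSullivan deg), ∃ N,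
        (∃ J : Lam (udeg N) →ₐ[ℚ] Lam deg, (∀ n, ∀ a ∈ hom (udeg N) n, J a ∈ hom deg n) ∧
          (∀ a, S.d (J a) = J ((U N).d a)) ∧ Function.Surjective J) ∧
        ∀ n, (U N).GoodAt n → S.GoodAt n := by
  choose U hU using exists_univ
  refine ⟨U, hU, fun ι _ deg S => ?_⟩
  obtain ⟨B, hB, pd, X, hX, hgen⟩ := exists_mat S
  obtain ⟨N, hN⟩ := exists_mapU S hX
  obtain ⟨J, hJh, hJd, hJX⟩ := hN (U N) (hU N)
  have hg : ∀ i, ∃ a ∈ hom (udeg N) (deg i), J a = gen deg i := by
    intro i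
    have h1 : Submodule.span ℚ {x | ∃ a b, pd b < pd a ∧ pd a - pd b + 1 = deg i ∧ x = X a b} ≤
        (hom (udeg N) (deg i)).map J.toLinearMap := by
      rw [Submodule.span_le]
      rintro x ⟨a, b, hab, hd, rfl⟩
      obtain ⟨u, hu, hJu⟩ := hJX a b hab
      rw [hd] at hu
      exact ⟨u, hu, hJu⟩
    obtain ⟨a, ha, hJa⟩ := h1 (hgen i)
    exact ⟨a, ha, hJa⟩
  refine ⟨N, ⟨J, hJh, hJd, ?_⟩, fun n h => perm S (U N) (J := J) ⟨hJh, hJd, fun i _ => ?_⟩ n h⟩
  · intro x
    induction x using Lam.induction with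
    | hm l =>
      induction l with
      | nil => exact ⟨1, by rw [map_one]; rfl⟩
      | cons i l ih =>
        obtain ⟨b, hb⟩ := ih
        obtain ⟨a, _, ha⟩ := hg i
        refine ⟨a * b, ?_⟩
        rw [map_mul, ha, hb]
        rfl
    | h0 => exact ⟨0, map_zero J⟩
    | hadd a b ha hb =>
      obtain ⟨a', ha'⟩ := ha
      obtain ⟨b', hb'⟩ := hb
      exact ⟨a' + b', by rw [map_add, ha', hb']⟩
    | hsmul r a ha =>
      obtain ⟨a', ha'⟩ := ha
      exact ⟨r • a', by rw [map_smul, ha']⟩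
  · obtain ⟨a, ha, hJa⟩ := hg i
    refine ⟨a, ha, ?_⟩
    rw [hJa, sub_self]
    exact zero_mem _

end Anick2
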