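import Pool.Agent.Helper98.RD.Core

/-!
RD-14. A flat triangular matrix over `(ΛW, d)` gives a morphism from a universal coformal algebra.

Proof. `N = max (max of pd) (card B)`; an injection `j : B → UB N`, `(j a).1 = pd a` (the second component is an injection
`B → Fin N`, e.g. through `Fintype.equivFin B` and `card B ≤ N`). Values: for `p = ⟨(a', b'), _⟩ : UI N` put `v p = -X a b` if `a' = j a`,
`b' = j b`, and `v p = 0` if `a'` or `b'` is not in the range of `j` (e.g. `Function.invFun`/`Classical`, or `∑ a, ∑ b, if j a = a' ∧ j b = b' then -X a b else 0`).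
`v p ∈ hom deg (udeg N p)`, so `J = Lam.lift` exists (relations: `hom_comm`), preserves degrees, `J (ux (j a) (j b)) = -X a b` for all `a b`
(both `0` if `¬ pd b < pd a`). `S.d (J x) = J (U.d x)`: `S.d ∘ J` and `J ∘ U.d` are both `J`-derivations, so check on generators:
`J (U.d (ux a' b')) = ∑_c' (-1)^(|a'| + |c'| + 1) J (ux a' c') J (ux c' b')`: for `a' = j a`, `b' = j b` only `c' = j c` contribute:
`∑_c (-1)^(pd a + pd c + 1) X a c * X c b = -S.d (X a b) = S.d (J (ux a' b'))` by `flat`; if `a'` or `b'` is not in the range all terms vanish.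
Last statement: `u = -ux (j a) (j b)`.
-/

set_option autoImplicit false

namespace Anick2

attribute [local irreducible] instRingLam

section
variable {ι₁ ι₂ : Type} {deg₁ : ι₁ → ℕ} {deg₂ : ι₂ → ℕ}

private theorem mu_gr {F : Lam deg₁ →ₐ[ℚ] Lam deg₂}
    (hF : ∀ i, F (gen deg₁ i) ∈ hom deg₂ (deg₁ i)) (n : ℕ) (a : Lam deg₁) (ha : a ∈ hom deg₁ n) :
    F a ∈ hom deg₂ n := by
  have key : ∀ l : List ι₁, F (mon deg₁ l) ∈ hom deg₂ (degSum deg₁ l) := by
    intro l
    induction l with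
    | nil =>
      rw [mon_nil, map_one]
      exact mon_mem_hom deg₂ []
    | cons i l ih =>
      rw [mon_cons, map_mul, degSum_cons]
      exact mul_mem_hom _ (hF i) ih
  refine hom_induction _ (C := fun a => F a ∈ hom deg₂ n) (fun l hl => ?_) ?_
    (fun a b ha hb => by rw [map_add]; exact add_mem ha hb)
    (fun r a ha => by rw [map_smul]; exact Submodule.smul_mem _ _ ha) ha
  · rw [← hl]; exact key l
  · rw [map_zero]; exact zero_mem _

private theorem mu_sgn {F : Lam deg₁ →ₐ[ℚ] Lam deg₂}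
    (hF : ∀ i, F (gen deg₁ i) ∈ hom deg₂ (deg₁ i)) (a : Lam deg₁) :
    F (sgn deg₁ a) = sgn deg₂ (F a) := by
  have : F.comp (sgn deg₁) = (sgn deg₂).comp F := by
    refine Lam.algHom_ext _ fun i => ?_
    rw [AlgHom.comp_apply, AlgHom.comp_apply, sgn_gen, map_smul, sgn_hom deg₂ (hF i)]
  exact congrArg (fun g : Lam deg₁ →ₐ[ℚ] Lam deg₂ => g a) this

private theorem mu_comm {F : Lam deg₁ →ₐ[ℚ] Lam deg₂}
    (hF : ∀ i, F (gen deg₁ i) ∈ hom deg₂ (deg₁ i))
    {d₁ : Lam deg₁ →ₗ[ℚ] Lam deg₁} {d₂ : Lam deg₂ →ₗ[ℚ] Lam deg₂}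
    (h1 : d₁ 1 = 0) (h2 : d₂ 1 = 0)
    (m1 : ∀ a b, d₁ (a * b) = d₁ a * b + sgn deg₁ a * d₁ b)
    (m2 : ∀ a b, d₂ (a * b) = d₂ a * b + sgn deg₂ a * d₂ b)
    (hg : ∀ i, d₂ (F (gen deg₁ i)) = F (d₁ (gen deg₁ i))) (a : Lam deg₁) :
    d₂ (F a) = F (d₁ a) := by
  have : d₂.comp F.toLinearMap = F.toLinearMap.comp d₁ := by
    refine Lam.linearMap_ext _ fun l => ?_
    rw [LinearMap.comp_apply, LinearMap.comp_apply, AlgHom.toLinearMap_apply,
      AlgHom.toLinearMap_apply]
    induction l with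
    | nil => rw [mon_nil, map_one, h1, h2, map_zero]
    | cons i l ih =>
      rw [mon_cons, map_mul, m1, m2, ih, hg, map_add, map_mul, map_mul, mu_sgn hF]
  exact congrArg (fun g : Lam deg₁ →ₗ[ℚ] Lam deg₂ => g a) this

end

private theorem mu_pos {N : ℕ} {a b : UB N} (h : b.1 < a.1) :
    ux N a b = gen (udeg N) ⟨(a, b), h⟩ := by
  unfold ux
  rw [dif_pos h]

private theorem mu_neg {N : ℕ} {a b : UB N} (h : ¬ b.1 < a.1) : ux N a b = 0 := by
  unfold ux
  rw [dif_neg h]

/-- `X` is a flat strictly triangular matrix over `(ΛW, d)`, `X a b` of degree `pd a - pd b + 1`. -/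
structure IsMat {ι : Type} {deg : ι → ℕ} (S : MinimalSullivan deg) {B : Type} [Fintype B]
    (pd : B → ℕ) (X : B → B → Lam deg) : Prop where
  mem : ∀ a b, pd b < pd a → X a b ∈ hom deg (pd a - pd b + 1)
  zero : ∀ a b, ¬ pd b < pd a → X a b = 0
  flat : ∀ a b, S.d (X a b) = -∑ c, (-1 : ℚ) ^ (pd a + pd c + 1) • (X a c * X c b)

theorem exists_mapU {ι : Type} {deg : ι → ℕ} (S : MinimalSullivan deg) {B : Type} [Fintype B]
    {pd : B → ℕ} {X : B → B → Lam deg} (h : IsMat S pd X) :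
    ∃ N, ∀ U : MinimalSullivan (udeg N), IsUniv N U → ∃ J : Lam (udeg N) →ₐ[ℚ] Lam deg,
      (∀ n, ∀ a ∈ hom (udeg N) n, J a ∈ hom deg n) ∧ (∀ a, S.d (J a) = J (U.d a)) ∧
      ∀ a b, pd b < pd a → ∃ u ∈ hom (udeg N) (pd a - pd b + 1), J u = X a b := by
  classical
  -- the injection of `B`
  have hle : ∀ a, pd a < (∑ b, pd b) + Fintype.card B + 1 := fun a => by
    have := Finset.single_le_sum (f := pd) (fun b _ => Nat.zero_le _) (Finset.mem_univ a)
    omega
  have hlt : ∀ a, ((Fintype.equivFin B a : Fin (Fintype.card B)) : ℕ) <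
      (∑ b, pd b) + Fintype.card B := fun a => by
    have := (Fintype.equivFin B a).2
    omega
  refine ⟨(∑ b, pd b) + Fintype.card B, fun U hU => ?_⟩
  generalize (∑ b, pd b) + Fintype.card B = N at hle hlt U hU
  let j : B → UB N := fun a => (⟨pd a, hle a⟩, ⟨(Fintype.equivFin B a : ℕ), hlt a⟩)
  have hj : Function.Injective j := by
    intro a b hab
    have h1 : ((Fintype.equivFin B a : Fin (Fintype.card B)) : ℕ) = (Fintype.equivFin B b : ℕ) :=
      congrArg (fun z : UB N => (z.2 : ℕ)) hab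
    exact (Fintype.equivFin B).injective (Fin.ext h1)
  have hj1 : ∀ a, ((j a).1 : ℕ) = pd a := fun a => rfl
  -- the values
  let V : UB N → UB N → Lam deg := Function.extend j
    (fun a => Function.extend j (X a) (fun _ => 0)) (fun _ _ => 0)
  have hV : ∀ a b, V (j a) (j b) = X a b := by
    intro a b
    have h1 : V (j a) = Function.extend j (X a) (fun _ => 0) := hj.extend_apply _ _ a
    rw [h1]
    exact hj.extend_apply _ _ b
  have hVl : ∀ a' b', a' ∉ Set.range j → V a' b' = 0 := by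
    intro a' b' ha'
    have h1 : V a' = fun _ => 0 := Function.extend_apply' _ _ a' ha'
    rw [h1]
  have hVr : ∀ a' b', b' ∉ Set.range j → V a' b' = 0 := by
    intro a' b' hb'
    by_cases ha' : a' ∈ Set.range j
    · obtain ⟨a, rfl⟩ := ha'
      have h1 : V (j a) = Function.extend j (X a) (fun _ => 0) := hj.extend_apply _ _ a
      rw [h1]
      exact Function.extend_apply' _ _ b' hb'
    · exact hVl a' b' ha'
  have hVn : ∀ a' b' : UB N, ¬ b'.1 < a'.1 → V a' b' = 0 := by
    intro a' b' hab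
    by_cases ha' : a' ∈ Set.range j
    · by_cases hb' : b' ∈ Set.range j
      · obtain ⟨a, rfl⟩ := ha'
        obtain ⟨b, rfl⟩ := hb'
        rw [hV]
        exact h.zero a b hab
      · exact hVr a' b' hb'
    · exact hVl a' b' ha'
  have hVm : ∀ a' b' : UB N, b'.1 < a'.1 → V a' b' ∈ hom deg ((a'.1 : ℕ) - (b'.1 : ℕ) + 1) := by
    intro a' b' hab
    by_cases ha' : a' ∈ Set.range j
    · by_cases hb' : b' ∈ Set.range j
      · obtain ⟨a, rfl⟩ := ha'
        obtain ⟨b, rfl⟩ := hb'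
        rw [hV]
        exact h.mem a b hab
      · rw [hVr a' b' hb']; exact zero_mem _
    · rw [hVl a' b' ha']; exact zero_mem _
  have hv : ∀ p : UI N, -V p.1.1 p.1.2 ∈ hom deg (udeg N p) := fun p =>
    neg_mem (hVm p.1.1 p.1.2 p.2)
  let J : Lam (udeg N) →ₐ[ℚ] Lam deg :=
    Lam.lift (udeg N) (fun p => -V p.1.1 p.1.2) (fun p q => hom_comm _ (hv p) (hv q))
  have hJg : ∀ p : UI N, J (gen _ p) = -V p.1.1 p.1.2 := fun p => Lam.lift_gen _ _ _ p
  have hJm : ∀ p : UI N, J (gen _ p) ∈ hom deg (udeg N p) := fun p => by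
    rw [hJg]; exact hv p
  have hJu : ∀ a' b' : UB N, J (ux N a' b') = -V a' b' := by
    intro a' b'
    by_cases hab : b'.1 < a'.1
    · rw [mu_pos hab, hJg]
    · rw [mu_neg hab, map_zero, hVn a' b' hab, neg_zero]
  -- the differential
  have hd : ∀ a' b' : UB N, S.d (-V a' b') = J (U.d (ux N a' b')) := by
    intro a' b'
    have h1 : J (U.d (ux N a' b')) =
        ∑ c' : UB N, (-1 : ℚ) ^ ((a'.1 : ℕ) + (c'.1 : ℕ) + 1) • (V a' c' * V c' b') := by
      rw [hU a' b', map_sum]
      refine Finset.sum_congr rfl fun c' _ => ?_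
      rw [map_smul, map_mul, hJu, hJu, neg_mul_neg]
    rw [h1, map_neg]
    by_cases ha' : a' ∈ Set.range j
    · by_cases hb' : b' ∈ Set.range j
      · obtain ⟨a, rfl⟩ := ha'
        obtain ⟨b, rfl⟩ := hb'
        rw [hV, h.flat, neg_neg]
        refine Fintype.sum_of_injective j hj _ _ (fun c' hc' => ?_) (fun c => ?_)
        · rw [hVl c' _ hc', mul_zero, smul_zero]
        · rw [hV, hV]
      · rw [hVr a' b' hb', map_zero, neg_zero]
        symm
        refine Finset.sum_eq_zero fun c' _ => ?_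
        rw [hVr c' b' hb', mul_zero, smul_zero]
    · rw [hVl a' b' ha', map_zero, neg_zero]
      symm
      refine Finset.sum_eq_zero fun c' _ => ?_
      rw [hVl a' c' ha', zero_mul, smul_zero]
  refine ⟨J, fun n a ha => mu_gr hJm n a ha, fun a => ?_, fun a b hab => ?_⟩
  · refine mu_comm hJm (d_one U.isDifferential) (d_one S.isDifferential)
      (d_mul U.isDifferential) (d_mul S.isDifferential) (fun p => ?_) a
    rw [hJg]
    have h2 := hd p.1.1 p.1.2
    rw [mu_pos p.2] at h2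
    exact h2
  · have hab' : (j b).1 < (j a).1 := hab
    refine ⟨-ux N (j a) (j b), ?_, ?_⟩
    · rw [mu_pos hab']
      exact neg_mem (gen_mem_hom (udeg N) ⟨(j a, j b), hab'⟩)
    · rw [map_neg, hJu, hV, neg_neg]

end Anick2
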