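import Pool.Agent.Helper98.RD.Core

/-!
RD-08. Finite-dimensional cohomology vanishes in high degrees.

Proof. The quotient is spanned by the classes of finitely many cocycles `z_1, .., z_r`; each is a finite sum of
homogeneous elements (`sum_pr`), take `N` with `pr deg k z_j = 0` for all `k > N` and all `j`. For `x ∈ hom deg k`, `k > N`,
`d x = 0`: `x = ∑ c_j z_j + d y`; apply `pr deg k`: `x = d (pr deg (k - 1) y)` (`d` has degree `1`: `pr deg k (d y) = d (pr deg (k-1) y)`,
see `der_pr`/`d_prT`; by `sum_pr` for `y`).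
-/

set_option autoImplicit false

namespace Anick2

theorem van_d_pr {ι : Type} {deg : ι → ℕ} {d : Lam deg →ₗ[ℚ] Lam deg}
    (hd : IsDifferential (hom deg) d) (e : ℕ) (a : Lam deg) :
    d (pr deg e a) = pr deg (e + 1) (d a) := by
  induction a using Lam.induction with
  | hm l =>
    rw [pr_hom deg (mon_mem_hom deg l), pr_hom deg (hd.map_hom _ _ (mon_mem_hom deg l))]
    by_cases h : degSum deg l = e <;> simp [h]
  | h0 => rw [map_zero, map_zero, map_zero]
  | hadd a b ha hb => rw [map_add, map_add, ha, hb, map_add, map_add]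
  | hsmul r a ha => rw [map_smul, map_smul, ha, map_smul, map_smul]

theorem van_pr_zero {ι : Type} (deg : ι → ℕ) (a : Lam deg) :
    ∃ N, ∀ k, N ≤ k → pr deg k a = 0 := by
  obtain ⟨N, hN⟩ := sum_pr deg a
  refine ⟨N, fun k hk => ?_⟩
  have h1 := hN k hk
  have h2 := hN (k + 1) (by omega)
  rw [Finset.sum_range_succ, ← h1] at h2
  exact left_eq_add.1 h2

theorem van_of_cohFin {ι : Type} {deg : ι → ℕ} (S : MinimalSullivan deg) (h : CohFin S.d) :
    ∃ N, VanAbove (hom deg) S.d N := by
  have hd := S.isDifferential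
  obtain ⟨s, hs⟩ := Module.Finite.fg_top (self := h)
  choose B hB using fun a : Lam deg => van_pr_zero deg a
  choose z hz using Submodule.mkQ_surjective
    ((LinearMap.range S.d).comap (LinearMap.ker S.d).subtype)
  refine ⟨s.sup (fun q => B (z q : Lam deg)), ?_⟩
  set N := s.sup (fun q => B (z q : Lam deg)) with hN
  have key : ∀ q : LinearMap.ker S.d ⧸ (LinearMap.range S.d).comap (LinearMap.ker S.d).subtype,
      ∃ w : LinearMap.ker S.d, ((LinearMap.range S.d).comap (LinearMap.ker S.d).subtype).mkQ w = q ∧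
        ∀ k, N < k → pr deg k (w : Lam deg) = 0 := by
    intro q
    have hq : q ∈ Submodule.span ℚ (s : Set _) := by
      rw [hs]
      trivial
    induction hq using Submodule.span_induction with
    | mem q hq =>
      refine ⟨z q, hz q, fun k hk => hB _ k ?_⟩
      exact (Finset.le_sup (f := fun q => B (z q : Lam deg)) hq).trans hk.le
    | zero => exact ⟨0, map_zero _, fun k _ => by simp⟩
    | add a b _ _ ha hb =>
      obtain ⟨wa, h1, h2⟩ := ha
      obtain ⟨wb, h3, h4⟩ := hb
      refine ⟨wa + wb, by rw [map_add, h1, h3], fun k hk => ?_⟩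
      rw [Submodule.coe_add, map_add, h2 k hk, h4 k hk, add_zero]
    | smul r a _ ha =>
      obtain ⟨wa, h1, h2⟩ := ha
      refine ⟨r • wa, by rw [map_smul, h1], fun k hk => ?_⟩
      rw [Submodule.coe_smul, map_smul, h2 k hk, smul_zero]
  intro k hk x hx hdx
  obtain ⟨w, hw, hw'⟩ := key (((LinearMap.range S.d).comap (LinearMap.ker S.d).subtype).mkQ
    ⟨x, LinearMap.mem_ker.2 hdx⟩)
  rw [Submodule.mkQ_apply, Submodule.mkQ_apply, Submodule.Quotient.eq] at hw
  obtain ⟨y, hy⟩ := hw
  change S.d y = (w : Lam deg) - x at hy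
  have h1 : pr deg k (S.d y) = -x := by
    rw [hy, map_sub, hw' k hk, pr_hom deg hx, if_pos rfl, zero_sub]
  refine ⟨-pr deg (k - 1) y, Submodule.neg_mem _ (pr_mem deg _ y), ?_⟩
  rw [map_neg, van_d_pr hd, Nat.sub_add_cancel (by omega), h1, neg_neg]

end Anick2
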