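import Pool.Agent.Helper98.RD.Acy
import Pool.Agent.Helper98.RD.Van
import Pool.Agent.Helper98.RD.ACex

/-!
RD-09. Halperin / Félix–Jessup–Murillo, the necessary direction: in a minimal Sullivan algebra with finitely
many generators and finite-dimensional cohomology every even generator is nilpotent in `H(ΛW^{≥ deg w_i}, d̄)`.

Proof. `exists_AC`, `van_of_cohFin` (`N`), `n = deg i`. `y = gen (inl i) - σ i` is `D (gen (inr i))`, so `D y = 0`. `y` is a sum of
elements `iL a * iR b` with `a` of degree `≥ 2`, `b` in the letters `sw_j`, `deg j < n` (`sigma_mem`; `gen (inl i) = iL (gen i) * iR 1`),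
and `y` is even (`sgn y = y`). The product of `N + 1` such elements is a sum of `iL a * iR b` with `a` of degree `≥ 2 (N + 1) > N`
(move `iR b` past `iL a'`), `b` in the same letters. So `z = y ^ (N + 1)` satisfies the hypotheses of `acy` (`D z = 0`: Leibniz), `z = D u`.
Let `θ : Lam (sd deg) →ₐ Lam deg`, `inl j ↦ gen j`, `inr j ↦ 0`. `θ y = gen i` (`σ i` has a letter `sw`). For `e = iL a * iR b`, `b` in the
letters `sw_j`, `deg j < n`: `θ (D e) - S.d (θ e) ∈ idealSpan (gen '' {j | deg j < n})`: for `b` of degree `0` (a scalar) both terms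
agree; induction on the monomial `b`: `θ (D (sw_j b')) = θ (gen (inl j) - σ j) θ b' - θ (sw_j) .. = gen j * θ b'` (`θ (σ j) = 0`,
`θ (sw_j) = 0`). So `gen i ^ (N + 1) = θ z = θ (D u) ∈ S.d (θ u) + idealSpan (..)`.
-/

set_option autoImplicit false

namespace Anick2

private noncomputable def ncL {ι : Type} (deg : ι → ℕ) : Lam deg →ₐ[ℚ] Lam (sd deg) :=
  iL deg (fun i => deg i - 1)

private noncomputable def ncR {ι : Type} (deg : ι → ℕ) :
    Lam (fun i => deg i - 1) →ₐ[ℚ] Lam (sd deg) :=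
  iR deg (fun i => deg i - 1)

private theorem nc_L_hom {ι : Type} (deg : ι → ℕ) {n : ℕ} {a : Lam deg}
    (ha : a ∈ hom deg n) : ncL deg a ∈ hom (sd deg) n :=
  mapL_hom (fun _ => rfl) ha

private theorem nc_R_hom {ι : Type} (deg : ι → ℕ) {n : ℕ} {b : Lam (fun i => deg i - 1)}
    (hb : b ∈ hom (fun i => deg i - 1) n) : ncR deg b ∈ hom (sd deg) n :=
  mapL_hom (fun _ => rfl) hb

private theorem nc_L_gen {ι : Type} (deg : ι → ℕ) (i : ι) :
    ncL deg (gen deg i) = gen (sd deg) (Sum.inl i) :=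
  mapL_gen (deg := sd deg) (f := Sum.inl) (fun _ => rfl) i

private theorem nc_R_gen {ι : Type} (deg : ι → ℕ) (k : ι) :
    ncR deg (gen (fun i => deg i - 1) k) = gen (sd deg) (Sum.inr k) :=
  mapL_gen (deg := sd deg) (f := Sum.inr) (fun _ => rfl) k

private theorem nc_homS_mul {κ : Type} (deg' : κ → ℕ) (T : Set κ) {p q : ℕ} {a b : Lam deg'}
    (ha : a ∈ homS deg' T p) (hb : b ∈ homS deg' T q) : a * b ∈ homS deg' T (p + q) := by
  refine homS_induction deg' (C := fun a => a * b ∈ homS deg' T (p + q)) (fun l hl hn => ?_)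
    (by rw [zero_mul]; exact zero_mem _)
    (fun a a' ha ha' => by rw [add_mul]; exact add_mem ha ha')
    (fun r a ha => by rw [smul_mul_assoc]; exact Submodule.smul_mem _ _ ha) ha
  refine homS_induction deg' (C := fun b => mon deg' l * b ∈ homS deg' T (p + q))
    (fun l' hl' hn' => ?_)
    (by rw [mul_zero]; exact zero_mem _) (fun a a' ha ha' => by rw [mul_add]; exact add_mem ha ha')
    (fun r a ha => by rw [mul_smul_comm]; exact Submodule.smul_mem _ _ ha) hb
  rw [← mon_append, ← hn, ← hn', ← degSum_append]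
  refine mon_mem_homS deg' _ fun i hi => ?_
  rcases List.mem_append.1 hi with h | h
  · exact hl i h
  · exact hl' i h

private theorem nc_one_mem {κ : Type} (deg' : κ → ℕ) (T : Set κ) :
    (1 : Lam deg') ∈ homS deg' T 0 := by
  have := mon_mem_homS deg' (S := T) [] (by simp)
  simpa using this

/-- The span of the `a ⊗ b`, `a` of degree `≥ M`, `b` in the letters `sw_j`, `deg j < n`. -/
private noncomputable def ncG {ι : Type} (deg : ι → ℕ) (n M : ℕ) : Submodule ℚ (Lam (sd deg)) :=
  Submodule.span ℚ {e | ∃ (k q : ℕ) (a : Lam deg) (b : Lam (fun i => deg i - 1)), M ≤ k ∧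
    a ∈ hom deg k ∧ b ∈ homS (fun i => deg i - 1) {i | deg i < n} q ∧
    e = ncL deg a * ncR deg b}

private theorem nc_mul {ι : Type} (deg : ι → ℕ) (n M M' : ℕ) {x y : Lam (sd deg)}
    (hx : x ∈ ncG deg n M) (hy : y ∈ ncG deg n M') : x * y ∈ ncG deg n (M + M') := by
  unfold ncG at hx
  induction hx using Submodule.span_induction with
  | mem x hx =>
    obtain ⟨k, q, a, b, hk, ha, hb, rfl⟩ := hx
    unfold ncG at hy
    induction hy using Submodule.span_induction with
    | mem y hy =>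
      obtain ⟨k', q', a', b', hk', ha', hb', rfl⟩ := hy
      have hc := hom_comm (sd deg) (nc_R_hom deg (homS_le _ _ _ hb)) (nc_L_hom deg ha')
      have e : ncL deg a * ncR deg b * (ncL deg a' * ncR deg b') =
          (-1 : ℚ) ^ (q * k') • (ncL deg (a * a') * ncR deg (b * b')) := by
        rw [mul_assoc (ncL deg a), ← mul_assoc (ncR deg b), hc, smul_mul_assoc, mul_smul_comm,
          map_mul, map_mul, mul_assoc, mul_assoc]
      rw [e]
      exact Submodule.smul_mem _ _ (Submodule.subset_span ⟨k + k', q + q', a * a', b * b',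
        by omega, mul_mem_hom deg ha ha', nc_homS_mul _ _ hb hb', rfl⟩)
    | zero => rw [mul_zero]; exact zero_mem _
    | add y z _ _ hy hz => rw [mul_add]; exact add_mem hy hz
    | smul r y _ hy => rw [mul_smul_comm]; exact Submodule.smul_mem _ _ hy
  | zero => rw [zero_mul]; exact zero_mem _
  | add y z _ _ hy hz => rw [add_mul]; exact add_mem hy hz
  | smul r y _ hy => rw [smul_mul_assoc]; exact Submodule.smul_mem _ _ hy

private theorem nc_pow {ι : Type} (deg : ι → ℕ) (n : ℕ) {y : Lam (sd deg)}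
    (hy : y ∈ ncG deg n 2) (m : ℕ) : y ^ m ∈ ncG deg n (2 * m) := by
  induction m with
  | zero =>
    rw [pow_zero]
    refine Submodule.subset_span ⟨0, 0, 1, 1, le_rfl, ?_, nc_one_mem _ _, ?_⟩
    · exact mon_mem_hom deg []
    · rw [map_one, map_one, mul_one]
  | succ m ih =>
    rw [pow_succ, Nat.mul_succ]
    exact nc_mul deg n _ _ ih hy

private noncomputable def ncT {ι : Type} (deg : ι → ℕ) : Lam (sd deg) →ₐ[ℚ] Lam deg :=
  Lam.lift (sd deg) (Sum.elim (gen deg) (fun _ => 0)) (by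
    rintro (i | i) (j | j)
    · exact gen_comm deg i j
    · simp
    · simp
    · simp)

private theorem nc_T_inl {ι : Type} (deg : ι → ℕ) (i : ι) :
    ncT deg (gen (sd deg) (Sum.inl i)) = gen deg i := by
  unfold ncT
  rw [Lam.lift_gen]
  rfl

private theorem nc_T_inr {ι : Type} (deg : ι → ℕ) (i : ι) :
    ncT deg (gen (sd deg) (Sum.inr i)) = 0 := by
  unfold ncT
  rw [Lam.lift_gen]
  rfl

private theorem nc_T_L {ι : Type} (deg : ι → ℕ) (a : Lam deg) : ncT deg (ncL deg a) = a := by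
  have h : (ncT deg).comp (ncL deg) = AlgHom.id ℚ (Lam deg) := by
    refine Lam.algHom_ext deg fun i => ?_
    rw [AlgHom.comp_apply, nc_L_gen, nc_T_inl]
    rfl
  exact DFunLike.congr_fun h a

private theorem nc_T_mon {ι : Type} (deg : ι → ℕ) (l : List (ι ⊕ ι)) (h : 1 ≤ cS l) :
    ncT deg (mon (sd deg) l) = 0 := by
  induction l with
  | nil => simp [cS] at h
  | cons x l ih =>
    rw [mon_cons, map_mul]
    rcases x with i | i
    · rw [ih (by simpa [cS] using h), mul_zero]
    · rw [nc_T_inr, zero_mul]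

private theorem nc_T_sigma {ι : Type} {deg : ι → ℕ} {S : MinimalSullivan deg}
    {D : Lam (sd deg) →ₗ[ℚ] Lam (sd deg)} {σ : ι → Lam (sd deg)} (h : AC S D σ) (i : ι) :
    ncT deg (σ i) = 0 := by
  have hm : ∀ s : Lam (sd deg), s ∈ SP (sd deg) (fun l => degSum (sd deg) l = deg i ∧ 1 ≤ cW l ∧
      1 ≤ cS l ∧ ∀ x ∈ l, cdeg deg x < deg i) → ncT deg s = 0 := by
    intro s hm
    unfold SP at hm
    induction hm using Submodule.span_induction with
    | mem x hx =>
      obtain ⟨l, ⟨_, _, hl, _⟩, rfl⟩ := hx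
      exact nc_T_mon deg l hl
    | zero => rw [map_zero]
    | add y z _ _ hy hz => rw [map_add, hy, hz, add_zero]
    | smul r y _ hy => rw [map_smul, hy, smul_zero]
  exact hm _ (h.mem i)

private theorem nc_TDR {ι : Type} {deg : ι → ℕ} {S : MinimalSullivan deg}
    {D : Lam (sd deg) →ₗ[ℚ] Lam (sd deg)} {σ : ι → Lam (sd deg)} (h : AC S D σ) (n : ℕ)
    (l : List ι) (hl : ∀ j ∈ l, j ∈ {i | deg i < n}) :
    ncT deg (D (ncR deg (mon (fun i => deg i - 1) l))) ∈
      idealSpan (gen deg '' {j | deg j < n}) := by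
  cases l with
  | nil =>
    rw [mon_nil, map_one, d_one h.diff, map_zero]
    exact zero_mem _
  | cons j l =>
    rw [mon_cons, map_mul, d_mul h.diff, map_add, map_mul, map_mul, nc_R_gen, h.ds j, map_sub,
      nc_T_sigma h j, nc_T_inl, sub_zero, sgn_gen, map_smul, nc_T_inr, smul_zero, zero_mul,
      add_zero]
    exact idealSpan_right (mem_idealSpan_self (Set.mem_image_of_mem _ (hl j List.mem_cons_self))) _

private theorem nc_TR {ι : Type} (deg : ι → ℕ) (l : List ι) :
    (∃ c : ℚ, ncT deg (ncR deg (mon (fun i => deg i - 1) l)) = c • 1) := by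
  cases l with
  | nil => exact ⟨1, by rw [mon_nil, map_one, map_one, one_smul]⟩
  | cons j l =>
    refine ⟨0, ?_⟩
    rw [mon_cons, map_mul, map_mul, nc_R_gen, nc_T_inr, zero_mul, zero_smul]

private theorem nc_ext {ι : Type} {deg : ι → ℕ} {S : MinimalSullivan deg}
    {D : Lam (sd deg) →ₗ[ℚ] Lam (sd deg)} {σ : ι → Lam (sd deg)} (h : AC S D σ)
    (a : Lam deg) : D (ncL deg a) = ncL deg (S.d a) := h.ext a

private theorem nc_key {ι : Type} {deg : ι → ℕ} {S : MinimalSullivan deg}
    {D : Lam (sd deg) →ₗ[ℚ] Lam (sd deg)} {σ : ι → Lam (sd deg)} (h : AC S D σ) (n : ℕ)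
    {q : ℕ} (a : Lam deg) {b : Lam (fun i => deg i - 1)}
    (hb : b ∈ homS (fun i => deg i - 1) {i | deg i < n} q) :
    ncT deg (D (ncL deg a * ncR deg b)) - S.d (ncT deg (ncL deg a * ncR deg b)) ∈
      idealSpan (gen deg '' {j | deg j < n}) := by
  refine homS_induction (fun i => deg i - 1)
    (C := fun b => ncT deg (D (ncL deg a * ncR deg b)) -
      S.d (ncT deg (ncL deg a * ncR deg b)) ∈ idealSpan (gen deg '' {j | deg j < n})) ?_ ?_ ?_ ?_ hb
  · intro l hl _
    obtain ⟨c, hc⟩ := nc_TR deg l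
    rw [d_mul h.diff, map_add, map_mul, map_mul, map_mul, nc_T_L, hc, nc_ext h, nc_T_L,
      mul_smul_comm, mul_smul_comm, mul_one, mul_one, map_smul, add_sub_cancel_left]
    exact idealSpan_left (nc_TDR h n l hl) _
  · rw [map_zero, mul_zero, map_zero, map_zero, map_zero, sub_zero]
    exact zero_mem _
  · intro x y hx hy
    rw [map_add, mul_add, map_add, map_add, map_add, map_add, add_sub_add_comm]
    exact add_mem hx hy
  · intro r x hx
    rw [map_smul, mul_smul_comm, map_smul, map_smul, map_smul, map_smul, ← smul_sub]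
    exact Submodule.smul_mem _ _ hx

private theorem nc_sub {A : Type} [Ring A] [Algebra ℚ A] (M : Submodule ℚ A) {x y : A}
    (hx : x ∈ M) (hy : y ∈ M) : x - y ∈ M := sub_mem hx hy

private theorem nc_key' {ι : Type} {deg : ι → ℕ} {S : MinimalSullivan deg}
    {D : Lam (sd deg) →ₗ[ℚ] Lam (sd deg)} {σ : ι → Lam (sd deg)} (h : AC S D σ) (n : ℕ)
    (u : Lam (sd deg))
    (hu : u ∈ Submodule.span ℚ {e : Lam (sd deg) | ∃ (q : ℕ) (a : Lam deg)
      (b : Lam (fun i => deg i - 1)),
      b ∈ homS (fun i => deg i - 1) {i | deg i < n} q ∧ e = ncL deg a * ncR deg b}) :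
    ncT deg (D u) - S.d (ncT deg u) ∈ idealSpan (gen deg '' {j | deg j < n}) := by
  induction hu using Submodule.span_induction with
  | mem x hx =>
    obtain ⟨q, a, b, hb, rfl⟩ := hx
    exact nc_key h n a hb
  | zero =>
    rw [map_zero, map_zero, map_zero, sub_zero]
    exact zero_mem _
  | add x z _ _ hx hz =>
    rw [map_add, map_add, map_add, map_add, add_sub_add_comm]
    exact add_mem hx hz
  | smul r x _ hx =>
    rw [map_smul, map_smul, map_smul, map_smul, ← smul_sub]
    exact Submodule.smul_mem _ _ hx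

private theorem nc_acy {ι : Type} [Finite ι] {deg : ι → ℕ} {S : MinimalSullivan deg}
    {D : Lam (sd deg) →ₗ[ℚ] Lam (sd deg)} {σ : ι → Lam (sd deg)} (h : AC S D σ) {N : ℕ}
    (hN : VanAbove (hom deg) S.d N) (n : ℕ) {z : Lam (sd deg)}
    (hz : z ∈ ncG deg n (2 * (N + 1))) (hDz : D z = 0) :
    ∃ u : Lam (sd deg), u ∈ Submodule.span ℚ {e : Lam (sd deg) | ∃ (q : ℕ) (a : Lam deg)
      (b : Lam (fun i => deg i - 1)),
      b ∈ homS (fun i => deg i - 1) {i | deg i < n} q ∧ e = ncL deg a * ncR deg b} ∧ D u = z := by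
  have hz' : z ∈ Submodule.span ℚ {e : Lam (sd deg) | ∃ (k q : ℕ) (a : Lam deg)
      (b : Lam (fun i => deg i - 1)),
      N < k ∧ a ∈ hom deg k ∧ b ∈ homS (fun i => deg i - 1) {i | deg i < n} q ∧
      e = ncL deg a * ncR deg b} := by
    refine Submodule.span_mono ?_ hz
    rintro _ ⟨k, q, a, b, hk, ha, hb, rfl⟩
    exact ⟨k, q, a, b, by omega, ha, hb, rfl⟩
  exact acy h hN n hz' hDz

private theorem nc_sig {ι : Type} {deg : ι → ℕ} {S : MinimalSullivan deg}
    {D : Lam (sd deg) →ₗ[ℚ] Lam (sd deg)} {σ : ι → Lam (sd deg)} (h : AC S D σ) (i : ι) :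
    σ i ∈ ncG deg (deg i) 2 := by
  refine (Submodule.span_le.2 ?_) (sigma_mem h i)
  rintro _ ⟨k, q, a, b, hk, -, -, ha, hb, rfl⟩
  exact Submodule.subset_span ⟨k, q, a, b, hk, ha, hb, rfl⟩

private theorem nc_main {ι : Type} [Finite ι] {deg : ι → ℕ} (S : MinimalSullivan deg)
    (h : CohFin S.d) (i : ι) : S.IsNilpotentClass i := by
  obtain ⟨D, σ, hAC⟩ := exists_AC S
  obtain ⟨N, hN⟩ := van_of_cohFin S h
  set y : Lam (sd deg) := gen (sd deg) (Sum.inl i) - σ i with hy
  have hyG : y ∈ ncG deg (deg i) 2 := by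
    refine nc_sub _ ?_ (nc_sig hAC i)
    refine Submodule.subset_span ⟨deg i, 0, gen deg i, 1, S.two_le i, gen_mem_hom deg i,
      nc_one_mem _ _, ?_⟩
    rw [map_one, mul_one, nc_L_gen]
  have hDy : D y = 0 := by
    rw [hy, ← hAC.ds i]
    exact hAC.diff.d_d _
  have hDp : ∀ m : ℕ, D (y ^ m) = 0 := by
    intro m
    induction m with
    | zero => rw [pow_zero]; exact d_one hAC.diff
    | succ m ih => rw [pow_succ, d_mul hAC.diff, ih, hDy, zero_mul, mul_zero, add_zero]
  obtain ⟨u, hu, hDu⟩ := nc_acy hAC hN (deg i) (nc_pow deg (deg i) hyG (N + 1)) (hDp (N + 1))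
  have hTy : ncT deg y = gen deg i := by
    rw [hy, map_sub, nc_T_inl, nc_T_sigma hAC i, sub_zero]
  refine ⟨N + 1, ncT deg u, ?_⟩
  have e1 : gen deg i ^ (N + 1) = ncT deg (D u) := by
    rw [hDu, map_pow, hTy]
  rw [e1]
  exact nc_key' hAC (deg i) u hu

theorem nil_class {ι : Type} [Finite ι] {deg : ι → ℕ} (S : MinimalSullivan deg) (h : CohFin S.d)
    {i : ι} (hi : Even (deg i)) : S.IsNilpotentClass i := by
  have _ := hi
  exact nc_main S h i

end Anick2
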