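import Pool.Agent.Helper98.RD.Core

/-!
RD-01. Odd derivations with arbitrary values of the right parity (the library's `der` has values of
degree `deg i + 1`; here only the parity matters, e.g. `h : w ↦ sw`, `sw ↦ 0` of degree `-1`).

Proof. As in `GCA/Basic.lean` (`dM`, `dM_gen`, `dM_entries`, `der`, `der_mul`): the algebra map
`M : Lam deg →ₐ Matrix (Fin 2) (Fin 2) (Lam deg)`, `gen i ↦ !![sgn (gen i), D i; 0, gen i]`, is well defined: with
`h1 : sgn (gen i) * D j = (-1)^(deg i * deg j) • (D j * gen i)` and `h2 : D i * gen j = (-1)^(deg i * deg j) •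
(sgn (gen j) * D i)`, which follow from `even_comm` / `odd_anti` (`AN/Facts.lean`) by the parities of `deg i`, `deg j`.
By induction on monomials `M a 0 0 = sgn a`, `M a 1 0 = 0`, `M a 1 1 = a`; `δ a = M a 0 1`. The last statement
`sgn (δ a) = -δ (sgn a)` by induction on monomials.
-/

set_option autoImplicit false

namespace Anick2

section

attribute [local irreducible] instRingLam

private theorem par_comm {ι : Type} {deg : ι → ℕ} {m n : ℕ} {a b : Lam deg}
    (ha : sgn deg a = (-1 : ℚ) ^ m • a) (hb : sgn deg b = (-1 : ℚ) ^ n • b) :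
    a * b = (-1 : ℚ) ^ (m * n) • (b * a) := by
  rcases Nat.even_or_odd m with hm | hm
  · rw [hm.neg_one_pow, one_smul] at ha
    rw [(hm.mul_right n).neg_one_pow, one_smul]
    exact even_comm ha b
  · rcases Nat.even_or_odd n with hn | hn
    · rw [hn.neg_one_pow, one_smul] at hb
      rw [(hn.mul_left m).neg_one_pow, one_smul]
      exact (even_comm hb a).symm
    · have ha' : sgn deg a = -a := by
        rw [ha, hm.neg_one_pow]
        exact neg_one_smul ℚ a
      have hb' : sgn deg b = -b := by
        rw [hb, hn.neg_one_pow]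
        exact neg_one_smul ℚ b
      rw [(hm.mul hn).neg_one_pow, odd_anti ha' hb']
      exact (neg_one_smul ℚ (b * a)).symm

end

/-- The triangular matrix representation of the derivation with values `D i` on the generators. -/
private noncomputable def oM {ι : Type} (deg : ι → ℕ) (D : ι → Lam deg)
    (hD : ∀ i, sgn deg (D i) = (-1 : ℚ) ^ (deg i + 1) • D i) :
    Lam deg →ₐ[ℚ] Matrix (Fin 2) (Fin 2) (Lam deg) :=
  Lam.lift deg (fun i => !![sgn deg (gen deg i), D i; 0, gen deg i]) (by
    intro i j
    have h1 : sgn deg (gen deg i) * D j = (-1 : ℚ) ^ (deg i * deg j) • (D j * gen deg i) := by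
      rw [sgn_gen, smul_mul_assoc, par_comm (sgn_gen deg i) (hD j), smul_smul]
      congr 1
      rw [← pow_add, mul_add, mul_one, ← add_assoc, add_comm (deg i), add_assoc, pow_add,
        ← two_mul, pow_mul]
      simp
    have h2 : D i * gen deg j = (-1 : ℚ) ^ (deg i * deg j) • (sgn deg (gen deg j) * D i) := by
      rw [sgn_gen, smul_mul_assoc, par_comm (hD i) (sgn_gen deg j), smul_smul]
      congr 1
      ring
    have h3 : sgn deg (gen deg i) * sgn deg (gen deg j) =
        (-1 : ℚ) ^ (deg i * deg j) • (sgn deg (gen deg j) * sgn deg (gen deg i)) := by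
      rw [← map_mul, ← map_mul, gen_comm, map_smul]
    ext a b
    fin_cases a <;> fin_cases b
    · simpa [Matrix.mul_fin_two] using h3
    · simp only [Matrix.mul_fin_two, Matrix.smul_of, Fin.mk_one, Fin.isValue, Fin.zero_eta]
      simp only [Matrix.of_apply, Matrix.cons_val', Matrix.cons_val_zero, Matrix.cons_val_one,
        Pi.smul_apply, Matrix.smul_cons]
      simp only [smul_add]
      rw [h1, h2, add_comm]
    · simp [Matrix.mul_apply, Fin.sum_univ_two]
    · simpa [Matrix.mul_fin_two] using gen_comm deg i j)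

private theorem oM_gen {ι : Type} (deg : ι → ℕ) (D : ι → Lam deg)
    (hD : ∀ i, sgn deg (D i) = (-1 : ℚ) ^ (deg i + 1) • D i) (i : ι) :
    oM deg D hD (gen deg i) = !![sgn deg (gen deg i), D i; 0, gen deg i] := by
  simp [oM]

private theorem oM_entries {ι : Type} (deg : ι → ℕ) (D : ι → Lam deg)
    (hD : ∀ i, sgn deg (D i) = (-1 : ℚ) ^ (deg i + 1) • D i) (a : Lam deg) :
    oM deg D hD a 0 0 = sgn deg a ∧ oM deg D hD a 1 0 = 0 ∧ oM deg D hD a 1 1 = a := by
  induction a using Lam.induction with
  | hm l =>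
    induction l with
    | nil => simp
    | cons i l ih =>
      rw [mon_cons, map_mul, oM_gen]
      obtain ⟨h1, h2, h3⟩ := ih
      refine ⟨?_, ?_, ?_⟩
      · simp [Matrix.mul_apply, Fin.sum_univ_two, h1, h2]
      · simp [Matrix.mul_apply, Fin.sum_univ_two, h2]
      · simp [Matrix.mul_apply, Fin.sum_univ_two, h3]
  | h0 => simp
  | hadd a b ha hb => simp [ha.1, ha.2.1, ha.2.2, hb.1, hb.2.1, hb.2.2]
  | hsmul r a ha => simp [ha.1, ha.2.1, ha.2.2]

section

attribute [local irreducible] instRingLam

theorem exists_oder {ι : Type} (deg : ι → ℕ) (D : ι → Lam deg)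
    (hD : ∀ i, sgn deg (D i) = (-1 : ℚ) ^ (deg i + 1) • D i) :
    ∃ δ : Lam deg →ₗ[ℚ] Lam deg, (∀ i, δ (gen deg i) = D i) ∧ δ 1 = 0 ∧
      (∀ a b, δ (a * b) = δ a * b + sgn deg a * δ b) ∧
      ∀ a, sgn deg (δ a) = -δ (sgn deg a) := by
  let δ : Lam deg →ₗ[ℚ] Lam deg :=
    { toFun := fun a => oM deg D hD a 0 1
      map_add' := fun a b => by simp
      map_smul' := fun r a => by simp }
  have hg : ∀ i, δ (gen deg i) = D i := by
    intro i
    change oM deg D hD (gen deg i) 0 1 = D i
    rw [oM_gen]
    simp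
  have h1 : δ 1 = 0 := by
    change oM deg D hD 1 0 1 = 0
    rw [map_one]
    simp
  have hmul : ∀ a b, δ (a * b) = δ a * b + sgn deg a * δ b := by
    intro a b
    change oM deg D hD (a * b) 0 1 = _
    rw [map_mul, Matrix.mul_apply, Fin.sum_univ_two, (oM_entries deg D hD a).1,
      (oM_entries deg D hD b).2.2, add_comm]
    rfl
  refine ⟨δ, hg, h1, hmul, ?_⟩
  intro a
  induction a using Lam.induction with
  | hm l =>
    induction l with
    | nil => rw [mon_nil, h1, map_zero, map_one, h1, neg_zero]
    | cons i l ih =>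
      rw [mon_cons, hmul, map_add, map_mul, map_mul, map_mul, hmul, ih, hg, hD, sgn_gen, map_smul,
        map_smul δ, hg, pow_succ]
      simp only [mul_neg, mul_one, smul_mul_assoc]
      rw [neg_add]
      congr 1
      exact neg_smul ((-1 : ℚ) ^ deg i) (D i * sgn deg (mon deg l))
  | h0 => rw [map_zero, map_zero, map_zero, neg_zero]
  | hadd a b ha hb => rw [map_add, map_add, map_add, map_add, ha, hb, neg_add]
  | hsmul r a ha => rw [map_smul, map_smul, map_smul, map_smul, ha, smul_neg]

end

end Anick2
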