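import Pool.Agent.Helper2.AN.Stmt2

/-!
# The reduction theorem for Anick's conjecture: definitions for the statement

`Lam deg`, `gen`, `hom`, `MinimalSullivan` are in `Helper2/GCA/Lam.lean`, `CohFin` and
`MinimalSullivan.IsExt` in `Helper2/AN/Stmt2.lean`.
-/

set_option autoImplicit false

namespace Anick2

/-- The decomposable elements `Λ^{≥2}W`: the span of the monomials of length at least two. -/
noncomputable def decomp {ι : Type} (deg : ι → ℕ) : Submodule ℚ (Lam deg) :=
  Submodule.span ℚ {a | ∃ l : List ι, 2 ≤ l.length ∧ a = mon deg l}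

/-- `(ΛW, d)` has an elliptic extension by generators of degree at least `n`: there is a relative
Sullivan algebra `(ΛW ⊗ ΛV, d)`, minimal as a Sullivan algebra, with `V = V^{≥ n}`
finite-dimensional and with finite-dimensional cohomology. -/
def MinimalSullivan.GoodAt {ι : Type} {deg : ι → ℕ} (S : MinimalSullivan deg) (n : ℕ) : Prop :=
  ∃ (m : ℕ) (deg' : Fin m → ℕ) (S' : MinimalSullivan (Sum.elim deg deg')),
    (∀ j, n ≤ deg' j) ∧ S.IsExt S' ∧ CohFin S'.d

/-- `J : ΛX → ΛW` is a morphism of Sullivan algebras (degree `0`, commuting with the differentials)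
whose linear part `X^even → W^even` is surjective: the corresponding map of spaces is injective on
the even rational homotopy groups. -/
structure EvenOnto {ι κ : Type} {deg : ι → ℕ} {deg' : κ → ℕ} (S : MinimalSullivan deg)
    (T : MinimalSullivan deg') (J : Lam deg' →ₐ[ℚ] Lam deg) : Prop where
  map_hom : ∀ n, ∀ a ∈ hom deg' n, J a ∈ hom deg n
  map_d : ∀ a, S.d (J a) = J (T.d a)
  onto : ∀ i, Even (deg i) → ∃ a ∈ hom deg' (deg i), J a - gen deg i ∈ decomp deg

/-- The basis of `V_N = ℚ^N ⊕ ℚ^N[1] ⊕ ⋯ ⊕ ℚ^N[N]`: the basis element `(p, k)` has degree `p`. -/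
abbrev UB (N : ℕ) : Type := Fin (N + 1) × Fin N

/-- The basis of the dual of `gl(V_N)_{>0}`: the pairs `(a, b)` of basis elements of `V_N` with
`|b| < |a|`. -/
abbrev UI (N : ℕ) : Type := {p : UB N × UB N // p.2.1 < p.1.1}

/-- The degree of the generator `x_{ab}` is `|a| - |b| + 1`. -/
def udeg (N : ℕ) (p : UI N) : ℕ := (p.1.1.1 : ℕ) - (p.1.2.1 : ℕ) + 1

/-- The generator `x_{ab}`, and `0` if `|a| ≤ |b|`. -/
noncomputable def ux (N : ℕ) (a b : UB N) : Lam (udeg N) :=
  if h : b.1 < a.1 then gen (udeg N) ⟨(a, b), h⟩ else 0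

/-- `d x_{ab} = ∑_c (-1)^{|x_{ac}|} x_{ac} x_{cb}`: the algebra of cochains on the graded Lie algebra
`gl(V_N)_{>0}`. -/
def IsUniv (N : ℕ) (U : MinimalSullivan (udeg N)) : Prop :=
  ∀ a b : UB N, U.d (ux N a b) =
    ∑ c : UB N, (-1 : ℚ) ^ ((a.1 : ℕ) + (c.1 : ℕ) + 1) • (ux N a c * ux N c b)

end Anick2
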